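import Pool.Agent.H657R3.NdDefs
import Pool.Agent.H540R2.Lin.Defs

/-!
# A linear grammar for the graph of polynomial multiplication: definitions
-/

set_option autoImplicit false

namespace Pool.Agent.H657R4

open Finset Pool.Agent.H657R3 Pool.Agent.H540R2

/-- the words generated from a nonterminal with the rules `q → u q' v` (`stp q u q' v`) and
`q → u` (`fn q u`) -/
inductive Gen {St : Type} (stp : St → List Bool → St → List Bool → Prop)
    (fn : St → List Bool → Prop) : St → List Bool → Prop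
  | fin {q : St} {u : List Bool} : fn q u → Gen stp fn q u
  | step {q : St} {u : List Bool} {q' : St} {v w : List Bool} :
      stp q u q' v → Gen stp fn q' w → Gen stp fn q (u ++ w ++ v)

section
variable {K : Type} [Field K] (kv : Bool → Bool → K)

/-- nonterminals -/
inductive St (K : Type)
  | S | A | T | L | F | H
  | C (s : K)
  | Q (s : K)
  | M (s : K)

/-- the rules `q → u q' v` -/
inductive Stp : St K → List Bool → St K → List Bool → Prop
  | SA : Stp .S [] .A []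
  | SL : Stp .S [] .L []
  | SH : Stp .S [] .H []
  | AA (a b c1 c2 c3 c4 c5 c6 : Bool) : Stp .A [false, a, b] .A [c1, c2, c3, c4, c5, c6]
  | AT : Stp .A [true] .T []
  | TT (b : Bool) : Stp .T [b] .T []
  | LL (c1 c2 c3 c4 c5 c6 : Bool) : Stp .L [] .L [c1, c2, c3, c4, c5, c6]
  | LC (a b c1 c2 c3 c4 c5 c6 : Bool) :
      Stp .L [false, a, b] (.C (kv c3 c4 - kv a b * kv c1 c2)) [c1, c2, c3, c4, c5, c6]
  | CC (s : K) (a b c1 c2 c3 c4 c5 c6 : Bool) :
      Stp (.C s) [false, a, b] (.C (s - kv a b * kv c1 c2)) [c1, c2, c3, c4, c5, c6]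
  | CF (s : K) : s ≠ 0 → Stp (.C s) [] .F []
  | FF (a b : Bool) : Stp .F [false, a, b] .F []
  | HH (a b : Bool) : Stp .H [false, a, b] .H []
  | HQ (a b : Bool) : Stp .H [false, a, b] (.Q 0) []
  | QQ (s : K) (a b c1 c2 c3 c4 c5 c6 : Bool) :
      Stp (.Q s) [false, a, b] (.Q (s + kv a b * kv c1 c2)) [c1, c2, c3, c4, c5, c6]
  | QM (s : K) : Stp (.Q s) [true] (.M s) []
  | MM (s : K) (c1 c2 c3 c4 c5 c6 : Bool) : Stp (.M s) [c1, c2, c3, c4, c5, c6] (.M s) []

/-- the rules `q → u` -/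
inductive Fn : St K → List Bool → Prop
  | A0 : Fn .A [false]
  | T (b : Bool) : Fn .T [b]
  | F : Fn .F [true]
  | M (s : K) (c1 c2 c3 c4 c5 c6 : Bool) : kv c5 c6 ≠ s → Fn (.M s) [c1, c2, c3, c4, c5, c6]

/-- the factor of length `l` at position `i` of the infinite word `W` -/
def sub (W : ℕ → Bool) (i l : ℕ) : List Bool := (List.range l).map (fun k => W (i + k))

/-- `x_i` -/
def xk (W : ℕ → Bool) (i : ℕ) : K := kv (W (3 * i + 1)) (W (3 * i + 2))
/-- `y_j` -/
def yk (W : ℕ → Bool) (m j : ℕ) : K := kv (W (3 * m + 1 + 6 * j)) (W (3 * m + 1 + 6 * j + 1))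
/-- `z_j` -/
def zk (W : ℕ → Bool) (m j : ℕ) : K := kv (W (3 * m + 1 + 6 * j + 2)) (W (3 * m + 1 + 6 * j + 3))
/-- `z'_j` -/
def zk' (W : ℕ → Bool) (m j : ℕ) : K :=
  kv (W (3 * m + 1 + 6 * j + 4)) (W (3 * m + 1 + 6 * j + 5))

/-- the word `W 0, …, W (9 m)` is the code of a correct product -/
def Good (W : ℕ → Bool) (m : ℕ) : Prop :=
  (∀ i < m, W (3 * i) = false) ∧ W (3 * m) = true ∧
  (∀ k < m, zk kv W m k = ∑ i ∈ range (k + 1), xk kv W i * yk kv W m (k - i)) ∧
  (∀ j < m, zk' kv W m j = ∑ i ∈ Ico (j + 1) m, xk kv W i * yk kv W m (m + j - i))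

end

end Pool.Agent.H657R4
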