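import Mathlib
import Pool.Agent.H657R4.Defs

set_option autoImplicit false

namespace Pool.Agent.H657R4.TaskALG1

open Finset Module Polynomial

section
variable {K : Type} [Field K] [Fintype K]

open Classical in
/-- polynomials of degree less than `r` -/
noncomputable def R (K : Type) [Field K] [Fintype K] (r : ℕ) : Finset K[X] :=
  Finset.univ.image (fun f : Fin r → K => ∑ i, C (f i) * X ^ (i : ℕ))

theorem card_R (r : ℕ) : (R K r).card ≤ Fintype.card K ^ r := by
  classical
  unfold R
  refine Finset.card_image_le.trans ?_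
  simp

theorem mem_R {r : ℕ} {p : K[X]} (h : p.degree < r) : p ∈ R K r := by
  classical
  unfold R
  rw [Finset.mem_image]
  refine ⟨fun i => p.coeff i, Finset.mem_univ _, ?_⟩
  ext n
  rw [finsetSum_coeff]
  simp only [coeff_C_mul, coeff_X_pow]
  by_cases hn : n < r
  · rw [Finset.sum_eq_single (⟨n, hn⟩ : Fin r)]
    · simp
    · intro j _ hj
      rw [if_neg, mul_zero]
      intro h1
      exact hj (Fin.ext h1.symm)
    · intro h1
      exact absurd (Finset.mem_univ _) h1
  · rw [Finset.sum_eq_zero]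
    · symm
      apply coeff_eq_zero_of_degree_lt
      exact lt_of_lt_of_le h (by exact_mod_cast not_lt.1 hn)
    · intro j _
      rw [if_neg, mul_zero]
      have := j.2
      omega

open Classical in
/-- the exceptional pairs -/
noncomputable def Bd (K : Type) [Field K] [Fintype K] (m t : ℕ) : Finset (K[X] × K[X]) :=
  (range (m - t)).biUnion fun k =>
    ((R K (k + 1) ×ˢ R K (k + 1)) ×ˢ R K (m - k)).image fun x => (x.2 * x.1.2, x.2 * x.1.1)

theorem card_Bd (m t : ℕ) (ht : t ≤ m) : (Bd K m t).card ≤ Fintype.card K ^ (2 * m - t + 2) := by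
  classical
  set q := Fintype.card K with hq
  have hq2 : 2 ≤ q := Fintype.one_lt_card
  unfold Bd
  refine Finset.card_biUnion_le.trans ?_
  have h1 : ∀ k ∈ range (m - t),
      (((R K (k + 1) ×ˢ R K (k + 1)) ×ˢ R K (m - k)).image
        fun x : (K[X] × K[X]) × K[X] => (x.2 * x.1.2, x.2 * x.1.1)).card ≤ q ^ (m + 2) * q ^ k := by
    intro k hk
    rw [Finset.mem_range] at hk
    refine Finset.card_image_le.trans ?_
    rw [Finset.card_product, Finset.card_product]
    calc _ ≤ q ^ (k + 1) * q ^ (k + 1) * q ^ (m - k) :=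
          Nat.mul_le_mul (Nat.mul_le_mul (card_R _) (card_R _)) (card_R _)
      _ = q ^ (m + 2) * q ^ k := by
        rw [← pow_add, ← pow_add, ← pow_add]
        congr 1
        omega
  refine (Finset.sum_le_sum h1).trans ?_
  rw [← Finset.mul_sum]
  have h2 : ∑ k ∈ range (m - t), q ^ k ≤ q ^ (m - t) := by
    have h3 := Nat.geomSum_lt (m := q) (n := m - t) (s := range (m - t)) hq2 (by
      intro k hk
      exact Finset.mem_range.1 hk)
    exact h3.le
  calc _ ≤ q ^ (m + 2) * q ^ (m - t) := Nat.mul_le_mul_left _ h2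
    _ = q ^ (2 * m - t + 2) := by
      rw [← pow_add]
      congr 1
      omega

omit [Fintype K] in
theorem exists_gcd (w₁ w₂ : K[X]) (h2 : w₂ ≠ 0) :
    ∃ g a b : K[X], w₁ = g * b ∧ w₂ = g * a ∧ IsCoprime a b := by
  classical
  obtain ⟨b, hb⟩ := EuclideanDomain.gcd_dvd_left w₁ w₂
  obtain ⟨a, ha⟩ := EuclideanDomain.gcd_dvd_right w₁ w₂
  have hb' := EuclideanDomain.gcd_eq_gcd_ab w₁ w₂
  set g := EuclideanDomain.gcd w₁ w₂ with hg
  have hg0 : g ≠ 0 := by
    intro h
    rw [h, zero_mul] at ha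
    exact h2 ha
  refine ⟨g, a, b, hb, ha, EuclideanDomain.gcdB w₁ w₂, EuclideanDomain.gcdA w₁ w₂, ?_⟩
  apply mul_left_cancel₀ hg0
  rw [mul_one]
  calc g * (EuclideanDomain.gcdB w₁ w₂ * a + EuclideanDomain.gcdA w₁ w₂ * b) =
      (g * b) * EuclideanDomain.gcdA w₁ w₂ + (g * a) * EuclideanDomain.gcdB w₁ w₂ := by ring
    _ = w₁ * EuclideanDomain.gcdA w₁ w₂ + w₂ * EuclideanDomain.gcdB w₁ w₂ := by
      rw [← hb, ← ha]
    _ = g := hb'.symm

omit [Fintype K] in
theorem nd {p : K[X]} {m : ℕ} (h0 : p ≠ 0) (h : p.degree < m) : p.natDegree < m := by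
  rw [degree_eq_natDegree h0] at h
  exact_mod_cast h

omit [Fintype K] in
theorem dn {p : K[X]} {m : ℕ} (h : p.natDegree < m) : p.degree < m :=
  lt_of_le_of_lt degree_le_natDegree (by exact_mod_cast h)

end

/-- TASK ALG1 -/
theorem bad_pairs {K : Type} [Field K] [Fintype K] (m t : ℕ) (ht : t ≤ m) :
    ∃ Bad : Finset (K[X] × K[X]), Bad.card ≤ Fintype.card K ^ (2 * m - t + 2) ∧
      ∀ w₁ w₂ : K[X], w₁ ≠ 0 → w₂ ≠ 0 → w₁.degree < m → w₂.degree < m → (w₁, w₂) ∉ Bad →
        {a : K[X] × K[X] | a.1.degree < m ∧ a.2.degree < m ∧ a.1 * w₁ = a.2 * w₂}.Finite ∧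
        {a : K[X] × K[X] | a.1.degree < m ∧ a.2.degree < m ∧ a.1 * w₁ = a.2 * w₂}.ncard ≤
          Fintype.card K ^ t := by
  classical
  refine ⟨Bd K m t, card_Bd m t ht, fun w₁ w₂ h1 h2 hd1 hd2 hbad => ?_⟩
  obtain ⟨g, a, b, e1, e2, hco⟩ := exists_gcd w₁ w₂ h2
  have hg : g ≠ 0 := by rintro rfl; exact h1 (by rw [e1, zero_mul])
  have ha : a ≠ 0 := by rintro rfl; exact h2 (by rw [e2, mul_zero])
  have hb : b ≠ 0 := by rintro rfl; exact h1 (by rw [e1, mul_zero])
  have n1 : g.natDegree + b.natDegree < m := by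
    rw [← natDegree_mul hg hb, ← e1]
    exact nd h1 hd1
  have n2 : g.natDegree + a.natDegree < m := by
    rw [← natDegree_mul hg ha, ← e2]
    exact nd h2 hd2
  have hk : m ≤ t + max a.natDegree b.natDegree := by
    by_contra hcon
    push Not at hcon
    apply hbad
    unfold Bd
    rw [Finset.mem_biUnion]
    refine ⟨max a.natDegree b.natDegree, Finset.mem_range.2 (by omega), ?_⟩
    rw [Finset.mem_image]
    refine ⟨((a, b), g), ?_, ?_⟩
    · rw [Finset.mem_product, Finset.mem_product]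
      refine ⟨⟨mem_R (dn ?_), mem_R (dn ?_)⟩, mem_R (dn ?_)⟩
      · have := le_max_left a.natDegree b.natDegree
        simp only
        omega
      · have := le_max_right a.natDegree b.natDegree
        simp only
        omega
      · simp only
        omega
    · simp only
      rw [← e1, ← e2]
  have hsub : {x : K[X] × K[X] | x.1.degree < m ∧ x.2.degree < m ∧ x.1 * w₁ = x.2 * w₂} ⊆
      (((R K t).image fun c => (a * c, b * c) : Finset (K[X] × K[X])) : Set (K[X] × K[X])) := by
    rintro ⟨a1, a2⟩ ⟨d1, d2, heq⟩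
    simp only at d1 d2 heq
    have h3 : a1 * b = a2 * a := by
      apply mul_left_cancel₀ hg
      rw [e1, e2] at heq
      linear_combination heq
    have h4 : a ∣ a1 := hco.dvd_of_dvd_mul_right (Dvd.intro_left a2 h3.symm)
    obtain ⟨c, rfl⟩ := h4
    have h5 : a2 = b * c := by
      apply mul_right_cancel₀ ha
      rw [← h3]
      ring
    rw [Finset.mem_coe, Finset.mem_image]
    refine ⟨c, ?_, by rw [h5]⟩
    apply mem_R
    by_cases hc : c = 0
    · rw [hc, degree_zero]
      exact WithBot.bot_lt_coe t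
    · apply dn
      have m1 := nd (mul_ne_zero ha hc) d1
      rw [h5] at d2
      have m2 := nd (mul_ne_zero hb hc) d2
      rw [natDegree_mul ha hc] at m1
      rw [natDegree_mul hb hc] at m2
      omega
  refine ⟨(Finset.finite_toSet _).subset hsub, ?_⟩
  refine (Set.ncard_le_ncard hsub (Finset.finite_toSet _)).trans ?_
  rw [Set.ncard_coe_finset]
  exact Finset.card_image_le.trans (card_R t)

end Pool.Agent.H657R4.TaskALG1
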