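import Pool.Agent.H657R4.Defs

set_option autoImplicit false

namespace Pool.Agent.H657R4.TaskALG2

open Finset Module Polynomial Pool.Agent.H657R3 Pool.Agent.H540R2 Pool.Agent.H657R4

section
variable {K : Type} [Field K] [Fintype K] [Algebra (ZMod 2) K]
  {V : Type} [AddCommGroup V] [Module (ZMod 2) V] [Fintype V]
  (fX fY fZ : V →ₗ[ZMod 2] K[X]) (U : Submodule (ZMod 2) V) (S : Set V) (m : ℕ)

/-- hypotheses on the set `S` (the graph of polynomial multiplication) -/
structure Mul : Prop where
  inj : ∀ u ∈ U, fX u = 0 → fY u = 0 → fZ u = 0 → u = 0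
  dU : ∀ u ∈ U, (fX u).degree < m ∧ (fY u).degree < m
  mul : ∀ s ∈ S, fZ s = fX s * fY s
  sub : ∀ s ∈ S, ∀ s' ∈ S, s + s' ∈ U
  dS : ∀ s ∈ S, (fX s).degree < m ∧ (fY s).degree < m

variable {fX fY fZ U S m}

private lemma degLT_card : ((Polynomial.degreeLT K m : Submodule K K[X]) : Set K[X]).Finite ∧
    ((Polynomial.degreeLT K m : Submodule K K[X]) : Set K[X]).ncard = Fintype.card K ^ m := by
  have e := (Polynomial.degreeLTEquiv K m).toEquiv
  have hfin : Finite (Polynomial.degreeLT K m) := Finite.of_equiv _ e.symm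
  refine ⟨Set.toFinite _, ?_⟩
  have h : Nat.card (Polynomial.degreeLT K m) = Fintype.card K ^ m := by
    rw [Nat.card_congr e, Nat.card_eq_fintype_card, Fintype.card_fun, Fintype.card_fin]
  rw [← h]
  exact (Nat.card_coe_set_eq _).symm

private lemma eq_of_add {x y : V} (h : x + y = 0) : x = y := by
  have h2 : y + y = 0 := ZModModule.add_self y
  exact add_right_cancel (h.trans h2.symm)

private lemma two_zero (x : K[X]) : x + x = 0 := ZModModule.add_self x

private lemma eq_of (h : Mul fX fY fZ U S m) {s s' : V} (hs : s ∈ S) (hs' : s' ∈ S)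
    (hx : fX s = fX s') (hy : fY s = fY s') : s = s' := by
  apply eq_of_add
  apply h.inj _ (h.sub s hs s' hs')
  · rw [map_add, hx, two_zero]
  · rw [map_add, hy, two_zero]
  · rw [map_add, h.mul s hs, h.mul s' hs', hx, hy, two_zero]

private lemma one_a (h : Mul fX fY fZ U S m) {a : V} (ha : a ≠ 0) :
    {s | s ∈ S ∧ s + a ∈ S}.ncard ≤ Fintype.card K ^ m := by
  classical
  obtain ⟨hfin, hcard⟩ := degLT_card (K := K) (m := m)
  have key : ∀ s, s ∈ S → s + a ∈ S → fZ a = fX s * fY a + fX a * fY s + fX a * fY a := by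
    intro s hs hsa
    have h1 := h.mul _ hsa
    rw [map_add, map_add, map_add, h.mul s hs] at h1
    have h2 : fX s * fY s + fZ a =
        fX s * fY s + (fX s * fY a + fX a * fY s + fX a * fY a) := by
      rw [h1]; ring
    exact add_left_cancel h2
  rw [← hcard]
  by_cases hY : fY a = 0
  · by_cases hX : fX a = 0
    · have hempty : {s | s ∈ S ∧ s + a ∈ S} = ∅ := by
        ext s
        simp only [Set.mem_ofPred_eq, Set.mem_empty_iff_false, iff_false, not_and]
        intro hs hsa
        apply ha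
        have hU : a ∈ U := by
          have := h.sub s hs _ hsa
          rwa [← add_assoc, ZModModule.add_self, zero_add] at this
        apply h.inj a hU hX hY
        rw [key s hs hsa, hX, hY]; ring
      rw [hempty]; simp
    · refine Set.ncard_le_ncard_of_injOn (fun s => fX s) ?_ ?_ hfin
      · intro s hs
        exact Polynomial.mem_degreeLT.2 (h.dS s hs.1).1
      · intro s hs s' hs' hxx
        simp only at hxx
        have h1 := key s hs.1 hs.2
        have h2 := key s' hs'.1 hs'.2
        rw [h1, hxx, hY] at h2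
        have h3 : fX a * (fY s - fY s') = 0 := by
          linear_combination h2
        have h4 : fY s = fY s' := by
          rcases mul_eq_zero.1 h3 with h5 | h5
          · exact absurd h5 hX
          · exact sub_eq_zero.1 h5
        exact eq_of h hs.1 hs'.1 hxx h4
  · refine Set.ncard_le_ncard_of_injOn (fun s => fY s) ?_ ?_ hfin
    · intro s hs
      exact Polynomial.mem_degreeLT.2 (h.dS s hs.1).2
    · intro s hs s' hs' hyy
      simp only at hyy
      have h1 := key s hs.1 hs.2
      have h2 := key s' hs'.1 hs'.2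
      rw [h1, hyy] at h2
      have h3 : (fX s - fX s') * fY a = 0 := by
        linear_combination h2
      have h4 : fX s = fX s' := by
        rcases mul_eq_zero.1 h3 with h5 | h5
        · exact sub_eq_zero.1 h5
        · exact absurd h5 hY
      exact eq_of h hs.1 hs'.1 h4 hyy

/-- TASK ALG2 -/
theorem pairs (h : Mul fX fY fZ U S m) (D : Submodule (ZMod 2) V) :
    {s ∈ S | ∃ a ∈ D, a ≠ 0 ∧ s + a ∈ S}.ncard ≤ Nat.card D * Fintype.card K ^ m := by
  classical
  let F : Finset V := (Set.toFinite (D : Set V)).toFinset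
  have hF : F.card = Nat.card D := by
    rw [← Set.ncard_eq_toFinset_card (D : Set V)]
    exact (Nat.card_coe_set_eq _).symm
  let F' : Finset V := F.filter fun a => a ≠ 0
  have hsub : {s ∈ S | ∃ a ∈ D, a ≠ 0 ∧ s + a ∈ S} ⊆
      ⋃ a ∈ F', {s | s ∈ S ∧ s + a ∈ S} := by
    rintro s ⟨hs, a, haD, ha, hsa⟩
    simp only [Set.mem_iUnion]
    exact ⟨a, by simp only [F', F, Finset.mem_filter, Set.Finite.mem_toFinset]; exact ⟨haD, ha⟩,
      hs, hsa⟩
  calc {s ∈ S | ∃ a ∈ D, a ≠ 0 ∧ s + a ∈ S}.ncard
      ≤ (⋃ a ∈ F', {s | s ∈ S ∧ s + a ∈ S}).ncard := Set.ncard_le_ncard hsub (Set.toFinite _)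
    _ ≤ ∑ a ∈ F', {s | s ∈ S ∧ s + a ∈ S}.ncard := Finset.set_ncard_biUnion_le _ _
    _ ≤ ∑ a ∈ F', Fintype.card K ^ m := by
        apply Finset.sum_le_sum
        intro a ha
        exact one_a h (by simpa [F'] using (Finset.mem_filter.1 ha).2)
    _ = F'.card * Fintype.card K ^ m := by rw [Finset.sum_const, smul_eq_mul]
    _ ≤ Nat.card D * Fintype.card K ^ m := by
        apply Nat.mul_le_mul_right
        rw [← hF]
        exact Finset.card_filter_le _ _

end

end Pool.Agent.H657R4.TaskALG2
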