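import Mathlib
import Pool.Agent.H657R4.Defs

/-!
# Task ALG3: slices of the graph of polynomial multiplication
-/

set_option autoImplicit false

namespace Pool.Agent.H657R4.TaskALG3

open Polynomial Finset

section
variable {K : Type} [Field K] [Fintype K] [Algebra (ZMod 2) K]
  {V : Type} [AddCommGroup V] [Module (ZMod 2) V] [Fintype V]
  (fX fY fZ : V →ₗ[ZMod 2] K[X]) (U : Submodule (ZMod 2) V) (S : Set V) (m : ℕ)

/-- hypotheses on the set `S` (the graph of polynomial multiplication) -/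
structure Mul : Prop where
  inj : ∀ u ∈ U, fX u = 0 → fY u = 0 → fZ u = 0 → u = 0
  dU : ∀ u ∈ U, (fX u).degree < m ∧ (fY u).degree < m
  mul : ∀ s ∈ S, fZ s = fX s * fY s
  sub : ∀ s ∈ S, ∀ s' ∈ S, s + s' ∈ U
  dS : ∀ s ∈ S, (fX s).degree < m ∧ (fY s).degree < m

/-- polynomials of degree less than `m` -/
def Rm (K : Type) [Field K] (m : ℕ) : Set K[X] := {P | P.degree < m}

omit [Algebra (ZMod 2) K] in
lemma Rm_fin : (Rm K m).Finite ∧ (Rm K m).ncard = Fintype.card K ^ m := by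
  have h1 : Rm K m = ((Polynomial.degreeLT K m : Submodule K K[X]) : Set K[X]) := by
    ext P
    simp [Rm, Polynomial.mem_degreeLT]
  have h2 : Nat.card (Polynomial.degreeLT K m) = Fintype.card K ^ m := by
    rw [Nat.card_congr (Polynomial.degreeLTEquiv K m).toEquiv]
    simp
  have h3 : Finite (Polynomial.degreeLT K m) :=
    Finite.of_equiv _ (Polynomial.degreeLTEquiv K m).toEquiv.symm
  rw [h1]
  exact ⟨h3, h2⟩

/-- counting with the kernel -/
lemma card_le_ker {M N : Type} [AddCommGroup M] [AddCommGroup N] [Finite M] (f : M →+ N)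
    (B : Set N) (hB : B.Finite) (h : ∀ x, f x ∈ B) :
    Nat.card M ≤ Nat.card f.ker * B.ncard := by
  rw [AddSubgroup.card_eq_card_quotient_mul_card_addSubgroup f.ker, mul_comm]
  apply Nat.mul_le_mul_left
  rw [Nat.card_congr (QuotientAddGroup.quotientKerEquivRange f).toEquiv]
  have h1 : (f.range : Set N) ⊆ B := by
    rintro _ ⟨x, rfl⟩
    exact h x
  exact Set.ncard_le_ncard h1 hB

/-- the fibre group -/
def Ey (E : Submodule (ZMod 2) V) (y : K[X]) : AddSubgroup V where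
  carrier := {a | a ∈ E ∧ a ∈ U ∧ fY a = 0 ∧ fZ a = fX a * y}
  add_mem' := by
    rintro a b ⟨a1, a2, a3, a4⟩ ⟨b1, b2, b3, b4⟩
    refine ⟨E.add_mem a1 b1, U.add_mem a2 b2, ?_, ?_⟩
    · rw [map_add, a3, b3, add_zero]
    · rw [map_add, map_add, a4, b4, add_mul]
  zero_mem' := by
    refine ⟨E.zero_mem, U.zero_mem, map_zero _, ?_⟩
    rw [map_zero, map_zero, zero_mul]
  neg_mem' := by
    rintro a ⟨a1, a2, a3, a4⟩
    refine ⟨E.neg_mem a1, U.neg_mem a2, ?_, ?_⟩
    · rw [map_neg, a3, neg_zero]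
    · rw [map_neg, map_neg, a4, neg_mul]

/-- the group of the elements with vanishing first two coordinates -/
def EZ (E : Submodule (ZMod 2) V) : AddSubgroup V where
  carrier := {a | a ∈ E ∧ a ∈ U ∧ fX a = 0 ∧ fY a = 0}
  add_mem' := by
    rintro a b ⟨a1, a2, a3, a4⟩ ⟨b1, b2, b3, b4⟩
    refine ⟨E.add_mem a1 b1, U.add_mem a2 b2, ?_, ?_⟩
    · rw [map_add, a3, b3, add_zero]
    · rw [map_add, a4, b4, add_zero]
  zero_mem' := ⟨E.zero_mem, U.zero_mem, map_zero _, map_zero _⟩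
  neg_mem' := by
    rintro a ⟨a1, a2, a3, a4⟩
    refine ⟨E.neg_mem a1, U.neg_mem a2, ?_, ?_⟩
    · rw [map_neg, a3, neg_zero]
    · rw [map_neg, a4, neg_zero]

/-- pairs with the same first coordinate -/
def Gp (E : Submodule (ZMod 2) V) (y y' : K[X]) : AddSubgroup (V × V) where
  carrier := {x | x.1 ∈ Ey fX fY fZ U E y ∧ x.2 ∈ Ey fX fY fZ U E y' ∧ fX x.1 = fX x.2}
  add_mem' := by
    rintro a b ⟨a1, a2, a3⟩ ⟨b1, b2, b3⟩
    refine ⟨AddSubgroup.add_mem _ a1 b1, AddSubgroup.add_mem _ a2 b2, ?_⟩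
    rw [Prod.fst_add, Prod.snd_add, map_add, map_add, a3, b3]
  zero_mem' := ⟨AddSubgroup.zero_mem _, AddSubgroup.zero_mem _, rfl⟩
  neg_mem' := by
    rintro a ⟨a1, a2, a3⟩
    refine ⟨AddSubgroup.neg_mem _ a1, AddSubgroup.neg_mem _ a2, ?_⟩
    rw [Prod.fst_neg, Prod.snd_neg, map_neg, map_neg, a3]

variable {fX fY fZ U S m}

lemma fX_inj (h : Mul fX fY fZ U S m) {E : Submodule (ZMod 2) V} {y : K[X]} {a a' : V}
    (ha : a ∈ Ey fX fY fZ U E y) (ha' : a' ∈ Ey fX fY fZ U E y) (he : fX a = fX a') : a = a' := by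
  obtain ⟨b1, b2, b3, b4⟩ := AddSubgroup.sub_mem _ ha ha'
  have h1 : fX (a - a') = 0 := by rw [map_sub, he, sub_self]
  refine sub_eq_zero.1 (h.inj _ b2 h1 b3 ?_)
  rw [b4, h1, zero_mul]

lemma card_Ey (h : Mul fX fY fZ U S m) (E : Submodule (ZMod 2) V) (y : K[X]) :
    Nat.card (Ey fX fY fZ U E y) ≤ Fintype.card K ^ m := by
  rw [← (Rm_fin (K := K) m).2]
  have h1 : ((Ey fX fY fZ U E y : AddSubgroup V) : Set V).ncard ≤ (Rm K m).ncard := by
    refine Set.ncard_le_ncard_of_injOn fX ?_ ?_ (Rm_fin (K := K) m).1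
    · intro a ha
      exact (h.dU a ha.2.1).1
    · intro a ha a' ha' he
      exact fX_inj h ha ha' he
  exact h1

lemma card_Gp (h : Mul fX fY fZ U S m) (E : Submodule (ZMod 2) V) (y y' : K[X]) :
    Nat.card (Ey fX fY fZ U E y) * Nat.card (Ey fX fY fZ U E y') ≤
      Nat.card (Gp fX fY fZ U E y y') * Fintype.card K ^ m := by
  let f : (Ey fX fY fZ U E y × Ey fX fY fZ U E y') →+ K[X] :=
    { toFun := fun x => fX (x.1 : V) - fX (x.2 : V)
      map_zero' := by simp
      map_add' := by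
        intro a b
        simp only [Prod.fst_add, Prod.snd_add, AddSubgroup.coe_add, map_add]
        abel }
  have h1 := card_le_ker f (Rm K m) (Rm_fin (K := K) m).1 (by
    rintro ⟨a, a'⟩
    refine lt_of_le_of_lt (Polynomial.degree_sub_le _ _) (max_lt ?_ ?_)
    · exact (h.dU a a.2.2.1).1
    · exact (h.dU a' a'.2.2.1).1)
  rw [(Rm_fin (K := K) m).2, Nat.card_prod] at h1
  refine h1.trans (Nat.mul_le_mul_right _ ?_)
  let g : f.ker → Gp fX fY fZ U E y y' := fun x =>
    ⟨((x.1.1 : V), (x.1.2 : V)), x.1.1.2, x.1.2.2, by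
      have := x.2
      exact sub_eq_zero.1 this⟩
  refine Nat.card_le_card_of_injective g ?_
  rintro ⟨⟨a, a'⟩, ha⟩ ⟨⟨b, b'⟩, hb⟩ hab
  have h2 := congrArg (fun x : Gp fX fY fZ U E y y' => x.1) hab
  simp only [g, Prod.mk.injEq] at h2
  have e1 : a = b := Subtype.ext h2.1
  have e2 : a' = b' := Subtype.ext h2.2
  subst e1 e2
  rfl

lemma sum_mem_EZ {E : Submodule (ZMod 2) V} {y y' : K[X]} {x : V × V}
    (hx : x ∈ Gp fX fY fZ U E y y') : x.1 + x.2 ∈ EZ fX fY U E ∧
      fZ (x.1 + x.2) = fX x.1 * (y - y') := by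
  obtain ⟨⟨a1, a2, a3, a4⟩, ⟨b1, b2, b3, b4⟩, hc⟩ := hx
  refine ⟨⟨E.add_mem a1 b1, U.add_mem a2 b2, ?_, ?_⟩, ?_⟩
  · rw [map_add, hc, ZModModule.add_self]
  · rw [map_add, a3, b3, add_zero]
  · rw [map_add, a4, b4, ← hc, ← mul_add, ZModModule.sub_eq_add]

lemma card_EZ (h : Mul fX fY fZ U S m) (E : Submodule (ZMod 2) V) (y0 y1 y2 : K[X]) (B : ℕ)
    (hfin : {a : K[X] × K[X] | a.1.degree < m ∧ a.2.degree < m ∧
      a.1 * (y0 - y1) = a.2 * (y0 - y2)}.Finite)
    (hB : {a : K[X] × K[X] | a.1.degree < m ∧ a.2.degree < m ∧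
      a.1 * (y0 - y1) = a.2 * (y0 - y2)}.ncard ≤ B) :
    Nat.card (Gp fX fY fZ U E y0 y1) * Nat.card (Gp fX fY fZ U E y0 y2) ≤
      B * Nat.card (EZ fX fY U E) := by
  let f : (Gp fX fY fZ U E y0 y1 × Gp fX fY fZ U E y0 y2) →+ V :=
    { toFun := fun x => ((x.1 : V × V).1 + (x.1 : V × V).2) + ((x.2 : V × V).1 + (x.2 : V × V).2)
      map_zero' := by simp
      map_add' := by
        intro a b
        simp only [Prod.fst_add, Prod.snd_add, AddSubgroup.coe_add]
        abel }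
  have h1 := card_le_ker f ((EZ fX fY U E : AddSubgroup V) : Set V) (Set.toFinite _) (by
    rintro ⟨a, a'⟩
    exact AddSubgroup.add_mem _ (sum_mem_EZ a.2).1 (sum_mem_EZ a'.2).1)
  rw [Nat.card_prod] at h1
  refine h1.trans (Nat.mul_le_mul ?_ le_rfl)
  refine le_trans ?_ hB
  let g : f.ker → K[X] × K[X] := fun x => (fX (x.1.1 : V × V).1, fX (x.1.2 : V × V).1)
  have hg : ∀ x, g x ∈ {a : K[X] × K[X] | a.1.degree < m ∧ a.2.degree < m ∧
      a.1 * (y0 - y1) = a.2 * (y0 - y2)} := by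
    rintro ⟨⟨a, a'⟩, ha⟩
    refine ⟨(h.dU _ a.2.1.2.1).1, (h.dU _ a'.2.1.2.1).1, ?_⟩
    have h2 : ((a : V × V).1 + (a : V × V).2) + ((a' : V × V).1 + (a' : V × V).2) = 0 := ha
    have h3 := congrArg fZ h2
    rw [map_add, (sum_mem_EZ a.2).2, (sum_mem_EZ a'.2).2, map_zero] at h3
    have h4 := eq_neg_of_add_eq_zero_left h3
    rwa [ZModModule.neg_eq_self] at h4
  have hginj : Function.Injective g := by
    rintro ⟨⟨a, a'⟩, ha⟩ ⟨⟨b, b'⟩, hb⟩ hab
    simp only [g, Prod.mk.injEq] at hab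
    have e1 : (a : V × V).1 = (b : V × V).1 := fX_inj h a.2.1 b.2.1 hab.1
    have e2 : (a : V × V).2 = (b : V × V).2 := fX_inj h a.2.2.1 b.2.2.1 (by
      rw [← a.2.2.2, ← b.2.2.2, hab.1])
    have e3 : (a' : V × V).1 = (b' : V × V).1 := fX_inj h a'.2.1 b'.2.1 hab.2
    have e4 : (a' : V × V).2 = (b' : V × V).2 := fX_inj h a'.2.2.1 b'.2.2.1 (by
      rw [← a'.2.2.2, ← b'.2.2.2, hab.2])
    have e5 : a = b := Subtype.ext (Prod.ext e1 e2)
    have e6 : a' = b' := Subtype.ext (Prod.ext e3 e4)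
    subst e5 e6
    rfl
  have h2 : Nat.card f.ker = (Set.range g).ncard := by
    rw [← Nat.card_range_of_injective hginj]
    rfl
  rw [h2]
  refine Set.ncard_le_ncard ?_ hfin
  rintro _ ⟨x, rfl⟩
  exact hg x

lemma card_T (h : Mul fX fY fZ U S m) (E : Submodule (ZMod 2) V) (p : V)
    (hne : {s ∈ S | s + p ∈ E}.Nonempty) :
    {s ∈ S | s + p ∈ E}.ncard * Nat.card (EZ fX fY U E) ≤ Nat.card E := by
  obtain ⟨s0, hs0⟩ := hne
  have hE1 : ∀ s ∈ {s ∈ S | s + p ∈ E}, ∀ s' ∈ {s ∈ S | s + p ∈ E}, s + s' ∈ E := by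
    rintro s ⟨-, hs⟩ s' ⟨-, hs'⟩
    have : s + s' = (s + p) + (s' + p) := by
      have h2 : p + p = 0 := ZModModule.add_self p
      calc s + s' = s + s' + (p + p) := by rw [h2, add_zero]
        _ = _ := by abel
    rw [this]
    exact E.add_mem hs hs'
  have h1 : ({s ∈ S | s + p ∈ E} ×ˢ ((EZ fX fY U E : AddSubgroup V) : Set V)).ncard ≤
      (E : Set V).ncard := by
    refine Set.ncard_le_ncard_of_injOn (fun x : V × V => x.1 + s0 + x.2) ?_ ?_ (Set.toFinite _)
    · rintro ⟨s, e⟩ ⟨hs, he⟩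
      exact E.add_mem (hE1 s hs s0 hs0) he.1
    · rintro ⟨s, e⟩ ⟨hs, he⟩ ⟨s', e'⟩ ⟨hs', he'⟩ heq
      simp only at hs he hs' he' heq
      have h2 : s + s' = e + e' := by
        have h3 : s + e = s' + e' := by
          have : s + s0 + e = s' + s0 + e' := heq
          have h4 : (s + e) + s0 = (s' + e') + s0 := by
            calc (s + e) + s0 = s + s0 + e := by abel
              _ = s' + s0 + e' := this
              _ = _ := by abel
          exact add_right_cancel h4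
        have h4 : s' + s' = 0 := ZModModule.add_self s'
        have h5 : e + e = 0 := ZModModule.add_self e
        calc s + s' = (s + e) + (s' + e) := by
              have : (s + e) + (s' + e) = s + s' + (e + e) := by abel
              rw [this, h5, add_zero]
          _ = (s' + e') + (s' + e) := by rw [h3]
          _ = (s' + s') + (e + e') := by abel
          _ = e + e' := by rw [h4, zero_add]
      obtain ⟨c1, c2, c3, c4⟩ : e + e' ∈ EZ fX fY U E := AddSubgroup.add_mem _ he he'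
      rw [← h2] at c1 c2 c3 c4
      rw [map_add] at c3 c4
      have c3' : fX s = fX s' := by
        rw [eq_neg_of_add_eq_zero_left c3, ZModModule.neg_eq_self]
      have c4' : fY s = fY s' := by
        rw [eq_neg_of_add_eq_zero_left c4, ZModModule.neg_eq_self]
      have h6 : s + s' = 0 := by
        refine h.inj _ (h.sub s hs.1 s' hs'.1) ?_ ?_ ?_
        · rw [map_add, c3]
        · rw [map_add, c4]
        · rw [map_add, h.mul s hs.1, h.mul s' hs'.1, c3', c4', ZModModule.add_self]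
      have h7 : s = s' := by
        rw [eq_neg_of_add_eq_zero_left h6, ZModModule.neg_eq_self]
      subst h7
      have h8 : e = e' := by
        have : s + s0 + e = s + s0 + e' := heq
        exact add_left_cancel this
      rw [h8]
  rw [Set.ncard_prod] at h1
  exact h1

/-- TASK ALG3 (uses ALG1) -/
theorem slice (h : Mul fX fY fZ U S m) (E : Submodule (ZMod 2) V) (p : V) (τ : ℕ)
    (hτ : 2 * τ ≤ m)
    (hbad : ∃ Bad : Finset (K[X] × K[X]), Bad.card ≤ Fintype.card K ^ (2 * m - 2 * τ + 2) ∧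
      ∀ w₁ w₂ : K[X], w₁ ≠ 0 → w₂ ≠ 0 → w₁.degree < m → w₂.degree < m → (w₁, w₂) ∉ Bad →
        {a : K[X] × K[X] | a.1.degree < m ∧ a.2.degree < m ∧ a.1 * w₁ = a.2 * w₂}.Finite ∧
        {a : K[X] × K[X] | a.1.degree < m ∧ a.2.degree < m ∧ a.1 * w₁ = a.2 * w₂}.ncard ≤
          Fintype.card K ^ (2 * τ)) :
    Fintype.card K ^ τ * {s ∈ S | s + p ∈ E}.ncard ≤
      (2 * Fintype.card K + 1) * Fintype.card K ^ (2 * m) ∨
    Fintype.card K ^ (2 * m) * {s ∈ S | s + p ∈ E}.ncard ≤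
      Fintype.card K ^ (6 * τ) * Nat.card E := by
  classical
  obtain ⟨Bad, hBc, hBad⟩ := hbad
  set q := Fintype.card K with hq
  have hqpos : 0 < q := Fintype.card_pos
  set T : Set V := {s ∈ S | s + p ∈ E} with hT
  let Tf : Finset V := Finset.univ.filter (· ∈ T)
  have hTf : ∀ s, s ∈ Tf ↔ s ∈ T := fun s => by simp [Tf]
  have hTc : T.ncard = Tf.card := by
    rw [← Set.ncard_coe_finset]
    congr 1
    ext s
    simp [Tf]
  let Yf : Finset K[X] := Tf.image fY
  have hYdeg : ∀ y ∈ Yf, y.degree < m := by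
    intro y hy
    obtain ⟨s, hs, rfl⟩ := Finset.mem_image.1 hy
    exact (h.dS s ((hTf s).1 hs).1).2
  have hYc : Yf.card ≤ q ^ m := by
    rw [← Set.ncard_coe_finset, ← (Rm_fin (K := K) m).2]
    exact Set.ncard_le_ncard (fun y hy => hYdeg y hy) (Rm_fin (K := K) m).1
  have hfib : ∀ y ∈ Yf, (Tf.filter fun s => fY s = y).card ≤ Nat.card (Ey fX fY fZ U E y) := by
    intro y hy
    obtain ⟨s0, hs0, hs0y⟩ := Finset.mem_image.1 hy
    have h1 : ((Tf.filter fun s => fY s = y : Finset V) : Set V).ncard ≤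
        ((Ey fX fY fZ U E y : AddSubgroup V) : Set V).ncard := by
      refine Set.ncard_le_ncard_of_injOn (fun s => s + s0) ?_ ?_ (Set.toFinite _)
      · intro s hs
        rw [Finset.mem_coe, Finset.mem_filter] at hs
        have hs1 := (hTf s).1 hs.1
        have hs01 := (hTf s0).1 hs0
        refine ⟨?_, h.sub s hs1.1 s0 hs01.1, ?_, ?_⟩
        · have : s + s0 = (s + p) + (s0 + p) := by
            have h2 : p + p = 0 := ZModModule.add_self p
            calc s + s0 = s + s0 + (p + p) := by rw [h2, add_zero]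
              _ = _ := by abel
          rw [this]
          exact E.add_mem hs1.2 hs01.2
        · rw [map_add, hs.2, hs0y, ZModModule.add_self]
        · rw [map_add, map_add, h.mul s hs1.1, h.mul s0 hs01.1, hs.2, hs0y, add_mul]
      · intro s _ s' _ he
        exact add_right_cancel he
    rw [Set.ncard_coe_finset] at h1
    exact h1
  let BIG : Finset K[X] := Yf.filter fun y => q ^ m < q ^ τ * Nat.card (Ey fX fY fZ U E y)
  have hsum : q ^ τ * Tf.card ≤ BIG.card * q ^ (τ + m) + q ^ (2 * m) := by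
    have h1 : Tf.card = ∑ y ∈ Yf, (Tf.filter fun s => fY s = y).card :=
      Finset.card_eq_sum_card_image fY Tf
    rw [h1, Finset.mul_sum, ← Finset.sum_filter_add_sum_filter_not Yf
      (fun y => q ^ m < q ^ τ * Nat.card (Ey fX fY fZ U E y))]
    apply Nat.add_le_add
    · refine (Finset.sum_le_card_nsmul _ _ (q ^ (τ + m)) ?_).trans ?_
      · intro y hy
        rw [Finset.mem_filter] at hy
        rw [pow_add]
        exact Nat.mul_le_mul_left _ ((hfib y hy.1).trans (card_Ey h E y))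
      · rw [smul_eq_mul]
    · refine (Finset.sum_le_card_nsmul _ _ (q ^ m) ?_).trans ?_
      · intro y hy
        rw [Finset.mem_filter, not_lt] at hy
        exact (Nat.mul_le_mul_left _ (hfib y hy.1)).trans hy.2
      · rw [smul_eq_mul, two_mul, pow_add]
        exact Nat.mul_le_mul_right _ ((Finset.card_le_card (Finset.filter_subset _ _)).trans hYc)
  by_cases hcase : BIG.card ≤ 2 * q ^ (m - τ + 1)
  · left
    rw [hTc]
    refine hsum.trans ?_
    have h1 : BIG.card * q ^ (τ + m) ≤ 2 * q ^ (m - τ + 1) * q ^ (τ + m) :=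
      Nat.mul_le_mul_right _ hcase
    have h2 : 2 * q ^ (m - τ + 1) * q ^ (τ + m) = 2 * q * q ^ (2 * m) := by
      rw [mul_assoc, ← pow_add, show m - τ + 1 + (τ + m) = 2 * m + 1 by omega, pow_succ]
      ring
    rw [h2] at h1
    calc BIG.card * q ^ (τ + m) + q ^ (2 * m) ≤ 2 * q * q ^ (2 * m) + q ^ (2 * m) :=
          Nat.add_le_add_right h1 _
      _ = _ := by ring
  · right
    push Not at hcase
    have hpow1 : 1 ≤ q ^ (m - τ + 1) := Nat.one_le_pow _ _ hqpos
    have hBIG2 : q ^ (m - τ + 1) + 1 < BIG.card := by omega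
    obtain ⟨y0, hy0⟩ : BIG.Nonempty := Finset.card_pos.1 (by omega)
    -- a good pair
    have hpair : ∃ y1 ∈ BIG.erase y0, ∃ y2 ∈ BIG.erase y0, (y0 - y1, y0 - y2) ∉ Bad := by
      let P : Finset (K[X] × K[X]) := ((BIG.erase y0) ×ˢ (BIG.erase y0)).image
        fun x => (y0 - x.1, y0 - x.2)
      have hPc : Bad.card < P.card := by
        have h1 : P.card = (BIG.card - 1) * (BIG.card - 1) := by
          rw [Finset.card_image_of_injective, Finset.card_product, Finset.card_erase_of_mem hy0]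
          rintro ⟨a, b⟩ ⟨c, d⟩ hab
          simp only [Prod.mk.injEq, sub_right_inj] at hab
          rw [hab.1, hab.2]
        rw [h1]
        refine lt_of_le_of_lt hBc ?_
        have h2 : q ^ (2 * m - 2 * τ + 2) = q ^ (m - τ + 1) * q ^ (m - τ + 1) := by
          rw [← pow_add]
          congr 1
          omega
        rw [h2]
        exact Nat.mul_lt_mul'' (by omega) (by omega)
      obtain ⟨e, he, heB⟩ := Finset.exists_mem_notMem_of_card_lt_card hPc
      obtain ⟨⟨y1, y2⟩, hy, rfl⟩ := Finset.mem_image.1 he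
      rw [Finset.mem_product] at hy
      exact ⟨y1, hy.1, y2, hy.2, heB⟩
    obtain ⟨y1, hy1, y2, hy2, hnb⟩ := hpair
    rw [Finset.mem_erase] at hy1 hy2
    have hb0 := Finset.mem_filter.1 hy0
    have hb1 := Finset.mem_filter.1 hy1.2
    have hb2 := Finset.mem_filter.1 hy2.2
    have hd : ∀ y, y ∈ Yf → (y0 - y).degree < m := fun y hy =>
      lt_of_le_of_lt (Polynomial.degree_sub_le _ _) (max_lt (hYdeg y0 hb0.1) (hYdeg y hy))
    obtain ⟨hfin, hcard⟩ := hBad (y0 - y1) (y0 - y2) (sub_ne_zero.2 (Ne.symm hy1.1))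
      (sub_ne_zero.2 (Ne.symm hy2.1)) (hd y1 hb1.1) (hd y2 hb2.1) hnb
    have g1 := card_Gp h E y0 y1
    have g2 := card_Gp h E y0 y2
    have g3 := card_EZ h E y0 y1 y2 _ hfin hcard
    have hne : T.Nonempty := by
      obtain ⟨s, hs, _⟩ := Finset.mem_image.1 hb0.1
      exact ⟨s, (hTf s).1 hs⟩
    have g4 := card_T h E p hne
    rw [← hT] at g4
    set e0 := Nat.card (Ey fX fY fZ U E y0)
    set e1 := Nat.card (Ey fX fY fZ U E y1)
    set e2 := Nat.card (Ey fX fY fZ U E y2)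
    set G1 := Nat.card (Gp fX fY fZ U E y0 y1)
    set G2 := Nat.card (Gp fX fY fZ U E y0 y2)
    set z := Nat.card (EZ fX fY U E)
    have hqm : 0 < q ^ m := pow_pos hqpos _
    have k1 : ∀ e G : ℕ, e0 * e ≤ G * q ^ m → q ^ m < q ^ τ * e → q ^ m ≤ q ^ (2 * τ) * G := by
      intro e G hG he
      have h1 : q ^ m * q ^ m ≤ (q ^ τ * e0) * (q ^ τ * e) := Nat.mul_le_mul hb0.2.le he.le
      have h2 : (q ^ τ * e0) * (q ^ τ * e) = q ^ (2 * τ) * (e0 * e) := by
        rw [two_mul, pow_add]; ring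
      have h3 : q ^ m * q ^ m ≤ (q ^ (2 * τ) * G) * q ^ m := by
        rw [h2] at h1
        refine h1.trans ?_
        rw [mul_assoc]
        exact Nat.mul_le_mul_left _ hG
      exact Nat.le_of_mul_le_mul_right h3 hqm
    have l1 := k1 e1 G1 g1 hb1.2
    have l2 := k1 e2 G2 g2 hb2.2
    have l3 : q ^ (2 * m) ≤ q ^ (6 * τ) * z := by
      have h1 : q ^ m * q ^ m ≤ (q ^ (2 * τ) * G1) * (q ^ (2 * τ) * G2) := Nat.mul_le_mul l1 l2
      calc q ^ (2 * m) = q ^ m * q ^ m := by rw [two_mul, pow_add]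
        _ ≤ (q ^ (2 * τ) * G1) * (q ^ (2 * τ) * G2) := h1
        _ = (q ^ (2 * τ) * q ^ (2 * τ)) * (G1 * G2) := by ring
        _ ≤ (q ^ (2 * τ) * q ^ (2 * τ)) * (q ^ (2 * τ) * z) := Nat.mul_le_mul_left _ g3
        _ = q ^ (6 * τ) * z := by
          rw [← mul_assoc, ← pow_add, ← pow_add]
          congr 2
          omega
    calc q ^ (2 * m) * T.ncard ≤ (q ^ (6 * τ) * z) * T.ncard := Nat.mul_le_mul_right _ l3
      _ = q ^ (6 * τ) * (T.ncard * z) := by ring
      _ ≤ q ^ (6 * τ) * Nat.card E := Nat.mul_le_mul_left _ g4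

end

end Pool.Agent.H657R4.TaskALG3
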