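import Mathlib
import Pool.Agent.H657R4.Defs

/-!
# The grammar does not generate codes of correct products
-/

set_option autoImplicit false

namespace Pool.Agent.H657R4.TaskGR1

open Finset Pool.Agent.H657R3 Pool.Agent.H540R2 Pool.Agent.H657R4

theorem sub_add (W : ℕ → Bool) (i a b : ℕ) : sub W i (a + b) = sub W i a ++ sub W (i + a) b := by
  unfold sub
  rw [List.range_add, List.map_append, List.map_map]
  congr 1
  refine List.map_congr_left fun k _ => ?_
  simp [add_assoc]

theorem sub_length (W : ℕ → Bool) (i a : ℕ) : (sub W i a).length = a := by simp [sub]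

theorem sub_three (W : ℕ → Bool) (i : ℕ) : sub W i 3 = [W i, W (i + 1), W (i + 2)] := by
  simp [sub, List.range_succ]

theorem sub_six (W : ℕ → Bool) (i : ℕ) :
    sub W i 6 = [W i, W (i + 1), W (i + 2), W (i + 3), W (i + 4), W (i + 5)] := by
  simp [sub, List.range_succ]

theorem sub_one (W : ℕ → Bool) (i : ℕ) : sub W i 1 = [W i] := by
  simp [sub, List.range_succ]

theorem inv {S' : Type} {stp : S' → List Bool → S' → List Bool → Prop}
    {fn : S' → List Bool → Prop} {W : ℕ → Bool} {q : S'} {i l : ℕ}
    (h : Gen stp fn q (sub W i l)) :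
    fn q (sub W i l) ∨ ∃ u q' v, stp q u q' v ∧ u.length + v.length ≤ l ∧
      u = sub W i u.length ∧ v = sub W (i + l - v.length) v.length ∧
      Gen stp fn q' (sub W (i + u.length) (l - u.length - v.length)) := by
  generalize hw : sub W i l = w at h
  cases h with
  | fin hf => exact Or.inl hf
  | step hs hg =>
    rename_i u q' v w
    right
    have hl : l = u.length + w.length + v.length := by
      have := congrArg List.length hw
      rw [sub_length, List.length_append, List.length_append] at this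
      exact this
    have hw' : (sub W i u.length ++ sub W (i + u.length) w.length) ++
        sub W (i + (u.length + w.length)) v.length = u ++ w ++ v := by
      rw [← hw, hl, sub_add, sub_add]
    obtain ⟨h1, h2⟩ := List.append_inj' hw' (sub_length _ _ _)
    obtain ⟨h3, h4⟩ := List.append_inj h1 (sub_length _ _ _)
    refine ⟨u, q', v, hs, by omega, h3.symm, ?_, ?_⟩
    · have e : i + l - v.length = i + (u.length + w.length) := by omega
      rw [e]
      exact h2.symm
    · have e : l - u.length - v.length = w.length := by omega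
      rw [e, h4]
      exact hg

section
variable {K : Type} [Field K] {kv : Bool → Bool → K} {W : ℕ → Bool}

theorem len_of_eq {i l : ℕ} {w : List Bool} (h : sub W i l = w) : l = w.length := by
  rw [← h, sub_length]

theorem invS {i l : ℕ} (h : Gen (Stp kv) (Fn kv) .S (sub W i l)) :
    Gen (Stp kv) (Fn kv) .A (sub W i l) ∨ Gen (Stp kv) (Fn kv) .L (sub W i l) ∨
      Gen (Stp kv) (Fn kv) .H (sub W i l) := by
  rcases inv h with hf | ⟨u, q', v, hs, hlen, hu, hv, hg⟩
  · cases hf
  · cases hs
    · left; simpa using hg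
    · right; left; simpa using hg
    · right; right; simpa using hg

theorem invA {i l : ℕ} (h : Gen (Stp kv) (Fn kv) .A (sub W i l)) :
    (l = 1 ∧ W i = false) ∨ (9 ≤ l ∧ W i = false ∧ Gen (Stp kv) (Fn kv) .A (sub W (i + 3) (l - 9))) ∨
      (1 ≤ l ∧ W i = true ∧ Gen (Stp kv) (Fn kv) .T (sub W (i + 1) (l - 1))) := by
  rcases inv h with hf | ⟨u, q', v, hs, hlen, hu, hv, hg⟩
  · left
    generalize hw : sub W i l = w at hf
    cases hf
    have hl := len_of_eq hw
    simp only [List.length_cons, List.length_nil, zero_add] at hl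
    subst hl
    rw [sub_one] at hw
    simp only [List.cons.injEq, and_true] at hw
    exact ⟨rfl, hw⟩
  · cases hs
    · right; left
      simp only [List.length_cons, List.length_nil, zero_add, Nat.reduceAdd] at hlen hu hv hg
      rw [sub_three] at hu
      simp only [List.cons.injEq, and_true] at hu
      exact ⟨hlen, hu.1.symm, by simpa [Nat.sub_sub] using hg⟩
    · right; right
      simp only [List.length_cons, List.length_nil, zero_add, add_zero] at hlen hu hv hg
      rw [sub_one] at hu
      simp only [List.cons.injEq, and_true] at hu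
      exact ⟨hlen, hu.symm, by simpa using hg⟩

theorem invT {i l : ℕ} (h : Gen (Stp kv) (Fn kv) .T (sub W i l)) : 1 ≤ l := by
  rcases inv h with hf | ⟨u, q', v, hs, hlen, hu, hv, hg⟩
  · generalize hw : sub W i l = w at hf
    cases hf
    have hl := len_of_eq hw
    simp only [List.length_cons, List.length_nil, zero_add] at hl
    omega
  · cases hs
    simp only [List.length_cons, List.length_nil, zero_add, add_zero] at hlen
    exact hlen

theorem invF {i l : ℕ} (h : Gen (Stp kv) (Fn kv) .F (sub W i l)) :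
    (l = 1 ∧ W i = true) ∨ (3 ≤ l ∧ W i = false ∧ Gen (Stp kv) (Fn kv) .F (sub W (i + 3) (l - 3))) := by
  rcases inv h with hf | ⟨u, q', v, hs, hlen, hu, hv, hg⟩
  · left
    generalize hw : sub W i l = w at hf
    cases hf
    have hl := len_of_eq hw
    simp only [List.length_cons, List.length_nil, zero_add] at hl
    subst hl
    rw [sub_one] at hw
    simp only [List.cons.injEq, and_true] at hw
    exact ⟨rfl, hw⟩
  · cases hs
    right
    simp only [List.length_cons, List.length_nil, zero_add, Nat.reduceAdd, add_zero] at hlen hu hv hg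
    rw [sub_three] at hu
    simp only [List.cons.injEq, and_true] at hu
    exact ⟨hlen, hu.1.symm, by simpa using hg⟩

theorem invC {s : K} {i l : ℕ} (h : Gen (Stp kv) (Fn kv) (.C s) (sub W i l)) :
    (9 ≤ l ∧ W i = false ∧ Gen (Stp kv) (Fn kv)
      (.C (s - kv (W (i + 1)) (W (i + 2)) * kv (W (i + l - 6)) (W (i + l - 6 + 1))))
        (sub W (i + 3) (l - 9))) ∨
      (s ≠ 0 ∧ Gen (Stp kv) (Fn kv) .F (sub W i l)) := by
  rcases inv h with hf | ⟨u, q', v, hs, hlen, hu, hv, hg⟩
  · cases hf
  · cases hs
    · left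
      simp only [List.length_cons, List.length_nil, zero_add, Nat.reduceAdd] at hlen hu hv hg
      rw [sub_three] at hu
      rw [sub_six] at hv
      simp only [List.cons.injEq, and_true] at hu hv
      refine ⟨hlen, hu.1.symm, ?_⟩
      rw [← hu.2.1, ← hu.2.2, ← hv.1, ← hv.2.1]
      simpa [Nat.sub_sub] using hg
    · right
      rename_i h0
      exact ⟨h0, by simpa using hg⟩

theorem invL {i l : ℕ} (h : Gen (Stp kv) (Fn kv) .L (sub W i l)) :
    (6 ≤ l ∧ Gen (Stp kv) (Fn kv) .L (sub W i (l - 6))) ∨
    (9 ≤ l ∧ W i = false ∧ Gen (Stp kv) (Fn kv)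
      (.C (kv (W (i + l - 6 + 2)) (W (i + l - 6 + 3)) -
        kv (W (i + 1)) (W (i + 2)) * kv (W (i + l - 6)) (W (i + l - 6 + 1))))
        (sub W (i + 3) (l - 9))) := by
  rcases inv h with hf | ⟨u, q', v, hs, hlen, hu, hv, hg⟩
  · cases hf
  · cases hs
    · left
      simp only [List.length_cons, List.length_nil, zero_add, Nat.reduceAdd, add_zero,
        Nat.sub_zero] at hlen hu hv hg
      exact ⟨hlen, hg⟩
    · right
      simp only [List.length_cons, List.length_nil, zero_add, Nat.reduceAdd] at hlen hu hv hg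
      rw [sub_three] at hu
      rw [sub_six] at hv
      simp only [List.cons.injEq, and_true] at hu hv
      refine ⟨hlen, hu.1.symm, ?_⟩
      rw [← hu.2.1, ← hu.2.2, ← hv.1, ← hv.2.1, ← hv.2.2.1, ← hv.2.2.2.1]
      simpa [Nat.sub_sub] using hg

theorem invH {i l : ℕ} (h : Gen (Stp kv) (Fn kv) .H (sub W i l)) :
    3 ≤ l ∧ W i = false ∧ (Gen (Stp kv) (Fn kv) .H (sub W (i + 3) (l - 3)) ∨
      Gen (Stp kv) (Fn kv) (.Q 0) (sub W (i + 3) (l - 3))) := by
  rcases inv h with hf | ⟨u, q', v, hs, hlen, hu, hv, hg⟩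
  · cases hf
  · cases hs
    · simp only [List.length_cons, List.length_nil, zero_add, Nat.reduceAdd, add_zero,
        Nat.sub_zero] at hlen hu hv hg
      rw [sub_three] at hu
      simp only [List.cons.injEq, and_true] at hu
      exact ⟨hlen, hu.1.symm, Or.inl hg⟩
    · simp only [List.length_cons, List.length_nil, zero_add, Nat.reduceAdd, add_zero,
        Nat.sub_zero] at hlen hu hv hg
      rw [sub_three] at hu
      simp only [List.cons.injEq, and_true] at hu
      exact ⟨hlen, hu.1.symm, Or.inr hg⟩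

theorem invQ {s : K} {i l : ℕ} (h : Gen (Stp kv) (Fn kv) (.Q s) (sub W i l)) :
    (9 ≤ l ∧ W i = false ∧ Gen (Stp kv) (Fn kv)
      (.Q (s + kv (W (i + 1)) (W (i + 2)) * kv (W (i + l - 6)) (W (i + l - 6 + 1))))
        (sub W (i + 3) (l - 9))) ∨
      (1 ≤ l ∧ W i = true ∧ Gen (Stp kv) (Fn kv) (.M s) (sub W (i + 1) (l - 1))) := by
  rcases inv h with hf | ⟨u, q', v, hs, hlen, hu, hv, hg⟩
  · cases hf
  · cases hs
    · left
      simp only [List.length_cons, List.length_nil, zero_add, Nat.reduceAdd] at hlen hu hv hg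
      rw [sub_three] at hu
      rw [sub_six] at hv
      simp only [List.cons.injEq, and_true] at hu hv
      refine ⟨hlen, hu.1.symm, ?_⟩
      rw [← hu.2.1, ← hu.2.2, ← hv.1, ← hv.2.1]
      simpa [Nat.sub_sub] using hg
    · right
      simp only [List.length_cons, List.length_nil, zero_add, add_zero, Nat.sub_zero]
        at hlen hu hv hg
      rw [sub_one] at hu
      simp only [List.cons.injEq, and_true] at hu
      exact ⟨hlen, hu.symm, hg⟩

theorem invM {s : K} {i l : ℕ} (h : Gen (Stp kv) (Fn kv) (.M s) (sub W i l)) :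
    (l = 6 ∧ kv (W (i + 4)) (W (i + 5)) ≠ s) ∨
      (6 ≤ l ∧ Gen (Stp kv) (Fn kv) (.M s) (sub W (i + 6) (l - 6))) := by
  rcases inv h with hf | ⟨u, q', v, hs, hlen, hu, hv, hg⟩
  · left
    generalize hw : sub W i l = w at hf
    cases hf
    rename_i c1 c2 c3 c4 c5 c6 hne
    have hl := len_of_eq hw
    simp only [List.length_cons, List.length_nil, zero_add, Nat.reduceAdd] at hl
    subst hl
    rw [sub_six] at hw
    simp only [List.cons.injEq, and_true] at hw
    refine ⟨rfl, ?_⟩
    rw [hw.2.2.2.2.1, hw.2.2.2.2.2]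
    exact hne
  · cases hs
    right
    simp only [List.length_cons, List.length_nil, zero_add, Nat.reduceAdd, add_zero,
      Nat.sub_zero] at hlen hu hv hg
    exact ⟨hlen, hg⟩

variable {m : ℕ}

theorem clA (h : Good kv W m) : ∀ d i : ℕ, i + d = m →
    ¬ Gen (Stp kv) (Fn kv) .A (sub W (3 * i) (9 * d + 1)) := by
  intro d
  induction d with
  | zero =>
    intro i hi hg
    obtain rfl : i = m := by omega
    rcases invA hg with ⟨_, h1⟩ | ⟨h1, _⟩ | ⟨_, _, h1⟩
    · rw [h.2.1] at h1
      exact absurd h1 (by simp)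
    · omega
    · have := invT h1
      omega
  | succ d ih =>
    intro i hi hg
    have h0 := h.1 i (by omega)
    rcases invA hg with ⟨h1, _⟩ | ⟨_, _, h1⟩ | ⟨_, h1, _⟩
    · omega
    · refine ih (i + 1) (by omega) ?_
      have e1 : 3 * (i + 1) = 3 * i + 3 := by ring
      have e2 : 9 * d + 1 = 9 * (d + 1) + 1 - 9 := by omega
      rw [e1, e2]
      exact h1
    · rw [h0] at h1
      exact absurd h1 (by simp)

theorem clF (h : Good kv W m) : ∀ d i l : ℕ, i + d = m →
    Gen (Stp kv) (Fn kv) .F (sub W (3 * i) l) → 3 * i + l = 3 * m + 1 := by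
  intro d
  induction d with
  | zero =>
    intro i l hi hg
    obtain rfl : i = m := by omega
    rcases invF hg with ⟨h1, _⟩ | ⟨_, h1, _⟩
    · omega
    · rw [h.2.1] at h1
      exact absurd h1 (by simp)
  | succ d ih =>
    intro i l hi hg
    have h0 := h.1 i (by omega)
    rcases invF hg with ⟨_, h1⟩ | ⟨h2, _, h1⟩
    · rw [h0] at h1
      exact absurd h1 (by simp)
    · have e1 : 3 * (i + 1) = 3 * i + 3 := by ring
      have := ih (i + 1) (l - 3) (by omega) (by rw [e1]; exact h1)
      omega

theorem clC0 (h : Good kv W m) : ∀ d i l : ℕ, ∀ s : K, i + d = m →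
    Gen (Stp kv) (Fn kv) (.C s) (sub W (3 * i) l) → 3 * m + 1 ≤ 3 * i + l := by
  intro d
  induction d with
  | zero =>
    intro i l s hi hg
    rcases invC hg with ⟨_, h1, _⟩ | ⟨_, h1⟩
    · obtain rfl : i = m := by omega
      rw [h.2.1] at h1
      exact absurd h1 (by simp)
    · exact (clF h 0 i l hi h1).ge
  | succ d ih =>
    intro i l s hi hg
    rcases invC hg with ⟨h2, _, h1⟩ | ⟨_, h1⟩
    · have e1 : 3 * (i + 1) = 3 * i + 3 := by ring
      have := ih (i + 1) (l - 9) _ (by omega) (by rw [e1]; exact h1)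
      omega
    · exact (clF h (d + 1) i l hi h1).ge

theorem clC (h : Good kv W m) : ∀ j i l : ℕ, ∀ s : K, i + j ≤ m →
    3 * i + l = 3 * m + 1 + 6 * j → Gen (Stp kv) (Fn kv) (.C s) (sub W (3 * i) l) →
    s ≠ ∑ a ∈ range j, xk kv W (i + a) * yk kv W m (j - 1 - a) := by
  intro j
  induction j with
  | zero =>
    intro i l s hi hl hg
    rcases invC hg with ⟨h2, h3, h1⟩ | ⟨h0, h1⟩
    · exfalso
      have hne : i ≠ m := by
        rintro rfl
        rw [h.2.1] at h3
        exact absurd h3 (by simp)
      have e1 : 3 * (i + 1) = 3 * i + 3 := by ring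
      have := clC0 h (m - (i + 1)) (i + 1) (l - 9) _ (by omega) (by rw [e1]; exact h1)
      omega
    · simpa using h0
  | succ j ih =>
    intro i l s hi hl hg
    rcases invC hg with ⟨h2, h3, h1⟩ | ⟨h0, h1⟩
    · have e1 : 3 * (i + 1) = 3 * i + 3 := by ring
      have h4 := ih (i + 1) (l - 9) _ (by omega) (by omega) (by rw [e1]; exact h1)
      have e2 : 3 * i + l - 6 = 3 * m + 1 + 6 * j := by omega
      rw [e2] at h4
      intro h5
      apply h4
      rw [h5, sum_range_succ']
      have e3 : xk kv W (i + 0) * yk kv W m (j + 1 - 1 - 0) =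
          kv (W (3 * i + 1)) (W (3 * i + 2)) *
            kv (W (3 * m + 1 + 6 * j)) (W (3 * m + 1 + 6 * j + 1)) := by
        simp [xk, yk]
      rw [e3, add_sub_cancel_right]
      refine sum_congr rfl fun a ha => ?_
      rw [mem_range] at ha
      have e4 : i + (a + 1) = i + 1 + a := by ring
      have e5 : j + 1 - 1 - (a + 1) = j - 1 - a := by omega
      rw [e4, e5]
    · exfalso
      have := clF h (m - i) i l (by omega) h1
      omega

theorem clL0 (h : Good kv W m) : ∀ l : ℕ, Gen (Stp kv) (Fn kv) .L (sub W 0 l) →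
    3 * m + 7 ≤ l := by
  intro l
  induction l using Nat.strong_induction_on with
  | _ l ih =>
    intro hg
    rcases invL hg with ⟨h1, h2⟩ | ⟨h1, h2, h3⟩
    · have := ih (l - 6) (by omega) h2
      omega
    · have hm : m ≠ 0 := by
        rintro rfl
        have := h.2.1
        rw [mul_zero, h2] at this
        exact absurd this (by simp)
      have e1 : 0 + 3 = 3 * 1 := rfl
      rw [e1] at h3
      have := clC0 h (m - 1) 1 (l - 9) _ (by omega) h3
      omega

theorem clL (h : Good kv W m) : ∀ j : ℕ, j ≤ m →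
    ¬ Gen (Stp kv) (Fn kv) .L (sub W 0 (3 * m + 1 + 6 * j)) := by
  intro j
  induction j with
  | zero =>
    intro _ hg
    have := clL0 h _ hg
    omega
  | succ j ih =>
    intro hj hg
    rcases invL hg with ⟨h1, h2⟩ | ⟨h1, h2, h3⟩
    · refine ih (by omega) ?_
      have e : 3 * m + 1 + 6 * (j + 1) - 6 = 3 * m + 1 + 6 * j := by omega
      rwa [e] at h2
    · have e1 : 0 + 3 = 3 * 1 := rfl
      have e2 : 0 + (3 * m + 1 + 6 * (j + 1)) - 6 = 3 * m + 1 + 6 * j := by omega
      rw [e1, e2] at h3
      have h4 := clC h j 1 _ _ (by omega) (by omega) h3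
      apply h4
      have h5 := h.2.2.1 j (by omega)
      rw [sum_range_succ'] at h5
      have e3 : kv (W (3 * m + 1 + 6 * j + 2)) (W (3 * m + 1 + 6 * j + 3)) = zk kv W m j := rfl
      have e4 : kv (W (0 + 1)) (W (0 + 2)) *
          kv (W (3 * m + 1 + 6 * j)) (W (3 * m + 1 + 6 * j + 1)) =
          xk kv W 0 * yk kv W m (j - 0) := by
        simp [xk, yk]
      rw [e3, e4, h5, add_sub_cancel_right]
      refine sum_congr rfl fun a ha => ?_
      have e5 : a + 1 = 1 + a := by ring
      have e6 : j - (1 + a) = j - 1 - a := by omega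
      rw [e5, e6]

theorem clM : ∀ (d t : ℕ) (s : K),
    Gen (Stp kv) (Fn kv) (.M s) (sub W (3 * m + 1 + 6 * t) (6 * d)) →
    zk' kv W m (t + d - 1) ≠ s := by
  intro d
  induction d with
  | zero =>
    intro t s hg
    rcases invM hg with ⟨h1, _⟩ | ⟨h1, _⟩
    · omega
    · omega
  | succ d ih =>
    intro t s hg
    rcases invM hg with ⟨h1, h2⟩ | ⟨h1, h2⟩
    · obtain rfl : d = 0 := by omega
      exact h2
    · have e1 : 3 * m + 1 + 6 * t + 6 = 3 * m + 1 + 6 * (t + 1) := by ring
      have e2 : 6 * (d + 1) - 6 = 6 * d := by omega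
      rw [e1, e2] at h2
      have := ih (t + 1) s h2
      have e3 : t + 1 + d - 1 = t + (d + 1) - 1 := by omega
      rwa [e3] at this

theorem clQ (h : Good kv W m) (j : ℕ) : ∀ (d p l : ℕ) (s : K), p + d = m →
    3 * p + l = 3 * m + 1 + 6 * (d + j + 1) → Gen (Stp kv) (Fn kv) (.Q s) (sub W (3 * p) l) →
    s + ∑ i ∈ Ico p m, xk kv W i * yk kv W m (m + j - i) ≠ zk' kv W m j := by
  intro d
  induction d with
  | zero =>
    intro p l s hp hl hg
    obtain rfl : p = m := by omega
    rcases invQ hg with ⟨_, h1, _⟩ | ⟨_, _, h1⟩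
    · rw [h.2.1] at h1
      exact absurd h1 (by simp)
    · have e : l - 1 = 6 * (j + 1) := by omega
      rw [e] at h1
      have h2 := clM (m := p) (j + 1) 0 s (by simpa using h1)
      simp only [Ico_self, sum_empty, add_zero]
      intro h3
      apply h2
      rw [h3]
      congr 1
      omega
  | succ d ih =>
    intro p l s hp hl hg
    have h0 := h.1 p (by omega)
    rcases invQ hg with ⟨h2, h3, h1⟩ | ⟨_, h1, _⟩
    · have e1 : 3 * p + 3 = 3 * (p + 1) := by ring
      have e2 : 3 * p + l - 6 = 3 * m + 1 + 6 * (m + j - p) := by omega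
      rw [e1, e2] at h1
      have h4 := ih (p + 1) (l - 9) _ (by omega) (by omega) h1
      rw [sum_eq_sum_Ico_succ_bot (by omega : p < m)]
      intro h5
      apply h4
      rw [← h5]
      have e3 : kv (W (3 * p + 1)) (W (3 * p + 2)) *
          kv (W (3 * m + 1 + 6 * (m + j - p))) (W (3 * m + 1 + 6 * (m + j - p) + 1)) =
          xk kv W p * yk kv W m (m + j - p) := rfl
      rw [e3, add_assoc]
    · rw [h0] at h1
      exact absurd h1 (by simp)

theorem clH (h : Good kv W m) : ∀ d i : ℕ, i + d = m →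
    ¬ Gen (Stp kv) (Fn kv) .H (sub W (3 * i) (9 * m + 1 - 3 * i)) := by
  intro d
  induction d with
  | zero =>
    intro i hi hg
    obtain rfl : i = m := by omega
    obtain ⟨_, h1, _⟩ := invH hg
    rw [h.2.1] at h1
    exact absurd h1 (by simp)
  | succ d ih =>
    intro i hi hg
    obtain ⟨_, _, h1 | h1⟩ := invH hg
    · refine ih (i + 1) (by omega) ?_
      have e1 : 3 * (i + 1) = 3 * i + 3 := by ring
      have e2 : 9 * m + 1 - (3 * i + 3) = 9 * m + 1 - 3 * i - 3 := by omega
      rw [e1, e2]
      exact h1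
    · have e1 : 3 * i + 3 = 3 * (i + 1) := by ring
      rw [e1] at h1
      have h2 := clQ h i d (i + 1) _ 0 (by omega) (by omega) h1
      apply h2
      rw [zero_add, h.2.2.2 i (by omega)]

end

theorem not_gen {K : Type} [Field K] (kv : Bool → Bool → K) (W : ℕ → Bool) (m : ℕ)
    (h : Good kv W m) : ¬ Gen (Stp kv) (Fn kv) .S (sub W 0 (9 * m + 1)) := by
  intro hg
  rcases invS hg with h1 | h1 | h1
  · exact clA h m 0 (by omega) (by simpa using h1)
  · refine clL h m le_rfl ?_
    have e : 3 * m + 1 + 6 * m = 9 * m + 1 := by ring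
    rw [e]
    exact h1
  · exact clH h m 0 (by omega) (by simpa using h1)

end Pool.Agent.H657R4.TaskGR1
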