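import Mathlib
import Pool.Agent.H657R4.Defs

set_option autoImplicit false

namespace Pool.Agent.H657R4.TaskGR2

open Finset Pool.Agent.H657R3 Pool.Agent.H540R2 Pool.Agent.H657R4

theorem sub_add (W : ℕ → Bool) (i a b : ℕ) : sub W i (a + b) = sub W i a ++ sub W (i + a) b := by
  unfold sub
  rw [List.range_add, List.map_append, List.map_map]
  congr 1
  apply List.map_congr_left
  intro k _
  simp only [Function.comp]
  rw [Nat.add_assoc]

theorem sub_one (W : ℕ → Bool) (i : ℕ) : sub W i 1 = [W i] := by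
  simp [sub]

theorem sub_three (W : ℕ → Bool) (i : ℕ) : sub W i 3 = [W i, W (i + 1), W (i + 2)] := by
  simp [sub, List.range_succ]

theorem sub_six (W : ℕ → Bool) (i : ℕ) :
    sub W i 6 = [W i, W (i + 1), W (i + 2), W (i + 3), W (i + 4), W (i + 5)] := by
  simp [sub, List.range_succ]

/-- left triple, middle, right block -/
theorem split36 (W : ℕ → Bool) (i l n p : ℕ) (hn : n = 3 + l + 6) (hp : p = i + 3 + l) :
    sub W i n = [W i, W (i + 1), W (i + 2)] ++ sub W (i + 3) l ++
      [W p, W (p + 1), W (p + 2), W (p + 3), W (p + 4), W (p + 5)] := by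
  rw [hn, hp, sub_add, sub_add, sub_three, sub_six, Nat.add_assoc i 3 l]

theorem split3 (W : ℕ → Bool) (i l n : ℕ) (hn : n = 3 + l) :
    sub W i n = [W i, W (i + 1), W (i + 2)] ++ sub W (i + 3) l ++ [] := by
  rw [hn, sub_add, sub_three, List.append_nil]

theorem split6r (W : ℕ → Bool) (i l n p : ℕ) (hn : n = l + 6) (hp : p = i + l) :
    sub W i n = [] ++ sub W i l ++
      [W p, W (p + 1), W (p + 2), W (p + 3), W (p + 4), W (p + 5)] := by
  rw [hn, hp, sub_add, sub_six, List.nil_append]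

theorem split6l (W : ℕ → Bool) (i l n : ℕ) (hn : n = 6 + l) :
    sub W i n = [W i, W (i + 1), W (i + 2), W (i + 3), W (i + 4), W (i + 5)] ++
      sub W (i + 6) l ++ [] := by
  rw [hn, sub_add, sub_six, List.append_nil]

theorem split1 (W : ℕ → Bool) (i l n : ℕ) (hn : n = 1 + l) :
    sub W i n = [W i] ++ sub W (i + 1) l ++ [] := by
  rw [hn, sub_add, sub_one, List.append_nil]

section
variable {K : Type} [Field K] (kv : Bool → Bool → K) (W : ℕ → Bool)

theorem gT (l : ℕ) : ∀ i : ℕ, Gen (Stp kv) (Fn kv) (.T : St K) (sub W i (l + 1)) := by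
  induction l with
  | zero => intro i; rw [Nat.zero_add, sub_one]; exact Gen.fin (Fn.T _)
  | succ l ih =>
    intro i
    rw [split1 W i (l + 1) (l + 1 + 1) (by omega)]
    exact Gen.step (Stp.TT _) (ih (i + 1))

theorem gA (m : ℕ) : ∀ r i : ℕ, i + r = m →
    ((∃ i', i ≤ i' ∧ i' < m ∧ W (3 * i') = true) ∨ W (3 * m) = false) →
    Gen (Stp kv) (Fn kv) (.A : St K) (sub W (3 * i) (9 * r + 1)) := by
  intro r
  induction r with
  | zero =>
    intro i hi h
    rcases h with ⟨i', h1, h2, _⟩ | h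
    · omega
    · have him : i = m := by omega
      rw [him, Nat.mul_zero, Nat.zero_add, sub_one, h]
      exact Gen.fin Fn.A0
  | succ r ih =>
    intro i hi h
    rcases hW : W (3 * i) with _ | _
    · have h' : (∃ i', i + 1 ≤ i' ∧ i' < m ∧ W (3 * i') = true) ∨ W (3 * m) = false := by
        rcases h with ⟨i', h1, h2, h3⟩ | h
        · left
          refine ⟨i', ?_, h2, h3⟩
          rcases Nat.lt_or_ge i i' with h4 | h4
          · exact h4
          · have : i' = i := by omega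
            rw [this, hW] at h3
            exact absurd h3 (by simp)
        · exact Or.inr h
      have ih' := ih (i + 1) (by omega) h'
      rw [split36 W (3 * i) (9 * r + 1) (9 * (r + 1) + 1) _ (by ring) rfl, hW]
      exact Gen.step (Stp.AA _ _ _ _ _ _ _ _) ih'
    · rw [split1 W (3 * i) (9 * r + 8 + 1) (9 * (r + 1) + 1) (by ring), hW]
      exact Gen.step Stp.AT (gT kv W (9 * r + 8) (3 * i + 1))

theorem gF (m : ℕ) (hf : ∀ i < m, W (3 * i) = false) (hm : W (3 * m) = true) : ∀ r i : ℕ,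
    i + r = m → Gen (Stp kv) (Fn kv) (.F : St K) (sub W (3 * i) (3 * r + 1)) := by
  intro r
  induction r with
  | zero =>
    intro i hi
    have him : i = m := by omega
    rw [him, Nat.mul_zero, Nat.zero_add, sub_one, hm]
    exact Gen.fin Fn.F
  | succ r ih =>
    intro i hi
    rw [split3 W (3 * i) (3 * r + 1) (3 * (r + 1) + 1) (by ring), hf i (by omega)]
    exact Gen.step (Stp.FF _ _) (ih (i + 1) (by omega))

theorem gC (m k r : ℕ) (hmk : m = k + 1 + r) (hf : ∀ i < m, W (3 * i) = false)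
    (hm : W (3 * m) = true)
    (hz : zk kv W m k ≠ ∑ i ∈ range (k + 1), xk kv W i * yk kv W m (k - i)) :
    ∀ b a : ℕ, a + b = k → Gen (Stp kv) (Fn kv)
      (.C (zk kv W m k - ∑ i ∈ range (a + 1), xk kv W i * yk kv W m (k - i)))
      (sub W (3 * (a + 1)) (3 * (b + r) + 1 + 6 * b)) := by
  intro b
  induction b with
  | zero =>
    intro a ha
    have hak : a = k := by omega
    rw [hak]
    have h1 := gF kv W m hf hm r (k + 1) (by omega)
    have h2 : Gen (Stp kv) (Fn kv)
        (.C (zk kv W m k - ∑ i ∈ range (k + 1), xk kv W i * yk kv W m (k - i)))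
        ([] ++ sub W (3 * (k + 1)) (3 * r + 1) ++ []) :=
      Gen.step (Stp.CF _ (sub_ne_zero.2 hz)) h1
    rw [List.nil_append, List.append_nil] at h2
    have h3 : 3 * (0 + r) + 1 + 6 * 0 = 3 * r + 1 := by ring
    rw [h3]
    exact h2
  | succ b ih =>
    intro a ha
    have ih' := ih (a + 1) (by omega)
    rw [sum_range_succ] at ih'
    have hidx : k - (a + 1) = b := by omega
    rw [hidx, ← sub_sub] at ih'
    rw [split36 W (3 * (a + 1)) (3 * (b + r) + 1 + 6 * b) (3 * (b + 1 + r) + 1 + 6 * (b + 1))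
      (3 * m + 1 + 6 * b) (by ring) (by rw [hmk, ← ha]; ring), hf (a + 1) (by omega)]
    exact Gen.step (Stp.CC _ _ _ _ _ _ _ _ _) ih'

theorem gL (m k r : ℕ) (hmk : m = k + 1 + r) (hf : ∀ i < m, W (3 * i) = false)
    (hm : W (3 * m) = true)
    (hz : zk kv W m k ≠ ∑ i ∈ range (k + 1), xk kv W i * yk kv W m (k - i)) :
    ∀ r' : ℕ, Gen (Stp kv) (Fn kv) (.L : St K) (sub W 0 (3 * m + 1 + 6 * (k + 1 + r'))) := by
  intro r'
  induction r' with
  | zero =>
    have h1 := gC kv W m k r hmk hf hm hz k 0 (by omega)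
    rw [sum_range_one, Nat.sub_zero] at h1
    rw [split36 W 0 (3 * (k + r) + 1 + 6 * k) (3 * m + 1 + 6 * (k + 1 + 0)) (3 * m + 1 + 6 * k)
      (by rw [hmk]; ring) (by rw [hmk]; ring)]
    have hf0 : W 0 = false := by simpa using hf 0 (by omega)
    rw [hf0]
    exact Gen.step (Stp.LC _ _ _ _ _ _ _ _) h1
  | succ r' ih =>
    rw [split6r W 0 (3 * m + 1 + 6 * (k + 1 + r')) (3 * m + 1 + 6 * (k + 1 + (r' + 1))) _
      (by ring) rfl]
    exact Gen.step (Stp.LL _ _ _ _ _ _) ih

theorem gM (m j : ℕ) (s : K) (hs : zk' kv W m j ≠ s) : ∀ b a : ℕ, a + b = j →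
    Gen (Stp kv) (Fn kv) (.M s) (sub W (3 * m + 1 + 6 * a) (6 * (b + 1))) := by
  intro b
  induction b with
  | zero =>
    intro a ha
    have haj : a = j := by omega
    rw [haj, Nat.zero_add, Nat.mul_one, sub_six]
    exact Gen.fin (Fn.M _ _ _ _ _ _ _ hs)
  | succ b ih =>
    intro a ha
    rw [split6l W (3 * m + 1 + 6 * a) (6 * (b + 1)) (6 * (b + 1 + 1)) (by ring)]
    exact Gen.step (Stp.MM _ _ _ _ _ _ _) (ih (a + 1) (by omega))

theorem gQ (m j : ℕ) (hf : ∀ i < m, W (3 * i) = false) (hm : W (3 * m) = true)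
    (hz : zk' kv W m j ≠ ∑ i ∈ Ico (j + 1) m, xk kv W i * yk kv W m (m + j - i)) :
    ∀ r i : ℕ, i + r = m → j + 1 ≤ i → Gen (Stp kv) (Fn kv)
      (.Q (∑ i' ∈ Ico (j + 1) i, xk kv W i' * yk kv W m (m + j - i')))
      (sub W (3 * i) (3 * r + 1 + 6 * (j + 1 + r))) := by
  intro r
  induction r with
  | zero =>
    intro i hi hji
    have him : i = m := by omega
    rw [him]
    have h1 := gM kv W m j _ hz j 0 (by omega)
    rw [split1 W (3 * m) (6 * (j + 1)) (3 * 0 + 1 + 6 * (j + 1 + 0)) (by ring), hm]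
    exact Gen.step (Stp.QM _) h1
  | succ r ih =>
    intro i hi hji
    have ih' := ih (i + 1) (by omega) (by omega)
    rw [sum_Ico_succ_top hji] at ih'
    have hidx : m + j - i = j + 1 + r := by omega
    rw [hidx] at ih'
    rw [split36 W (3 * i) (3 * r + 1 + 6 * (j + 1 + r)) (3 * (r + 1) + 1 + 6 * (j + 1 + (r + 1)))
      (3 * m + 1 + 6 * (j + 1 + r)) (by ring) (by rw [← hi]; ring), hf i (by omega)]
    exact Gen.step (Stp.QQ _ _ _ _ _ _ _ _ _) ih'

theorem gH (m j r : ℕ) (hmj : m = j + 1 + r) (hf : ∀ i < m, W (3 * i) = false)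
    (hm : W (3 * m) = true)
    (hz : zk' kv W m j ≠ ∑ i ∈ Ico (j + 1) m, xk kv W i * yk kv W m (m + j - i)) :
    ∀ b a : ℕ, a + b = j → Gen (Stp kv) (Fn kv) (.H : St K)
      (sub W (3 * a) (3 * (b + 1 + r) + 1 + 6 * m)) := by
  intro b
  induction b with
  | zero =>
    intro a ha
    have haj : a = j := by omega
    rw [haj]
    have h1 := gQ kv W m j hf hm hz r (j + 1) (by omega) le_rfl
    rw [Ico_self, sum_empty, ← hmj] at h1
    rw [split3 W (3 * j) (3 * r + 1 + 6 * m) (3 * (0 + 1 + r) + 1 + 6 * m) (by ring),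
      hf j (by omega)]
    exact Gen.step (Stp.HQ _ _) h1
  | succ b ih =>
    intro a ha
    rw [split3 W (3 * a) (3 * (b + 1 + r) + 1 + 6 * m) (3 * (b + 1 + 1 + r) + 1 + 6 * m)
      (by ring), hf a (by omega)]
    exact Gen.step (Stp.HH _ _) (ih (a + 1) (by omega))

theorem start {q : St K} {w : List Bool} (h : Stp kv .S [] q [])
    (hw : Gen (Stp kv) (Fn kv) q w) : Gen (Stp kv) (Fn kv) (.S : St K) w := by
  have h1 := Gen.step h hw
  rwa [List.nil_append, List.append_nil] at h1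

end

theorem gen_of_not_good {K : Type} [Field K] (kv : Bool → Bool → K) (W : ℕ → Bool) (m : ℕ)
    (h : ¬ Good kv W m) : Gen (Stp kv) (Fn kv) .S (sub W 0 (9 * m + 1)) := by
  by_cases h1 : (∃ i', 0 ≤ i' ∧ i' < m ∧ W (3 * i') = true) ∨ W (3 * m) = false
  · exact start kv Stp.SA (gA kv W m m 0 (by omega) h1)
  · push Not at h1
    obtain ⟨hf', hm'⟩ := h1
    have hf : ∀ i < m, W (3 * i) = false := by
      intro i hi
      have := hf' i (Nat.zero_le _) hi
      simpa using this
    have hm : W (3 * m) = true := by simpa using hm'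
    by_cases h2 : ∀ k < m, zk kv W m k = ∑ i ∈ range (k + 1), xk kv W i * yk kv W m (k - i)
    · by_cases h3 : ∀ j < m, zk' kv W m j =
          ∑ i ∈ Ico (j + 1) m, xk kv W i * yk kv W m (m + j - i)
      · exact absurd ⟨hf, hm, h2, h3⟩ h
      · push Not at h3
        obtain ⟨j, hj, hz⟩ := h3
        obtain ⟨r, hr⟩ := Nat.exists_eq_add_of_le hj
        have h4 := gH kv W m j r hr hf hm hz j 0 (by omega)
        have h5 : 3 * (j + 1 + r) + 1 + 6 * m = 9 * m + 1 := by omega
        rw [h5, Nat.mul_zero] at h4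
        exact start kv Stp.SH h4
    · push Not at h2
      obtain ⟨k, hk, hz⟩ := h2
      obtain ⟨r, hr⟩ := Nat.exists_eq_add_of_le hk
      have h4 := gL kv W m k r hr hf hm hz r
      have h5 : 3 * m + 1 + 6 * (k + 1 + r) = 9 * m + 1 := by omega
      rw [h5] at h4
      exact start kv Stp.SL h4

end Pool.Agent.H657R4.TaskGR2
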