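import Pool.Agent.H657R4.Defs

/-!
# A linear grammar from a finite rule relation (helper742, after `Pool/Agent/H540R2/Lin/Gram.lean`)
-/

set_option autoImplicit false

namespace Pool.Agent.H657R4.TaskLIN

open Finset Module Polynomial Pool.Agent.H657R3 Pool.Agent.H540R2 Pool.Agent.H657R4

/-- the rule `q → u q' v` -/
def ruleS {St : Type} (q : St) (u : List Bool) (q' : St) (v : List Bool) :
    ContextFreeRule Bool St :=
  ⟨q, u.map Symbol.terminal ++ [Symbol.nonterminal q'] ++ v.map Symbol.terminal⟩

/-- the rule `q → u` -/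
def ruleF {St : Type} (q : St) (u : List Bool) : ContextFreeRule Bool St :=
  ⟨q, u.map Symbol.terminal⟩

/-- all rules -/
def Rules {St : Type} (stp : St → List Bool → St → List Bool → Prop)
    (fn : St → List Bool → Prop) : Set (ContextFreeRule Bool St) :=
  {r | ∃ q u q' v, stp q u q' v ∧ r = ruleS q u q' v} ∪ {r | ∃ q u, fn q u ∧ r = ruleF q u}

lemma rules_finite {St : Type} [Finite St]
    (stp : St → List Bool → St → List Bool → Prop) (fn : St → List Bool → Prop) (c : ℕ)
    (h1 : ∀ q u q' v, stp q u q' v → u.length ≤ c ∧ v.length ≤ c)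
    (h2 : ∀ q u, fn q u → u.length ≤ c) : (Rules stp fn).Finite := by
  have hF : {l : List Bool | l.length ≤ c}.Finite := List.finite_length_le Bool c
  have hU : (Set.univ : Set St).Finite := Set.finite_univ
  refine Set.Finite.union ?_ ?_
  · refine ((hU.prod (hF.prod (hU.prod hF))).image
      (fun p : St × List Bool × St × List Bool => ruleS p.1 p.2.1 p.2.2.1 p.2.2.2)).subset ?_
    rintro r ⟨q, u, q', v, h, rfl⟩
    refine ⟨(q, u, q', v), ?_, rfl⟩
    simp only [Set.mem_prod, Set.mem_univ, Set.mem_setOf_eq, true_and]
    exact h1 q u q' v h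
  · refine ((hU.prod hF).image (fun p : St × List Bool => ruleF p.1 p.2)).subset ?_
    rintro r ⟨q, u, h, rfl⟩
    refine ⟨(q, u), ?_, rfl⟩
    simp only [Set.mem_prod, Set.mem_univ, Set.mem_setOf_eq, true_and]
    exact h2 q u h

lemma uniq {St : Type} (u v : List Bool) (q q0 : St) (p s : List (Symbol Bool St))
    (h : u.map Symbol.terminal ++ Symbol.nonterminal q :: v.map Symbol.terminal =
      p ++ Symbol.nonterminal q0 :: s) :
    p = u.map Symbol.terminal ∧ q0 = q ∧ s = v.map Symbol.terminal := by
  induction u generalizing p with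
  | nil =>
    cases p with
    | nil =>
      simp only [List.map_nil, List.nil_append, List.cons.injEq, Symbol.nonterminal.injEq] at h
      exact ⟨rfl, h.1.symm, h.2.symm⟩
    | cons a p =>
      simp only [List.map_nil, List.nil_append, List.cons_append, List.cons.injEq] at h
      have h2 : Symbol.nonterminal q0 ∈ v.map (Symbol.terminal (N := St)) := by
        rw [h.2]; simp
      simp at h2
  | cons b u ih =>
    cases p with
    | nil => simp at h
    | cons a p =>
      simp only [List.map_cons, List.cons_append, List.cons.injEq] at h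
      obtain ⟨e1, e2, e3⟩ := ih p h.2
      exact ⟨by rw [← h.1, e1]; rfl, e2, e3⟩

lemma app2 {N : Type} (u v u' v' : List Bool) (B : N) :
    List.map Symbol.terminal u ++ (List.map Symbol.terminal u' ++ [Symbol.nonterminal B] ++
      List.map Symbol.terminal v') ++ List.map Symbol.terminal v =
      List.map Symbol.terminal (u ++ u') ++
        Symbol.nonterminal B :: List.map Symbol.terminal (v' ++ v) := by simp

lemma app3 {N : Type} (u v u' : List Bool) :
    List.map (Symbol.terminal (N := N)) u ++ List.map Symbol.terminal u' ++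
      List.map Symbol.terminal v = List.map Symbol.terminal (u ++ u' ++ v) := by simp

lemma app4 {N : Type} (p t : List (Symbol Bool N)) (B : N) (u : List Bool)
    (h : List.map Symbol.terminal u = p ++ [Symbol.nonterminal B] ++ t) : False := by
  have h2 : Symbol.nonterminal B ∈ u.map (Symbol.terminal (N := N)) := by
    rw [h]; simp
  simp at h2

lemma app5 {N : Type} (u v w : List Bool) (B : N)
    (h : List.map Symbol.terminal w = List.map Symbol.terminal u ++ Symbol.nonterminal B ::
      List.map Symbol.terminal v) : False := by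
  refine app4 (u.map Symbol.terminal) (v.map Symbol.terminal) B w ?_
  rw [h]; simp

section
variable {St : Type} (q0 : St) (stp : St → List Bool → St → List Bool → Prop)
  (fn : St → List Bool → Prop) (R : Finset (ContextFreeRule Bool St))

/-- the grammar -/
def Gr : ContextFreeGrammar Bool where
  NT := St
  initial := q0
  rules := R

variable {stp fn R}

lemma derives_of_gen (hR : ∀ r, r ∈ R ↔ r ∈ Rules stp fn) {q : St} {w : List Bool}
    (h : Gen stp fn q w) :
    (Gr q0 R).Derives [Symbol.nonterminal q] (w.map Symbol.terminal) := by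
  induction h with
  | @fin q u hf =>
    refine ContextFreeGrammar.Produces.single
      ⟨ruleF q u, (hR _).2 (Or.inr ⟨q, u, hf, rfl⟩), ?_⟩
    exact ContextFreeRule.Rewrites.input_output
  | @step q u q' v w hm _ ih =>
    have h1 : (Gr q0 R).Produces [Symbol.nonterminal q]
        (u.map Symbol.terminal ++ [Symbol.nonterminal q'] ++ v.map Symbol.terminal) :=
      ⟨ruleS q u q' v, (hR _).2 (Or.inl ⟨q, u, q', v, hm, rfl⟩),
        ContextFreeRule.Rewrites.input_output⟩
    have h2 := (ih.append_left (u.map Symbol.terminal)).append_right (v.map Symbol.terminal)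
    rw [List.map_append, List.map_append]
    exact h1.trans_derives h2

lemma gen_of_derives (hR : ∀ r, r ∈ R ↔ r ∈ Rules stp fn) {s : List (Symbol Bool St)}
    {w : List Bool} (h : (Gr q0 R).Derives s (w.map Symbol.terminal)) :
    (∀ (u v : List Bool) (q : St), s = u.map Symbol.terminal ++ Symbol.nonterminal q ::
      v.map Symbol.terminal → ∃ w', w = u ++ w' ++ v ∧ Gen stp fn q w') ∧
    (∀ u : List Bool, s = u.map Symbol.terminal → w = u) := by
  induction h using Relation.ReflTransGen.head_induction_on with
  | refl =>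
    constructor
    · intro u v q hs
      exact (app5 _ _ _ _ hs).elim
    · intro u hu
      exact List.map_injective_iff.2 (fun a b h => by injection h) hu
  | @head s s' hp _ ih =>
    obtain ⟨r, hr, hrw⟩ := hp
    obtain ⟨p, t, hs, hs'⟩ := hrw.exists_parts
    constructor
    · intro u v q hs0
      rw [hs0] at hs
      simp only [List.append_assoc, List.singleton_append] at hs
      obtain ⟨e1, e2, e3⟩ := uniq u v q r.input p t hs
      rcases (hR r).1 hr with ⟨q1, u', q', v', hm, rfl⟩ | ⟨q1, u', hf, rfl⟩
      · have e2' : q1 = q := e2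
        subst e2'
        obtain ⟨w', hw', hg⟩ := ih.1 (u ++ u') (v' ++ v) q' (by
          rw [hs', e1, e3]
          exact app2 _ _ _ _ _)
        refine ⟨u' ++ w' ++ v', ?_, Gen.step hm hg⟩
        rw [hw']
        simp
      · have e2' : q1 = q := e2
        subst e2'
        have := ih.2 (u ++ u' ++ v) (by rw [hs', e1, e3]; exact app3 _ _ _)
        exact ⟨u', this, Gen.fin hf⟩
    · intro u hu
      rw [hu] at hs
      exact (app4 _ _ _ _ hs).elim

end

/-- TASK LIN -/
theorem exists_linear {St : Type} [Finite St] (q0 : St)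
    (stp : St → List Bool → St → List Bool → Prop) (fn : St → List Bool → Prop) (c : ℕ)
    (h1 : ∀ q u q' v, stp q u q' v → u.length ≤ c ∧ v.length ≤ c)
    (h2 : ∀ q u, fn q u → u.length ≤ c) :
    ∃ G : ContextFreeGrammar Bool, IsLinear G ∧ ∀ w, w ∈ G.language ↔ Gen stp fn q0 w := by
  have hfin := rules_finite stp fn c h1 h2
  have hR : ∀ r, r ∈ hfin.toFinset ↔ r ∈ Rules stp fn := fun r => hfin.mem_toFinset
  refine ⟨Gr q0 hfin.toFinset, ?_, ?_⟩
  · intro r hr
    rcases (hR r).1 hr with ⟨q, u, q', v, -, rfl⟩ | ⟨q, u, -, rfl⟩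
    · exact Or.inl ⟨u, v, q', rfl⟩
    · exact Or.inr ⟨u, rfl⟩
  · intro w
    rw [ContextFreeGrammar.mem_language_iff]
    constructor
    · intro h
      obtain ⟨w', hw', hg⟩ := (gen_of_derives q0 hR h).1 [] [] q0 rfl
      rw [hw']
      simpa using hg
    · exact fun h => derives_of_gen q0 hR h

end Pool.Agent.H657R4.TaskLIN
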