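import Pool.Agent.H657R4.Defs

/-!
# Vectors and polynomials
-/

set_option autoImplicit false

namespace Pool.Agent.H657R4

open Finset Module Polynomial

section
variable {K : Type} [Field K] [Fintype K] [Algebra (ZMod 2) K]
  {V : Type} [AddCommGroup V] [Module (ZMod 2) V]
  (fX fY fZ : V →ₗ[ZMod 2] K[X]) (U : Submodule (ZMod 2) V) (S : Set V) (m : ℕ)

/-- hypotheses on the set `S` (the graph of polynomial multiplication) -/
structure Mul : Prop where
  inj : ∀ u ∈ U, fX u = 0 → fY u = 0 → fZ u = 0 → u = 0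
  dU : ∀ u ∈ U, (fX u).degree < m ∧ (fY u).degree < m
  mul : ∀ s ∈ S, fZ s = fX s * fY s
  sub : ∀ s ∈ S, ∀ s' ∈ S, s + s' ∈ U
  dS : ∀ s ∈ S, (fX s).degree < m ∧ (fY s).degree < m

end

/-- the input space -/
abbrev Vm (m : ℕ) : Type := Fin (9 * m + 1) → ZMod 2

/-- the word of a vector -/
def word {n : ℕ} (z : Fin n → ZMod 2) : List Bool := List.ofFn fun i => decide (z i = 1)

/-- the letter at position `p` (`0` outside) -/
def atl (m p : ℕ) : Vm m →ₗ[ZMod 2] ZMod 2 :=
  if h : p < 9 * m + 1 then LinearMap.proj ⟨p, h⟩ else 0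

/-- infinite word of a vector -/
def iw (m : ℕ) (z : Vm m) : ℕ → Bool := fun p => decide (atl m p z = 1)

lemma word_eq (m : ℕ) (z : Vm m) : word z = sub (iw m z) 0 (9 * m + 1) := by
  unfold word sub iw
  apply List.ext_getElem
  · simp
  · intro i h1 h2
    simp only [List.getElem_ofFn, List.getElem_map, List.getElem_range, Nat.zero_add]
    have hi : i < 9 * m + 1 := by simpa using h1
    congr 2
    rw [atl, dif_pos hi]
    rfl

section
variable {K : Type} [Field K] [Fintype K] [Algebra (ZMod 2) K]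
  (e : (ZMod 2 × ZMod 2) ≃ₗ[ZMod 2] K)

/-- the bit as an element of the field with two elements -/
def bz (b : Bool) : ZMod 2 := if b then 1 else 0

lemma bz_decide (a : ZMod 2) : bz (decide (a = 1)) = a := by
  revert a; decide

/-- the value of two bits -/
def kvf (a b : Bool) : K := e (bz a, bz b)

/-- the element of `K` at positions `p`, `p + 1` -/
noncomputable def el (m p : ℕ) : Vm m →ₗ[ZMod 2] K :=
  e.toLinearMap ∘ₗ (LinearMap.prod (atl m p) (atl m (p + 1)))

lemma el_apply (m p : ℕ) (z : Vm m) : el e m p z = e (atl m p z, atl m (p + 1) z) := rfl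

lemma kvf_iw (m p : ℕ) (z : Vm m) : kvf e (iw m z p) (iw m z (p + 1)) = el e m p z := by
  rw [el_apply, kvf, iw, iw, bz_decide, bz_decide]

/-- monomials -/
noncomputable def mono (K : Type) [Field K] [Algebra (ZMod 2) K] (i : ℕ) : K →ₗ[ZMod 2] K[X] :=
  (Polynomial.monomial i).restrictScalars (ZMod 2)

noncomputable def fX (m : ℕ) : Vm m →ₗ[ZMod 2] K[X] :=
  ∑ i ∈ range m, mono K i ∘ₗ el e m (3 * i + 1)

noncomputable def fY (m : ℕ) : Vm m →ₗ[ZMod 2] K[X] :=
  ∑ i ∈ range m, mono K i ∘ₗ el e m (3 * m + 1 + 6 * i)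

noncomputable def fZ (m : ℕ) : Vm m →ₗ[ZMod 2] K[X] :=
  (∑ i ∈ range m, mono K i ∘ₗ el e m (3 * m + 1 + 6 * i + 2)) +
    ∑ i ∈ range m, mono K (m + i) ∘ₗ el e m (3 * m + 1 + 6 * i + 4)

lemma coeff_sum_mono (m : ℕ) (g : ℕ → Vm m →ₗ[ZMod 2] K) (z : Vm m) (k : ℕ) :
    ((∑ i ∈ range m, mono K i ∘ₗ g i) z).coeff k = if k < m then g k z else 0 := by
  rw [LinearMap.sum_apply, Polynomial.finset_sum_coeff]
  simp only [LinearMap.comp_apply, mono, LinearMap.restrictScalars_apply,
    Polynomial.coeff_monomial]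
  rw [Finset.sum_ite_eq']
  simp

lemma coeff_sum_mono' (m : ℕ) (g : ℕ → Vm m →ₗ[ZMod 2] K) (z : Vm m) (k : ℕ) :
    ((∑ i ∈ range m, mono K (m + i) ∘ₗ g i) z).coeff k =
      if m ≤ k ∧ k < 2 * m then g (k - m) z else 0 := by
  rw [LinearMap.sum_apply, Polynomial.finset_sum_coeff]
  simp only [LinearMap.comp_apply, mono, LinearMap.restrictScalars_apply,
    Polynomial.coeff_monomial]
  by_cases h : m ≤ k ∧ k < 2 * m
  · rw [if_pos h, Finset.sum_eq_single (k - m)]
    · rw [if_pos (by omega)]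
    · intro b _ hb
      rw [if_neg (by omega)]
    · intro hn
      exact absurd (Finset.mem_range.2 (by omega)) hn
  · rw [if_neg h]
    apply Finset.sum_eq_zero
    intro b hb
    rw [Finset.mem_range] at hb
    rw [if_neg (by omega)]

lemma coeff_fX (m : ℕ) (z : Vm m) (k : ℕ) :
    (fX e m z).coeff k = if k < m then el e m (3 * k + 1) z else 0 :=
  coeff_sum_mono m (fun k => el e m (3 * k + 1)) z k

lemma coeff_fY (m : ℕ) (z : Vm m) (k : ℕ) :
    (fY e m z).coeff k = if k < m then el e m (3 * m + 1 + 6 * k) z else 0 :=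
  coeff_sum_mono m (fun k => el e m (3 * m + 1 + 6 * k)) z k

lemma coeff_fZ (m : ℕ) (z : Vm m) (k : ℕ) :
    (fZ e m z).coeff k = if k < m then el e m (3 * m + 1 + 6 * k + 2) z else
      if k < 2 * m then el e m (3 * m + 1 + 6 * (k - m) + 4) z else 0 := by
  rw [fZ, LinearMap.add_apply, Polynomial.coeff_add,
    coeff_sum_mono m (fun k => el e m (3 * m + 1 + 6 * k + 2)) z k,
    coeff_sum_mono' m (fun k => el e m (3 * m + 1 + 6 * k + 4)) z k]
  by_cases h : k < m
  · rw [if_pos h, if_pos h, if_neg (by omega), add_zero]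
  · rw [if_neg h, if_neg h, zero_add]
    by_cases h2 : k < 2 * m
    · rw [if_pos ⟨by omega, h2⟩, if_pos h2]
    · rw [if_neg (by omega), if_neg h2]

/-- differences of codes -/
def Um (m : ℕ) : Submodule (ZMod 2) (Vm m) where
  carrier := {z | (∀ i < m, atl m (3 * i) z = 0) ∧ atl m (3 * m) z = 0}
  add_mem' := by
    rintro a b ⟨h1, h2⟩ ⟨h3, h4⟩
    refine ⟨fun i hi => ?_, ?_⟩
    · rw [map_add, h1 i hi, h3 i hi, add_zero]
    · rw [map_add, h2, h4, add_zero]
  zero_mem' := ⟨fun i _ => map_zero _, map_zero _⟩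
  smul_mem' := by
    rintro c a ⟨h1, h2⟩
    refine ⟨fun i hi => ?_, ?_⟩
    · rw [map_smul, h1 i hi, smul_zero]
    · rw [map_smul, h2, smul_zero]

/-- the graph of multiplication -/
def Sm (m : ℕ) : Set (Vm m) :=
  {z | (∀ i < m, atl m (3 * i) z = 0) ∧ atl m (3 * m) z = 1 ∧ fZ e m z = fX e m z * fY e m z}

lemma deg_fX (m : ℕ) (z : Vm m) : (fX e m z).degree < m := by
  rw [Polynomial.degree_lt_iff_coeff_zero]
  intro k hk
  rw [coeff_fX, if_neg (by omega)]

lemma deg_fY (m : ℕ) (z : Vm m) : (fY e m z).degree < m := by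
  rw [Polynomial.degree_lt_iff_coeff_zero]
  intro k hk
  rw [coeff_fY, if_neg (by omega)]

lemma deg_fZ (m : ℕ) (z : Vm m) : (fZ e m z).degree < (2 * m : ℕ) := by
  rw [Polynomial.degree_lt_iff_coeff_zero]
  intro k hk
  rw [coeff_fZ, if_neg (by omega), if_neg (by omega)]

lemma el_zero {m p : ℕ} {z : Vm m} (h : el e m p z = 0) :
    atl m p z = 0 ∧ atl m (p + 1) z = 0 := by
  rw [el_apply, LinearEquiv.map_eq_zero_iff, Prod.mk_eq_zero] at h
  exact h

lemma inj_all (m : ℕ) (z : Vm m) (h1 : ∀ i < m, atl m (3 * i) z = 0) (h2 : atl m (3 * m) z = 0)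
    (h3 : fX e m z = 0) (h4 : fY e m z = 0) (h5 : fZ e m z = 0) : z = 0 := by
  have hx : ∀ k < m, el e m (3 * k + 1) z = 0 := by
    intro k hk
    have := coeff_fX e m z k
    rw [h3, if_pos hk, Polynomial.coeff_zero] at this
    exact this.symm
  have hy : ∀ k < m, el e m (3 * m + 1 + 6 * k) z = 0 := by
    intro k hk
    have := coeff_fY e m z k
    rw [h4, if_pos hk, Polynomial.coeff_zero] at this
    exact this.symm
  have hz : ∀ k < m, el e m (3 * m + 1 + 6 * k + 2) z = 0 := by
    intro k hk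
    have := coeff_fZ e m z k
    rw [h5, if_pos hk, Polynomial.coeff_zero] at this
    exact this.symm
  have hz' : ∀ k < m, el e m (3 * m + 1 + 6 * k + 4) z = 0 := by
    intro k hk
    have := coeff_fZ e m z (m + k)
    rw [h5, if_neg (by omega), if_pos (by omega), Polynomial.coeff_zero,
      Nat.add_sub_cancel_left] at this
    exact this.symm
  funext p
  have hp : z p = atl m p z := by
    rw [atl, dif_pos p.2]
    rfl
  rw [hp, Pi.zero_apply]
  obtain ⟨p, hp⟩ := p
  show atl m p z = 0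
  by_cases c1 : p < 3 * m
  · obtain ⟨i, r, hr, rfl⟩ : ∃ i r, r < 3 ∧ p = 3 * i + r :=
      ⟨p / 3, p % 3, Nat.mod_lt _ (by norm_num), (Nat.div_add_mod p 3).symm⟩
    have hi : i < m := by omega
    interval_cases r
    · exact h1 i hi
    · exact (el_zero e (hx i hi)).1
    · exact (el_zero e (hx i hi)).2
  · by_cases c2 : p = 3 * m
    · rw [c2]; exact h2
    · obtain ⟨j, r, hr, hpr⟩ : ∃ j r, r < 6 ∧ p = 3 * m + 1 + 6 * j + r := by
        refine ⟨(p - 3 * m - 1) / 6, (p - 3 * m - 1) % 6, Nat.mod_lt _ (by norm_num), ?_⟩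
        have := Nat.div_add_mod (p - 3 * m - 1) 6
        omega
      have hj : j < m := by omega
      subst hpr
      interval_cases r
      · exact (el_zero e (hy j hj)).1
      · exact (el_zero e (hy j hj)).2
      · exact (el_zero e (hz j hj)).1
      · exact (el_zero e (hz j hj)).2
      · exact (el_zero e (hz' j hj)).1
      · exact (el_zero e (hz' j hj)).2

lemma mul_Sm (m : ℕ) : Mul (fX e m) (fY e m) (fZ e m) (Um m) (Sm e m) m where
  inj := fun u hu h1 h2 h3 => inj_all e m u hu.1 hu.2 h1 h2 h3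
  dU := fun u _ => ⟨deg_fX e m u, deg_fY e m u⟩
  mul := fun s hs => hs.2.2
  sub := by
    rintro s ⟨h1, h2, -⟩ s' ⟨h1', h2', -⟩
    refine ⟨fun i hi => ?_, ?_⟩
    · rw [map_add, h1 i hi, h1' i hi, add_zero]
    · rw [map_add, h2, h2']; decide
  dS := fun s _ => ⟨deg_fX e m s, deg_fY e m s⟩

lemma good_iff (m : ℕ) (z : Vm m) : Good (kvf e) (iw m z) m ↔ z ∈ Sm e m := by
  unfold Good
  have hxk : ∀ i, xk (kvf e) (iw m z) i = el e m (3 * i + 1) z := fun i => kvf_iw e m _ z
  have hyk : ∀ j, yk (kvf e) (iw m z) m j = el e m (3 * m + 1 + 6 * j) z :=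
    fun j => kvf_iw e m _ z
  have hzk : ∀ j, zk (kvf e) (iw m z) m j = el e m (3 * m + 1 + 6 * j + 2) z :=
    fun j => kvf_iw e m _ z
  have hzk' : ∀ j, zk' (kvf e) (iw m z) m j = el e m (3 * m + 1 + 6 * j + 4) z :=
    fun j => kvf_iw e m _ z
  simp only [hxk, hyk, hzk, hzk']
  have hlow : ∀ k < m, (fX e m z * fY e m z).coeff k =
      ∑ i ∈ range (k + 1), el e m (3 * i + 1) z * el e m (3 * m + 1 + 6 * (k - i)) z := by
    intro k hk
    rw [Polynomial.coeff_mul, Finset.Nat.sum_antidiagonal_eq_sum_range_succ_mk]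
    refine Finset.sum_congr rfl fun i hi => ?_
    rw [Finset.mem_range] at hi
    simp only
    rw [coeff_fX, coeff_fY, if_pos (by omega), if_pos (by omega)]
  have hhigh : ∀ j < m, (fX e m z * fY e m z).coeff (m + j) =
      ∑ i ∈ Ico (j + 1) m, el e m (3 * i + 1) z * el e m (3 * m + 1 + 6 * (m + j - i)) z := by
    intro j hj
    rw [Polynomial.coeff_mul, Finset.Nat.sum_antidiagonal_eq_sum_range_succ_mk]
    symm
    apply Finset.sum_subset_zero_on_sdiff
    · intro i hi
      rw [Finset.mem_Ico] at hi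
      exact Finset.mem_range.2 (by omega)
    · intro i hi
      rw [Finset.mem_sdiff, Finset.mem_range, Finset.mem_Ico] at hi
      simp only
      rw [coeff_fX, coeff_fY]
      by_cases h : i < m
      · rw [if_neg (show ¬ (m + j - i < m) by omega), mul_zero]
      · rw [if_neg h, zero_mul]
    · intro i hi
      rw [Finset.mem_Ico] at hi
      simp only
      rw [coeff_fX, coeff_fY, if_pos (by omega), if_pos (by omega)]
  have hflag : ∀ i, (iw m z (3 * i) = false ↔ atl m (3 * i) z = 0) := by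
    intro i
    unfold iw
    rw [decide_eq_false_iff_not]
    generalize atl m (3 * i) z = a
    revert a; decide
  have hmark : iw m z (3 * m) = true ↔ atl m (3 * m) z = 1 := by
    unfold iw
    rw [decide_eq_true_iff]
  constructor
  · rintro ⟨h1, h2, h3, h4⟩
    refine ⟨fun i hi => (hflag i).1 (h1 i hi), hmark.1 h2, ?_⟩
    ext k
    by_cases hk : k < m
    · rw [coeff_fZ, if_pos hk, h3 k hk, hlow k hk]
    · by_cases hk2 : k < 2 * m
      · obtain ⟨j, rfl⟩ : ∃ j, k = m + j := ⟨k - m, by omega⟩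
        rw [coeff_fZ, if_neg hk, if_pos hk2, Nat.add_sub_cancel_left, h4 j (by omega),
          hhigh j (by omega)]
      · rw [coeff_fZ, if_neg hk, if_neg hk2, Polynomial.coeff_mul]
        symm
        apply Finset.sum_eq_zero
        intro p hp
        rw [Finset.HasAntidiagonal.mem_antidiagonal] at hp
        rw [coeff_fX, coeff_fY]
        by_cases h : p.1 < m
        · rw [if_neg (show ¬ (p.2 < m) by omega), mul_zero]
        · rw [if_neg h, zero_mul]
  · rintro ⟨h1, h2, h3⟩
    refine ⟨fun i hi => (hflag i).2 (h1 i hi), hmark.2 h2, fun k hk => ?_, fun j hj => ?_⟩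
    · rw [← hlow k hk, ← h3, coeff_fZ, if_pos hk]
    · rw [← hhigh j hj, ← h3, coeff_fZ, if_neg (by omega), if_pos (by omega),
        Nat.add_sub_cancel_left]

lemma card_degreeLT (m : ℕ) : Nat.card (degreeLT K m) = Fintype.card K ^ m := by
  rw [Nat.card_congr (degreeLTEquiv K m).toEquiv, Nat.card_eq_fintype_card, Fintype.card_fun,
    Fintype.card_fin]

lemma card_Sm (hK : Fintype.card K = 4) (m : ℕ) : (Sm e m).ncard = 16 ^ m := by
  classical
  haveI : ∀ r, Fintype (degreeLT K r) := fun r =>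
    Fintype.ofEquiv _ (degreeLTEquiv K r).symm.toEquiv
  have hcard : ∀ r, Fintype.card (degreeLT K r) = 4 ^ r := by
    intro r
    rw [← Nat.card_eq_fintype_card, card_degreeLT, hK]
  let Ψ : Vm m → (Fin m → ZMod 2) × ZMod 2 × degreeLT K m × degreeLT K m × degreeLT K (2 * m) :=
    fun z => (fun i => atl m (3 * (i : ℕ)) z, atl m (3 * m) z,
      ⟨fX e m z, Polynomial.mem_degreeLT.2 (deg_fX e m z)⟩,
      ⟨fY e m z, Polynomial.mem_degreeLT.2 (deg_fY e m z)⟩,
      ⟨fZ e m z, Polynomial.mem_degreeLT.2 (deg_fZ e m z)⟩)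
  have hinj : Function.Injective Ψ := by
    intro z z' h
    have h1 := congrArg Prod.fst h
    have h2 := congrArg (fun x => x.2.1) h
    have h3 := congrArg (fun x => (x.2.2.1 : K[X])) h
    have h4 := congrArg (fun x => (x.2.2.2.1 : K[X])) h
    have h5 := congrArg (fun x => (x.2.2.2.2 : K[X])) h
    simp only [Ψ] at h1 h2 h3 h4 h5
    rw [← sub_eq_zero]
    apply inj_all e m
    · intro i hi
      have := congrFun h1 ⟨i, hi⟩
      simp only at this
      rw [map_sub, this, sub_self]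
    · rw [map_sub, h2, sub_self]
    · rw [map_sub, h3, sub_self]
    · rw [map_sub, h4, sub_self]
    · rw [map_sub, h5, sub_self]
  have hbij : Function.Bijective Ψ := by
    rw [Fintype.bijective_iff_injective_and_card]
    refine ⟨hinj, ?_⟩
    rw [Fintype.card_prod, Fintype.card_prod, Fintype.card_prod, Fintype.card_prod, hcard, hcard,
      Fintype.card_fun, Fintype.card_fun, Fintype.card_fin, Fintype.card_fin, ZMod.card]
    have : (4 : ℕ) = 2 ^ 2 := rfl
    rw [this, ← pow_mul, ← pow_mul]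
    have e1 : 2 ^ m * (2 * (2 ^ (2 * m) * (2 ^ (2 * m) * 2 ^ (2 * (2 * m))))) =
      2 ^ (m + 1 + 2 * m + 2 * m + 2 * (2 * m)) := by ring
    rw [e1]
    congr 1
    ring
  let Θ : Sm e m → degreeLT K m × degreeLT K m := fun z => ((Ψ z).2.2.1, (Ψ z).2.2.2.1)
  have hΘ : Function.Bijective Θ := by
    constructor
    · rintro ⟨z, hz⟩ ⟨z', hz'⟩ h
      have h3 := congrArg (fun x => (x.1 : K[X])) h
      have h4 := congrArg (fun x => (x.2 : K[X])) h
      simp only [Θ, Ψ] at h3 h4
      apply Subtype.ext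
      apply hinj
      simp only [Ψ, Prod.mk.injEq, Subtype.mk.injEq]
      refine ⟨?_, ?_, h3, h4, ?_⟩
      · funext i
        rw [hz.1 i i.2, hz'.1 i i.2]
      · rw [hz.2.1, hz'.2.1]
      · rw [hz.2.2, hz'.2.2, h3, h4]
    · rintro ⟨x, y⟩
      have hxy : ((x : K[X]) * (y : K[X])) ∈ degreeLT K (2 * m) := by
        rw [Polynomial.mem_degreeLT]
        have hx := Polynomial.mem_degreeLT.1 x.2
        have hy := Polynomial.mem_degreeLT.1 y.2
        rw [Polynomial.degree_lt_iff_coeff_zero] at hx hy ⊢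
        intro k hk
        rw [Polynomial.coeff_mul]
        apply Finset.sum_eq_zero
        intro p hp
        rw [Finset.HasAntidiagonal.mem_antidiagonal] at hp
        by_cases h : p.1 < m
        · rw [hy p.2 (by omega), mul_zero]
        · rw [hx p.1 (by omega), zero_mul]
      obtain ⟨z, hz⟩ := hbij.2 (0, 1, x, y, ⟨_, hxy⟩)
      have h1 := congrArg Prod.fst hz
      have h2 := congrArg (fun x => x.2.1) hz
      have h3 := congrArg (fun x => x.2.2.1) hz
      have h4 := congrArg (fun x => x.2.2.2.1) hz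
      have h5 := congrArg (fun x => (x.2.2.2.2 : K[X])) hz
      have h3' := congrArg (fun x => (x.2.2.1 : K[X])) hz
      have h4' := congrArg (fun x => (x.2.2.2.1 : K[X])) hz
      simp only [Ψ] at h1 h2 h3 h4 h5 h3' h4'
      refine ⟨⟨z, fun i hi => ?_, h2, ?_⟩, ?_⟩
      · exact congrFun h1 ⟨i, hi⟩
      · rw [h5, h3', h4']
      · exact Prod.ext h3 h4
  have h6 : Nat.card (Sm e m) = Nat.card (degreeLT K m × degreeLT K m) :=
    Nat.card_eq_of_bijective Θ hΘ
  rw [← Nat.card_coe_set_eq, h6, Nat.card_eq_fintype_card, Fintype.card_prod, hcard,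
    ← mul_pow]
  norm_num

end

end Pool.Agent.H657R4
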