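import Pool.Agent.H657R4.UpLin
import Pool.Agent.H657R4.Vec

/-!
# Linear languages have small nondeterministic read-once programs
-/

set_option autoImplicit false

namespace Pool.Agent.H657R4

open Finset Module Pool.Agent.H657R3 Pool.Agent.H540R2 Pool.Agent.H657R4.TaskLIN

section
variable {NT : Type}

/-- a position inside a rule: letters still to be read on the left, the nonterminal, letters still
to be read on the right -/
abbrev Cfg (NT : Type) : Type := List Bool × Option NT × List Bool

/-- nodes: an interval with a nonterminal or a configuration; `inr true` is the accepting node,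
`inr false` is a dead end -/
abbrev Nd (NT : Type) : Type := (ℕ × ℕ × (NT ⊕ Cfg NT)) ⊕ Bool

/-- the target of the edge of a configuration -/
def tgt (i j : ℕ) : Cfg NT → Nd NT
  | (_ :: u, o, v) => if i < j then .inl (i + 1, j, .inr (u, o, v)) else .inr false
  | ([], o, b :: v) =>
      if i < j then .inl (i, j - 1, .inr ([], o, (b :: v).dropLast)) else .inr false
  | ([], some q, []) => .inl (i, j, .inl q)
  | ([], none, []) => if i = j then .inr true else .inr false

/-- the tested position -/
def pos (i j : ℕ) : Cfg NT → Option ℕ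
  | (_ :: _, _, _) => some i
  | ([], _, _ :: _) => some (j - 1)
  | ([], _, []) => none

/-- the expected letter -/
def val : Cfg NT → Bool
  | (b :: _, _, _) => b
  | ([], _, b :: v) => (b :: v).getLast (List.cons_ne_nil b v)
  | ([], _, []) => false

/-- the form of a position -/
noncomputable def frm (n : ℕ) : Option ℕ → Dual (ZMod 2) (Fin n → ZMod 2)
  | none => 0
  | some p => if h : p < n then LinearMap.proj ⟨p, h⟩ else 0

/-- the right-hand side of a test -/
def rhs (o : Option ℕ) (b : Bool) : ZMod 2 :=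
  match o with
  | none => 0
  | some _ => bz b

/-- the program -/
noncomputable def prog (n : ℕ) (q0 : NT) (Rl : Finset (NT × Cfg NT)) (Φ : Finset (Cfg NT)) :
    NLBP (Fin n → ZMod 2) (Nd NT)
      (Fin (n + 1) × Fin (n + 1) × ({x // x ∈ Rl} ⊕ {x // x ∈ Φ})) where
  src e := match e.2.2 with
    | .inl r => .inl ((e.1 : ℕ), (e.2.1 : ℕ), .inl r.1.1)
    | .inr c => .inl ((e.1 : ℕ), (e.2.1 : ℕ), .inr c.1)
  dst e := match e.2.2 with
    | .inl r => .inl ((e.1 : ℕ), (e.2.1 : ℕ), .inr r.1.2)
    | .inr c => tgt e.1 e.2.1 c.1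
  q e := match e.2.2 with
    | .inl _ => 0
    | .inr c => frm n (pos e.1 e.2.1 c.1)
  b e := match e.2.2 with
    | .inl _ => 0
    | .inr c => rhs (pos e.1 e.2.1 c.1) (val c.1)
  s := .inl (0, n, .inl q0)
  t := .inr true

/-- the infinite word -/
def iwn {n : ℕ} (z : Fin n → ZMod 2) : ℕ → Bool :=
  fun p => if h : p < n then decide (z ⟨p, h⟩ = 1) else false

lemma word_iwn {n : ℕ} (z : Fin n → ZMod 2) : word z = sub (iwn z) 0 n := by
  unfold word sub iwn
  apply List.ext_getElem
  · simp
  · intro i h1 h2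
    simp only [List.getElem_ofFn, List.getElem_map, List.getElem_range, Nat.zero_add]
    have hi : i < n := by simpa using h1
    rw [dif_pos hi]

lemma sub_succ (W : ℕ → Bool) (i l : ℕ) : sub W i (l + 1) = W i :: sub W (i + 1) l := by
  unfold sub
  rw [List.range_succ_eq_map, List.map_cons, List.map_map, Nat.add_zero]
  congr 1
  apply List.map_congr_left
  intro k _
  show W (i + (k + 1)) = W (i + 1 + k)
  congr 1
  omega

lemma sub_succ' (W : ℕ → Bool) (i l : ℕ) : sub W i (l + 1) = sub W i l ++ [W (i + l)] := by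
  unfold sub
  rw [List.range_succ, List.map_append]
  rfl

/-- what a node stands for -/
def Acc (stp : NT → List Bool → NT → List Bool → Prop) (fn : NT → List Bool → Prop)
    (W : ℕ → Bool) (i j : ℕ) : NT ⊕ Cfg NT → Prop
  | .inl q => Gen stp fn q (sub W i (j - i))
  | .inr (u, some q', v) => ∃ w', sub W i (j - i) = u ++ w' ++ v ∧ Gen stp fn q' w'
  | .inr (u, none, v) => sub W i (j - i) = u ++ v

variable (n : ℕ) (q0 : NT) (Rl : Finset (NT × Cfg NT)) (Φ : Finset (Cfg NT))
  (stp : NT → List Bool → NT → List Bool → Prop) (fn : NT → List Bool → Prop)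

lemma dead (es) (h : (prog n q0 Rl Φ).Walk (.inr false) es (.inr true)) : False := by
  cases es with
  | nil =>
    have : (Sum.inr false : Nd NT) = Sum.inr true := h
    simp at this
  | cons e es =>
    obtain ⟨i, j, k⟩ := e
    have h1 := h.1
    rcases k with r | c <;> simp [prog] at h1

lemma frm_apply {p : ℕ} (hp : p < n) (z : Fin n → ZMod 2) (b : Bool)
    (h : frm n (some p) z = rhs (some p) b) : iwn z p = b := by
  simp only [frm, dif_pos hp, rhs, LinearMap.proj_apply] at h
  simp only [iwn, dif_pos hp, h]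
  cases b <;> simp [bz]

lemma frm_apply' {p : ℕ} (hp : p < n) (z : Fin n → ZMod 2) :
    frm n (some p) z = rhs (some p) (iwn z p) := by
  simp only [frm, dif_pos hp, rhs, LinearMap.proj_apply, iwn]
  exact (bz_decide _).symm

lemma sound (hRl : ∀ q u o v, (q, u, o, v) ∈ Rl →
      (∃ q', o = some q' ∧ stp q u q' v) ∨ (o = none ∧ v = [] ∧ fn q u))
    (z : Fin n → ZMod 2) : ∀ es (i j : ℕ) (σ : NT ⊕ Cfg NT), i ≤ j → j ≤ n →
    (prog n q0 Rl Φ).Walk (.inl (i, j, σ)) es (.inr true) →
    (∀ e ∈ es, (prog n q0 Rl Φ).q e z = (prog n q0 Rl Φ).b e) → Acc stp fn (iwn z) i j σ := by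
  intro es
  induction es with
  | nil =>
    intro i j σ _ _ h _
    have : (Sum.inl (i, j, σ) : Nd NT) = Sum.inr true := h
    simp at this
  | cons e es ih =>
    intro i j σ hij hjn h ht
    obtain ⟨i', j', k⟩ := e
    obtain ⟨h1, h2⟩ := h
    have ht' : ∀ e ∈ es, (prog n q0 Rl Φ).q e z = (prog n q0 Rl Φ).b e :=
      fun e he => ht e (List.mem_cons_of_mem _ he)
    have ht0 := ht (i', j', k) List.mem_cons_self
    rcases k with ⟨⟨q, u, o, v⟩, hr⟩ | ⟨⟨u, o, v⟩, hc⟩
    · simp only [prog, Sum.inl.injEq, Prod.mk.injEq] at h1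
      obtain ⟨rfl, rfl, rfl⟩ := h1
      have h3 := ih i' j' _ hij hjn h2 ht'
      rcases hRl q u o v hr with ⟨q', rfl, hs⟩ | ⟨rfl, rfl, hf⟩
      · obtain ⟨w', hw', hg⟩ := h3
        show Gen stp fn q _
        rw [hw']
        exact Gen.step hs hg
      · have h4 : sub (iwn z) i' (j' - i') = u ++ [] := h3
        show Gen stp fn q _
        rw [h4, List.append_nil]
        exact Gen.fin hf
    · simp only [prog, Sum.inl.injEq, Prod.mk.injEq] at h1
      obtain ⟨rfl, rfl, rfl⟩ := h1
      have h2' : (prog n q0 Rl Φ).Walk (tgt (i' : ℕ) (j' : ℕ) (u, o, v)) es (.inr true) := h2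
      have ht0' : frm n (pos (i' : ℕ) (j' : ℕ) (u, o, v)) z =
        rhs (pos (i' : ℕ) (j' : ℕ) (u, o, v)) (val (u, o, v)) := ht0
      cases u with
      | cons b u =>
        simp only [tgt] at h2'
        by_cases hlt : (i' : ℕ) < j'
        · rw [if_pos hlt] at h2'
          have h3 := ih _ _ _ (by omega) hjn h2' ht'
          have hb : iwn z i' = b := frm_apply n (by omega) z b ht0'
          have hsub : sub (iwn z) i' (j' - i') = b :: sub (iwn z) (i' + 1) (j' - (i' + 1)) := by
            have : (j' : ℕ) - i' = (j' - (i' + 1)) + 1 := by omega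
            rw [this, sub_succ, hb]
          cases o with
          | none =>
            have h4 : sub (iwn z) (i' + 1) (j' - (i' + 1)) = u ++ v := h3
            show sub (iwn z) i' (j' - i') = _
            rw [hsub, h4]; rfl
          | some q' =>
            obtain ⟨w', hw', hg⟩ := h3
            refine ⟨w', ?_, hg⟩
            rw [hsub, hw']; rfl
        · rw [if_neg hlt] at h2'
          exact (dead n q0 Rl Φ es h2').elim
      | nil =>
        cases v with
        | cons b v =>
          simp only [tgt] at h2'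
          by_cases hlt : (i' : ℕ) < j'
          · rw [if_pos hlt] at h2'
            have h3 := ih _ _ _ (by omega) (by omega) h2' ht'
            have hb : iwn z (j' - 1) = (b :: v).getLast (List.cons_ne_nil b v) :=
              frm_apply n (by omega) z _ ht0'
            have hsub : sub (iwn z) i' (j' - i') = sub (iwn z) i' (j' - 1 - i') ++
                [(b :: v).getLast (List.cons_ne_nil b v)] := by
              have e1 : (j' : ℕ) - i' = (j' - 1 - i') + 1 := by omega
              have e2 : (i' : ℕ) + (j' - 1 - i') = j' - 1 := by omega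
              rw [e1, sub_succ', e2, hb]
            have hlast := List.dropLast_append_getLast (List.cons_ne_nil b v)
            cases o with
            | none =>
              have h4 : sub (iwn z) i' (j' - 1 - i') = [] ++ (b :: v).dropLast := h3
              show sub (iwn z) i' (j' - i') = _
              rw [hsub, h4, List.nil_append, hlast, List.nil_append]
            | some q' =>
              obtain ⟨w', hw', hg⟩ := h3
              refine ⟨w', ?_, hg⟩
              rw [hsub, hw', List.append_assoc, hlast]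
          · rw [if_neg hlt] at h2'
            exact (dead n q0 Rl Φ es h2').elim
        | nil =>
          cases o with
          | some q' =>
            have h3 := ih _ _ _ hij hjn h2' ht'
            exact ⟨_, by simp, h3⟩
          | none =>
            simp only [tgt] at h2'
            by_cases heq : (i' : ℕ) = j'
            · show sub (iwn z) i' (j' - i') = _
              rw [heq, Nat.sub_self]
              rfl
            · rw [if_neg heq] at h2'
              exact (dead n q0 Rl Φ es h2').elim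

/-- there is an accepting walk from a node -/
def Run (z : Fin n → ZMod 2) (v : Nd NT) : Prop :=
  ∃ es, (prog n q0 Rl Φ).Walk v es (.inr true) ∧
    ∀ e ∈ es, (prog n q0 Rl Φ).q e z = (prog n q0 Rl Φ).b e

lemma run_cons (z : Fin n → ZMod 2) (e) (h : Run n q0 Rl Φ z ((prog n q0 Rl Φ).dst e))
    (he : (prog n q0 Rl Φ).q e z = (prog n q0 Rl Φ).b e) :
    Run n q0 Rl Φ z ((prog n q0 Rl Φ).src e) := by
  obtain ⟨es, h1, h2⟩ := h
  refine ⟨e :: es, ⟨rfl, h1⟩, ?_⟩
  intro e' he'
  rcases List.mem_cons.1 he' with rfl | h'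
  · exact he
  · exact h2 e' h'

lemma run_cfg (z : Fin n → ZMod 2) (i j : ℕ) (hi : i ≤ n) (hj : j ≤ n) (c : Cfg NT) (hc : c ∈ Φ)
    (h : Run n q0 Rl Φ z (tgt i j c)) (ht : frm n (pos i j c) z = rhs (pos i j c) (val c)) :
    Run n q0 Rl Φ z (.inl (i, j, .inr c)) :=
  run_cons n q0 Rl Φ z (⟨i, by omega⟩, ⟨j, by omega⟩, .inr ⟨c, hc⟩) h ht

lemma run_right (z : Fin n → ZMod 2) (o : Option NT) (L : ℕ) (i : ℕ)
    (hΦ : ∀ v : List Bool, v.length ≤ L → (([] : List Bool), o, v) ∈ Φ) (w' : List Bool)
    (hend : ∀ j, i ≤ j → j ≤ n → sub (iwn z) i (j - i) = w' →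
      Run n q0 Rl Φ z (.inl (i, j, .inr ([], o, [])))) :
    ∀ (v : List Bool) (j : ℕ), v.length ≤ L → i ≤ j → j ≤ n →
      sub (iwn z) i (j - i) = w' ++ v → Run n q0 Rl Φ z (.inl (i, j, .inr ([], o, v))) := by
  intro v
  induction v using List.reverseRecOn with
  | nil =>
    intro j _ hij hj h
    exact hend j hij hj (by simpa using h)
  | append_singleton v b ih =>
    intro j hv hij hj h
    have hlen := congrArg List.length h
    have hl : (sub (iwn z) i (j - i)).length = j - i := by simp [sub]
    rw [hl, List.length_append, List.length_append, List.length_singleton] at hlen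
    have hlt : i < j := by omega
    have e1 : j - i = (j - 1 - i) + 1 := by omega
    have e2 : i + (j - 1 - i) = j - 1 := by omega
    rw [e1, sub_succ', e2, ← List.append_assoc] at h
    have h5 := List.append_inj' h rfl
    have hv' : v.length ≤ L := by
      rw [List.length_append, List.length_singleton] at hv; omega
    have h6 := ih (j - 1) hv' (by omega) (by omega) h5.1
    obtain ⟨a, l, hal⟩ : ∃ a l, v ++ [b] = a :: l := by
      cases v with
      | nil => exact ⟨b, [], rfl⟩
      | cons a l => exact ⟨a, l ++ [b], rfl⟩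
    have hdrop : (a :: l).dropLast = v := by rw [← hal, List.dropLast_concat]
    have hget : (a :: l).getLast (List.cons_ne_nil a l) = b := by
      have : (v ++ [b]).getLast (by simp) = b := List.getLast_append_singleton ..
      simp only [← hal]
      exact this
    rw [hal]
    refine run_cfg n q0 Rl Φ z i j (by omega) hj ([], o, a :: l) (hal ▸ hΦ _ hv) ?_ ?_
    · simp only [tgt, if_pos hlt, hdrop]
      exact h6
    · simp only [pos, val, hget]
      rw [frm_apply' n (by omega) z]
      have h7 : iwn z (j - 1) = b := by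
        have := h5.2
        simpa using this
      rw [h7]

lemma run_left (z : Fin n → ZMod 2) (o : Option NT) (L : ℕ) (v : List Bool)
    (hΦ : ∀ u : List Bool, u.length ≤ L → (u, o, v) ∈ Φ) (w' : List Bool)
    (hend : ∀ i j, i ≤ j → j ≤ n → sub (iwn z) i (j - i) = w' ++ v →
      Run n q0 Rl Φ z (.inl (i, j, .inr ([], o, v)))) :
    ∀ (u : List Bool) (i j : ℕ), u.length ≤ L → i ≤ j → j ≤ n →
      sub (iwn z) i (j - i) = u ++ w' ++ v → Run n q0 Rl Φ z (.inl (i, j, .inr (u, o, v))) := by
  intro u
  induction u with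
  | nil =>
    intro i j _ hij hj h
    exact hend i j hij hj (by simpa using h)
  | cons b u ih =>
    intro i j hu hij hj h
    have hlen := congrArg List.length h
    have hl : (sub (iwn z) i (j - i)).length = j - i := by simp [sub]
    rw [hl] at hlen
    simp only [List.cons_append, List.length_cons] at hlen
    have hlt : i < j := by omega
    have e1 : j - i = (j - (i + 1)) + 1 := by omega
    rw [e1, sub_succ, List.cons_append, List.cons_append, List.cons.injEq] at h
    have h6 := ih (i + 1) j (by simp at hu; omega) (by omega) hj h.2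
    refine run_cfg n q0 Rl Φ z i j (by omega) hj (b :: u, o, v) (hΦ _ hu) ?_ ?_
    · simp only [tgt, if_pos hlt]
      exact h6
    · simp only [pos, val]
      rw [frm_apply' n (by omega) z, h.1]

lemma complete (L : ℕ) (O : Set (Option NT))
    (hRl1 : ∀ q u q' v, stp q u q' v → (q, u, some q', v) ∈ Rl ∧ some q' ∈ O ∧
      u.length ≤ L ∧ v.length ≤ L)
    (hRl2 : ∀ q u, fn q u → (q, u, none, []) ∈ Rl ∧ none ∈ O ∧ u.length ≤ L)
    (hΦ : ∀ (u : List Bool) (o : Option NT) (v : List Bool), u.length ≤ L → v.length ≤ L →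
      o ∈ O → (u, o, v) ∈ Φ)
    (z : Fin n → ZMod 2) (q : NT) (w : List Bool) (h : Gen stp fn q w) :
    ∀ i j, i ≤ j → j ≤ n → sub (iwn z) i (j - i) = w →
      Run n q0 Rl Φ z (.inl (i, j, .inl q)) := by
  induction h with
  | @fin q u hf =>
    intro i j hij hj hw
    obtain ⟨g1, g2, g3⟩ := hRl2 q u hf
    refine run_cons n q0 Rl Φ z (⟨i, by omega⟩, ⟨j, by omega⟩, .inl ⟨_, g1⟩) ?_ ?_
    · show Run n q0 Rl Φ z (.inl (i, j, .inr (u, none, [])))
      refine run_left n q0 Rl Φ z none L [] (fun u' hu' => hΦ u' none [] hu' (by simp) g2) [] ?_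
        u i j g3 hij hj (by rw [hw]; simp)
      intro i' j' hij' hj' hs
      have hlen := congrArg List.length hs
      have hl : (sub (iwn z) i' (j' - i')).length = j' - i' := by simp [sub]
      rw [hl] at hlen
      simp only [List.append_nil, List.length_nil] at hlen
      have heq : i' = j' := by omega
      refine run_cfg n q0 Rl Φ z i' j' (by omega) hj' ([], none, [])
        (hΦ [] none [] (by simp) (by simp) g2) ?_ ?_
      · simp only [tgt, if_pos heq]
        exact ⟨[], rfl, by simp⟩
      · simp only [pos, frm, rhs, LinearMap.zero_apply]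
    · show (0 : Dual (ZMod 2) (Fin n → ZMod 2)) z = 0
      rfl
  | @step q u q' v w hs hg ih =>
    intro i j hij hj hw
    obtain ⟨g1, g2, g3, g4⟩ := hRl1 q u q' v hs
    refine run_cons n q0 Rl Φ z (⟨i, by omega⟩, ⟨j, by omega⟩, .inl ⟨_, g1⟩) ?_ ?_
    · show Run n q0 Rl Φ z (.inl (i, j, .inr (u, some q', v)))
      refine run_left n q0 Rl Φ z (some q') L v
        (fun u' hu' => hΦ u' (some q') v hu' g4 g2) w ?_ u i j g3 hij hj hw
      intro i' j' hij' hj' hs'
      refine run_right n q0 Rl Φ z (some q') L i'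
        (fun v' hv' => hΦ [] (some q') v' (by simp) hv' g2) w ?_ v j' g4 hij' hj' hs'
      intro j'' hij'' hj'' hs''
      refine run_cfg n q0 Rl Φ z i' j'' (by omega) hj'' ([], some q', [])
        (hΦ [] (some q') [] (by simp) (by simp) g2) ?_ ?_
      · simp only [tgt]
        exact ih i' j'' hij'' hj'' hs''
      · simp only [pos, frm, rhs, LinearMap.zero_apply]
    · show (0 : Dual (ZMod 2) (Fin n → ZMod 2)) z = 0
      rfl

/-- forms that vanish on the coordinate vectors of the interval -/
def OutM (n i j : ℕ) : Submodule (ZMod 2) (Dual (ZMod 2) (Fin n → ZMod 2)) where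
  carrier := {φ | ∀ k : Fin n, i ≤ k → (k : ℕ) < j → φ (Pi.single k 1) = 0}
  add_mem' := by
    intro a b ha hb k h1 h2
    rw [LinearMap.add_apply, ha k h1 h2, hb k h1 h2, add_zero]
  zero_mem' := fun k _ _ => rfl
  smul_mem' := by
    intro c a ha k h1 h2
    rw [LinearMap.smul_apply, ha k h1 h2, smul_zero]

/-- forms that vanish on the coordinate vectors outside the interval -/
def InM (n i j : ℕ) : Submodule (ZMod 2) (Dual (ZMod 2) (Fin n → ZMod 2)) where
  carrier := {φ | ∀ k : Fin n, ¬ (i ≤ k ∧ (k : ℕ) < j) → φ (Pi.single k 1) = 0}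
  add_mem' := by
    intro a b ha hb k h1
    rw [LinearMap.add_apply, ha k h1, hb k h1, add_zero]
  zero_mem' := fun k _ => rfl
  smul_mem' := by
    intro c a ha k h1
    rw [LinearMap.smul_apply, ha k h1, smul_zero]

lemma frm_mem_out {i j p : ℕ} (hp : p < i ∨ j ≤ p) : frm n (some p) ∈ OutM n i j := by
  intro k h1 h2
  simp only [frm]
  by_cases h : p < n
  · rw [dif_pos h, LinearMap.proj_apply, Pi.single_apply, if_neg]
    intro h3
    have : p = k := congrArg Fin.val h3
    omega
  · rw [dif_neg h]; rfl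

lemma frm_mem_in {i j p : ℕ} (hp : i ≤ p ∧ p < j) : frm n (some p) ∈ InM n i j := by
  intro k h1
  simp only [frm]
  by_cases h : p < n
  · rw [dif_pos h, LinearMap.proj_apply, Pi.single_apply, if_neg]
    intro h3
    have : p = k := congrArg Fin.val h3
    omega
  · rw [dif_neg h]; rfl

lemma out_mono {i j i' j' : ℕ} (h1 : i ≤ i') (h2 : j' ≤ j) : OutM n i j ≤ OutM n i' j' := by
  intro φ hφ k h3 h4
  exact hφ k (by omega) (by omega)

lemma in_mono {i j i' j' : ℕ} (h1 : i ≤ i') (h2 : j' ≤ j) : InM n i' j' ≤ InM n i j := by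
  intro φ hφ k h3
  exact hφ k (by omega)

/-- one edge of a configuration -/
lemma tgt_cases (i j : ℕ) (c : Cfg NT) : (∃ i' j' σ, tgt i j c = .inl (i', j', σ) ∧ i ≤ i' ∧
      j' ≤ j ∧ frm n (pos i j c) ∈ OutM n i' j' ∧ frm n (pos i j c) ∈ InM n i j) ∨
    (∃ b, tgt i j c = .inr b ∧ (b = true → frm n (pos i j c) = 0)) := by
  obtain ⟨u, o, v⟩ := c
  cases u with
  | cons b u =>
    by_cases hlt : i < j
    · left
      refine ⟨i + 1, j, .inr (u, o, v), ?_, by omega, le_refl _, ?_, ?_⟩
      · simp only [tgt, if_pos hlt]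
      · exact frm_mem_out n (Or.inl (by omega))
      · exact frm_mem_in n ⟨le_refl _, hlt⟩
    · right
      exact ⟨false, by simp only [tgt, if_neg hlt], fun h => by simp at h⟩
  | nil =>
    cases v with
    | cons b v =>
      by_cases hlt : i < j
      · left
        refine ⟨i, j - 1, .inr ([], o, (b :: v).dropLast), ?_, le_refl _, by omega, ?_, ?_⟩
        · simp only [tgt, if_pos hlt]
        · exact frm_mem_out n (Or.inr (le_refl _))
        · exact frm_mem_in n ⟨by omega, by omega⟩
      · right
        exact ⟨false, by simp only [tgt, if_neg hlt], fun h => by simp at h⟩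
    | nil =>
      cases o with
      | some q =>
        left
        exact ⟨i, j, .inl q, rfl, le_refl _, le_refl _, Submodule.zero_mem _,
          Submodule.zero_mem _⟩
      | none =>
        right
        by_cases heq : i = j
        · exact ⟨true, by simp only [tgt, if_pos heq], fun _ => rfl⟩
        · exact ⟨false, by simp only [tgt, if_neg heq], fun h => by simp at h⟩

lemma walk_from_inr (b : Bool) (es) (v : Nd NT)
    (h : (prog n q0 Rl Φ).Walk (.inr b) es v) : es = [] ∧ v = .inr b := by
  cases es with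
  | nil => exact ⟨rfl, h.symm⟩
  | cons e es =>
    obtain ⟨i, j, k⟩ := e
    have h1 := h.1
    rcases k with r | c <;> simp [prog] at h1

lemma pre_out : ∀ es (i j : ℕ) (σ : NT ⊕ Cfg NT) (i' j' : ℕ) (σ' : NT ⊕ Cfg NT),
    (prog n q0 Rl Φ).Walk (.inl (i, j, σ)) es (.inl (i', j', σ')) → i ≤ i' ∧ j' ≤ j ∧
      ∀ e ∈ es, (prog n q0 Rl Φ).q e ∈ OutM n i' j' := by
  intro es
  induction es with
  | nil =>
    intro i j σ i' j' σ' h
    have h1 : (Sum.inl (i, j, σ) : Nd NT) = Sum.inl (i', j', σ') := h
    simp only [Sum.inl.injEq, Prod.mk.injEq] at h1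
    obtain ⟨rfl, rfl, rfl⟩ := h1
    exact ⟨le_refl _, le_refl _, by simp⟩
  | cons e es ih =>
    intro i j σ i' j' σ' h
    obtain ⟨a, b, k⟩ := e
    obtain ⟨h1, h2⟩ := h
    rcases k with r | c
    · simp only [prog, Sum.inl.injEq, Prod.mk.injEq] at h1
      obtain ⟨rfl, rfl, rfl⟩ := h1
      obtain ⟨g1, g2, g3⟩ := ih _ _ _ _ _ _ h2
      refine ⟨g1, g2, ?_⟩
      intro e he
      rcases List.mem_cons.1 he with rfl | he
      · exact Submodule.zero_mem _
      · exact g3 e he
    · simp only [prog, Sum.inl.injEq, Prod.mk.injEq] at h1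
      obtain ⟨rfl, rfl, rfl⟩ := h1
      have h2' : (prog n q0 Rl Φ).Walk (tgt (a : ℕ) (b : ℕ) c.1) es (.inl (i', j', σ')) := h2
      rcases tgt_cases n (a : ℕ) (b : ℕ) c.1 with ⟨i1, j1, σ1, ht, k1, k2, k3, -⟩ | ⟨bb, ht, -⟩
      · rw [ht] at h2'
        obtain ⟨g1, g2, g3⟩ := ih _ _ _ _ _ _ h2'
        refine ⟨by omega, by omega, ?_⟩
        intro e he
        rcases List.mem_cons.1 he with rfl | he
        · exact out_mono n g1 g2 k3
        · exact g3 e he
      · rw [ht] at h2'
        have := (walk_from_inr n q0 Rl Φ bb es _ h2').2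
        simp at this

lemma post_in : ∀ es (i j : ℕ) (σ : NT ⊕ Cfg NT),
    (prog n q0 Rl Φ).Walk (.inl (i, j, σ)) es (.inr true) →
      ∀ e ∈ es, (prog n q0 Rl Φ).q e ∈ InM n i j := by
  intro es
  induction es with
  | nil =>
    intro i j σ h
    simp
  | cons e es ih =>
    intro i j σ h
    obtain ⟨a, b, k⟩ := e
    obtain ⟨h1, h2⟩ := h
    rcases k with r | c
    · simp only [prog, Sum.inl.injEq, Prod.mk.injEq] at h1
      obtain ⟨rfl, rfl, rfl⟩ := h1
      have g3 := ih _ _ _ h2
      intro e he
      rcases List.mem_cons.1 he with rfl | he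
      · exact Submodule.zero_mem _
      · exact g3 e he
    · simp only [prog, Sum.inl.injEq, Prod.mk.injEq] at h1
      obtain ⟨rfl, rfl, rfl⟩ := h1
      have h2' : (prog n q0 Rl Φ).Walk (tgt (a : ℕ) (b : ℕ) c.1) es (.inr true) := h2
      rcases tgt_cases n (a : ℕ) (b : ℕ) c.1 with ⟨i1, j1, σ1, ht, k1, k2, -, k4⟩ | ⟨bb, ht, k5⟩
      · rw [ht] at h2'
        have g3 := ih _ _ _ h2'
        intro e he
        rcases List.mem_cons.1 he with rfl | he
        · exact k4
        · exact in_mono n k1 k2 (g3 e he)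
      · rw [ht] at h2'
        obtain ⟨g1, g2⟩ := walk_from_inr n q0 Rl Φ bb es _ h2'
        subst g1
        have hb : bb = true := by simpa using g2.symm
        intro e he
        rcases List.mem_cons.1 he with rfl | he
        · have : (prog n q0 Rl Φ).q (a, b, Sum.inr c) = 0 := k5 hb
          rw [this]
          exact Submodule.zero_mem _
        · simp at he

lemma readonce (v : Nd NT) (es) (h : (prog n q0 Rl Φ).Walk v es (prog n q0 Rl Φ).t) :
    (prog n q0 Rl Φ).tests es ⊓ (prog n q0 Rl Φ).Pre v = ⊥ := by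
  rcases v with ⟨i, j, σ⟩ | b
  · rw [eq_bot_iff]
    rintro φ ⟨h1, h2⟩
    have h3 : (prog n q0 Rl Φ).tests es ≤ InM n i j := by
      unfold NLBP.tests
      rw [Submodule.span_le]
      rintro φ ⟨e, he, rfl⟩
      exact post_in n q0 Rl Φ es i j σ h e he
    have h4 : (prog n q0 Rl Φ).Pre (.inl (i, j, σ)) ≤ OutM n i j := by
      unfold NLBP.Pre
      rw [Submodule.span_le]
      rintro φ ⟨es', hw, e, he, rfl⟩
      exact (pre_out n q0 Rl Φ es' 0 n (.inl q0) i j σ hw).2.2 e he
    have h5 := h3 h1
    have h6 := h4 h2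
    rw [Submodule.mem_bot]
    apply LinearMap.pi_ext'
    intro k
    ext
    by_cases hk : i ≤ (k : ℕ) ∧ (k : ℕ) < j
    · simpa using h6 k hk.1 hk.2
    · simpa using h5 k hk
  · have h1 := (walk_from_inr n q0 Rl Φ b es _ h).1
    subst h1
    have : (prog n q0 Rl Φ).tests [] = ⊥ := by
      unfold NLBP.tests
      simp
    rw [this, bot_inf_eq]

end

/-- Every linear language has nondeterministic read-once programs of quadratic size. -/
theorem upper (G : ContextFreeGrammar Bool) (hG : IsLinear G) : ∃ C : ℕ, ∀ n : ℕ,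
    ∃ (N E : Type) (_ : Fintype E) (P : NLBP (Fin n → ZMod 2) N E),
      Fintype.card E ≤ C * (n + 1) ^ 2 ∧
      (∀ e, P.q e = 0 ∨ ∃ i, P.q e = LinearMap.proj i) ∧
      (∀ v es, P.Walk v es P.t → P.tests es ⊓ P.Pre v = ⊥) ∧
      ∀ z, P.Accepts z ↔ word z ∈ G.language := by
  classical
  set stp : G.NT → List Bool → G.NT → List Bool → Prop := fun q u q' v => ruleS q u q' v ∈ G.rules
    with hstp
  set fn : G.NT → List Bool → Prop := fun q u => ruleF q u ∈ G.rules with hfn
  -- finiteness
  have hinjS : Function.Injective (fun p : G.NT × List Bool × G.NT × List Bool =>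
      ruleS p.1 p.2.1 p.2.2.1 p.2.2.2) := by
    rintro ⟨q, u, q', v⟩ ⟨p, u1, p', v1⟩ h
    simp only [ruleS, ContextFreeRule.mk.injEq, List.append_assoc, List.singleton_append] at h
    obtain ⟨h1, h2⟩ := h
    obtain ⟨g1, g2, g3⟩ := uniq u1 v1 p' q' (u.map Symbol.terminal) (v.map Symbol.terminal) h2.symm
    have hi : Function.Injective (Symbol.terminal (T := Bool) (N := G.NT)) :=
      fun a b h => by injection h
    rw [h1, g2, List.map_injective_iff.2 hi g1, List.map_injective_iff.2 hi g3]
  have hinjF : Function.Injective (fun p : G.NT × List Bool => ruleF p.1 p.2) := by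
    rintro ⟨q, u⟩ ⟨p, u1⟩ h
    simp only [ruleF, ContextFreeRule.mk.injEq] at h
    have hi : Function.Injective (Symbol.terminal (T := Bool) (N := G.NT)) :=
      fun a b h => by injection h
    rw [h.1, List.map_injective_iff.2 hi h.2]
  have hf1 : {p : G.NT × List Bool × G.NT × List Bool | stp p.1 p.2.1 p.2.2.1 p.2.2.2}.Finite :=
    Set.Finite.preimage hinjS.injOn G.rules.finite_toSet
  have hf2 : {p : G.NT × List Bool | fn p.1 p.2}.Finite :=
    Set.Finite.preimage hinjF.injOn G.rules.finite_toSet
  set Rl : Finset (G.NT × Cfg G.NT) :=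
    hf1.toFinset.image (fun p => (p.1, p.2.1, some p.2.2.1, p.2.2.2)) ∪
      hf2.toFinset.image (fun p => (p.1, p.2, none, [])) with hRldef
  have hRl : ∀ q u o v, (q, u, o, v) ∈ Rl →
      (∃ q', o = some q' ∧ stp q u q' v) ∨ (o = none ∧ v = [] ∧ fn q u) := by
    intro q u o v h
    rw [hRldef, Finset.mem_union, Finset.mem_image, Finset.mem_image] at h
    rcases h with ⟨p, hp, he⟩ | ⟨p, hp, he⟩
    · left
      simp only [Prod.mk.injEq] at he
      obtain ⟨rfl, rfl, rfl, rfl⟩ := he
      exact ⟨_, rfl, by simpa using hp⟩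
    · right
      simp only [Prod.mk.injEq] at he
      obtain ⟨rfl, rfl, rfl, rfl⟩ := he
      exact ⟨rfl, rfl, by simpa using hp⟩
  obtain ⟨L, hL⟩ : ∃ L : ℕ, ∀ c ∈ Rl, c.2.1.length ≤ L ∧ c.2.2.2.length ≤ L := by
    refine ⟨(Rl.sup (fun c => c.2.1.length)) + (Rl.sup (fun c => c.2.2.2.length)), ?_⟩
    intro c hc
    have h1 := Finset.le_sup (f := fun c : G.NT × Cfg G.NT => c.2.1.length) hc
    have h2 := Finset.le_sup (f := fun c : G.NT × Cfg G.NT => c.2.2.2.length) hc
    omega
  set O : Set (Option G.NT) :=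
    (↑(Rl.image (fun c : G.NT × Cfg G.NT => c.2.2.1)) : Set (Option G.NT)) with hO
  have hLf : {l : List Bool | l.length ≤ L}.Finite := List.finite_length_le Bool L
  have hΦf : (({l : List Bool | l.length ≤ L}) ×ˢ (O ×ˢ {l : List Bool | l.length ≤ L}) :
      Set (Cfg G.NT)).Finite := hLf.prod ((Finset.finite_toSet _).prod hLf)
  set Φ : Finset (Cfg G.NT) := hΦf.toFinset with hΦdef
  have hΦ : ∀ (u : List Bool) (o : Option G.NT) (v : List Bool), u.length ≤ L → v.length ≤ L →
      o ∈ O → (u, o, v) ∈ Φ := by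
    intro u o v h1 h2 h3
    rw [hΦdef, Set.Finite.mem_toFinset]
    exact ⟨h1, h3, h2⟩
  have hRl1 : ∀ q u q' v, stp q u q' v → (q, u, some q', v) ∈ Rl ∧ some q' ∈ O ∧
      u.length ≤ L ∧ v.length ≤ L := by
    intro q u q' v h
    have hm : (q, u, some q', v) ∈ Rl := by
      rw [hRldef, Finset.mem_union, Finset.mem_image]
      left
      exact ⟨(q, u, q', v), by simpa using h, rfl⟩
    refine ⟨hm, ?_, (hL _ hm).1, (hL _ hm).2⟩
    rw [hO, Finset.mem_coe, Finset.mem_image]
    exact ⟨_, hm, rfl⟩
  have hRl2 : ∀ q u, fn q u → (q, u, none, []) ∈ Rl ∧ none ∈ O ∧ u.length ≤ L := by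
    intro q u h
    have hm : (q, u, none, []) ∈ Rl := by
      rw [hRldef, Finset.mem_union, Finset.mem_image, Finset.mem_image]
      right
      exact ⟨(q, u), by simpa using h, rfl⟩
    refine ⟨hm, ?_, (hL _ hm).1⟩
    rw [hO, Finset.mem_coe, Finset.mem_image]
    exact ⟨_, hm, rfl⟩
  refine ⟨Rl.card + Φ.card, fun n => ⟨Nd G.NT,
    Fin (n + 1) × Fin (n + 1) × ({x // x ∈ Rl} ⊕ {x // x ∈ Φ}), inferInstance,
    prog n G.initial Rl Φ, ?_, ?_, ?_, ?_⟩⟩
  · rw [Fintype.card_prod, Fintype.card_prod, Fintype.card_sum, Fintype.card_fin,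
      Fintype.card_coe, Fintype.card_coe]
    apply le_of_eq
    ring
  · rintro ⟨i, j, k⟩
    rcases k with r | c
    · left; rfl
    · show frm n (pos (i : ℕ) (j : ℕ) c.1) = 0 ∨ ∃ i', frm n (pos (i : ℕ) (j : ℕ) c.1) = _
      generalize pos (i : ℕ) (j : ℕ) c.1 = o
      cases o with
      | none => left; rfl
      | some p =>
        simp only [frm]
        by_cases h : p < n
        · right; exact ⟨⟨p, h⟩, by rw [dif_pos h]⟩
        · left; rw [dif_neg h]
  · intro v es h
    exact readonce n G.initial Rl Φ v es h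
  · intro z
    rw [lin_iff G hG, word_iwn]
    constructor
    · rintro ⟨es, h1, h2⟩
      have := sound n G.initial Rl Φ stp fn hRl z es 0 n (.inl G.initial) (Nat.zero_le _)
        (le_refl _) h1 h2
      simpa [Acc] using this
    · intro h
      exact complete n G.initial Rl Φ stp fn L O hRl1 hRl2 hΦ z G.initial _ h 0 n (Nat.zero_le _)
        (le_refl _) (by rw [Nat.sub_zero])

end Pool.Agent.H657R4
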