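import Pool.Agent.H657R4.Main
import Pool.Agent.H657R4.UpProg
import Pool.Agent.H657R4.TaskLIN
import Pool.Agent.H657R4.TaskGR1
import Pool.Agent.H657R4.TaskGR2
import Pool.Agent.H657R4.TaskALG1
import Pool.Agent.H657R4.TaskALG2
import Pool.Agent.H657R4.TaskALG3

/-!
# Assembly
-/

set_option autoImplicit false

namespace Pool.Agent.H657R4

open Finset Module Polynomial Pool.Agent.H657R3 Pool.Agent.H540R2

theorem linStm : LinStm := fun _ _ q0 stp fn c h1 h2 =>
  TaskLIN.exists_linear q0 stp fn c h1 h2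

theorem genStm : GenStm := by
  intro K _ kv W m
  constructor
  · intro h hg
    exact TaskGR1.not_gen kv W m hg h
  · intro h
    exact TaskGR2.gen_of_not_good kv W m h

theorem pairsStm (K : Type) [Field K] [Fintype K] [Algebra (ZMod 2) K] : PairsStm K := by
  intro V _ _ _ fX fY fZ U S m h D
  exact TaskALG2.pairs (m := m) ⟨h.inj, h.dU, h.mul, h.sub, h.dS⟩ D

theorem sliceStm (K : Type) [Field K] [Fintype K] [Algebra (ZMod 2) K] : SliceStm K := by
  intro V _ _ _ fX fY fZ U S m h E p τ hτ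
  exact TaskALG3.slice (m := m) ⟨h.inj, h.dU, h.mul, h.sub, h.dS⟩ E p τ hτ
    (TaskALG1.bad_pairs m (2 * τ) hτ)

end Pool.Agent.H657R4
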