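import Pool.Agent.H657R3.Nd4

/-!
# Counting accepted inputs of nondeterministic weakly read-once linear branching programs
-/

set_option autoImplicit false

namespace Pool.Agent.H657R4

open Finset Module Pool.Agent.H657R3 Pool.Agent.H657R3.ND

section piece
variable {V : Type} [AddCommGroup V] [Module (ZMod 2) V] [Fintype V]

lemma piece' (S : Set V) (d k N₁ N₂ : ℕ)
    (h1 : ∀ D : Submodule (ZMod 2) V, finrank (ZMod 2) D = d →
      {s ∈ S | ∃ a ∈ D, a ≠ 0 ∧ s + a ∈ S}.ncard ≤ N₁)
    (h2 : ∀ E' : Submodule (ZMod 2) V, finrank (ZMod 2) E' + d ≤ finrank (ZMod 2) V →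
      ∀ p, {s ∈ S | s + p ∈ E'}.ncard ≤ N₂)
    (W : Submodule (ZMod 2) (Dual (ZMod 2) V))
    (hW : finrank (ZMod 2) W + d = finrank (ZMod 2) V) (X : Set V)
    (hX : ∀ x ∈ X, ∀ a ∈ W.dualCoannihilator, x + a ∈ X) (Q : Finset V) (hQX : ∀ p ∈ Q, p ∈ X)
    (F : V → Submodule (ZMod 2) (Dual (ZMod 2) V))
    (hF : ∀ p ∈ Q, finrank (ZMod 2) ↥(F p ⊓ W) ≤ k)
    (hS : ∀ p ∈ Q, ∀ y ∈ X, (∀ φ ∈ F p, φ y = φ p) → y ∈ S) :
    Q.card ≤ (∑ i ∈ Finset.range (k + 1), (finrank (ZMod 2) V).choose i) * (N₁ + N₂) := by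
  classical
  haveI : FiniteDimensional (ZMod 2) V := Module.Finite.of_finite
  set D := W.dualCoannihilator with hD
  have hDd : finrank (ZMod 2) D = d := by
    have e1 := Subspace.finrank_add_finrank_dualCoannihilator_eq W
    have e2 : finrank (ZMod 2) D = finrank (ZMod 2) W.dualCoannihilator := by rw [hD]
    omega
  have hQS : ∀ p ∈ Q, p ∈ S := fun p hp => hS p hp p (hQX p hp) (fun _ _ => rfl)
  -- the part of `Q` that agrees with `p0` on the common part
  have hpart : ∀ p0 ∈ Q, (Q.filter (fun p => (if (∀ w ∈ F p0 ⊓ W, w p = w p0) then (1 : ZMod 2)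
      else 0) ≠ 0)).card ≤ N₁ + N₂ := by
    intro p0 hp0
    set Q0 := Q.filter (fun p => (if (∀ w ∈ F p0 ⊓ W, w p = w p0) then (1 : ZMod 2)
      else 0) ≠ 0) with hQ0
    have hQ0m : ∀ p ∈ Q0, p ∈ Q ∧ ∀ w ∈ F p0 ⊓ W, w p = w p0 := by
      intro p hp
      simp only [Q0, Finset.mem_filter, ne_eq, ite_eq_right_iff, one_ne_zero, imp_false,
        not_not] at hp
      exact hp
    set E' := (F p0).dualCoannihilator with hE'
    have hyp : ∀ p ∈ Q0, ∃ a ∈ D, p + a + p0 ∈ E' := by
      intro p hp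
      have : p + p0 ∈ E' ⊔ D := by
        rw [hE', hD, ← coann_inf, Submodule.mem_dualCoannihilator]
        intro w hw
        rw [map_add, (hQ0m p hp).2 w hw, ZModModule.add_self]
      obtain ⟨e, he, a, ha, hea⟩ := Submodule.mem_sup.1 this
      refine ⟨a, ha, ?_⟩
      have : p + a + p0 = e := by
        have h3 : p + a + p0 = (p + p0) + a := by abel
        rw [h3, ← hea, add_assoc, ZModModule.add_self, add_zero]
      rw [this]
      exact he
    have hmem : ∀ y ∈ X, y + p0 ∈ E' → y ∈ S := by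
      intro y hy hyE
      refine hS p0 hp0 y hy ?_
      intro φ hφ
      rw [hE', Submodule.mem_dualCoannihilator] at hyE
      have h3 := hyE φ hφ
      rw [map_add] at h3
      have h4 : φ y = - φ p0 := eq_neg_of_add_eq_zero_left h3
      rw [h4, ZModModule.neg_eq_self]
    by_cases hint : D ⊓ E' = ⊥
    · have hEd : finrank (ZMod 2) E' + d ≤ finrank (ZMod 2) V := by
        have h3 := Submodule.finrank_sup_add_finrank_inf_eq E' D
        rw [inf_comm, hint, finrank_bot] at h3
        have h4 := Submodule.finrank_le (E' ⊔ D)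
        omega
      have hcov : (Q0 : Set V) ⊆
          {s ∈ S | ∃ a ∈ D, a ≠ 0 ∧ s + a ∈ S} ∪ {s ∈ S | s + p0 ∈ E'} := by
        intro p hp
        obtain ⟨a, ha, haE⟩ := hyp p hp
        by_cases ha0 : a = 0
        · right
          refine ⟨hQS p (hQ0m p hp).1, ?_⟩
          rw [ha0, add_zero] at haE
          exact haE
        · left
          exact ⟨hQS p (hQ0m p hp).1, a, ha, ha0,
            hmem _ (hX p (hQX p (hQ0m p hp).1) a ha) haE⟩
      have h5 := (Set.ncard_le_ncard hcov (Set.toFinite _)).trans (Set.ncard_union_le _ _)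
      rw [Set.ncard_coe_finset] at h5
      have h6 := h1 D hDd
      have h7 := h2 E' hEd p0
      omega
    · obtain ⟨u, hu, hu0⟩ := Submodule.exists_mem_ne_zero_of_ne_bot hint
      have hcov : (Q0 : Set V) ⊆ {s ∈ S | ∃ a ∈ D, a ≠ 0 ∧ s + a ∈ S} := by
        intro p hp
        obtain ⟨a, ha, haE⟩ := hyp p hp
        by_cases ha0 : a = 0
        · refine ⟨hQS p (hQ0m p hp).1, u, hu.1, hu0,
            hmem _ (hX p (hQX p (hQ0m p hp).1) u hu.1) ?_⟩
          rw [ha0, add_zero] at haE
          have : p + u + p0 = (p + p0) + u := by abel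
          rw [this]
          exact E'.add_mem haE hu.2
        · exact ⟨hQS p (hQ0m p hp).1, a, ha, ha0,
            hmem _ (hX p (hQX p (hQ0m p hp).1) a ha) haE⟩
      have h5 := Set.ncard_le_ncard hcov (Set.toFinite _)
      rw [Set.ncard_coe_finset] at h5
      have h6 := h1 D hDd
      omega
  -- the covering lemma
  let β := Module.finBasis (ZMod 2) V
  obtain ⟨hfd, hfr⟩ := pol_finrank β k
  have hQc : (Q.card : ℝ) ≤ finrank (ZMod 2) (Pol β k) * ((N₁ + N₂ : ℕ) : ℝ) := by
    refine cover_lemma Q id (fun c z => if (∀ w ∈ F c ⊓ W, w z = w c) then 1 else 0) ?_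
      (Pol β k) ?_ _ (by positivity) ?_
    · intro c _
      simp
    · intro c hc
      exact indicator_mem_pol β _ k (hF c hc) c
    · intro c hc
      exact_mod_cast hpart c hc
  have hQn : Q.card ≤ finrank (ZMod 2) (Pol β k) * (N₁ + N₂) := by exact_mod_cast hQc
  exact hQn.trans (Nat.mul_le_mul_right _ hfr)

end piece

section final
variable {V N E : Type} [AddCommGroup V] [Module (ZMod 2) V] [Fintype V]

lemma cut_piece' (P : NLBP V N E) (S : Set V) (d k N₁ N₂ : ℕ) (hd : d ≤ finrank (ZMod 2) V)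
    (h1 : ∀ D : Submodule (ZMod 2) V, finrank (ZMod 2) D = d →
      {s ∈ S | ∃ a ∈ D, a ≠ 0 ∧ s + a ∈ S}.ncard ≤ N₁)
    (h2 : ∀ E' : Submodule (ZMod 2) V, finrank (ZMod 2) E' + d ≤ finrank (ZMod 2) V →
      ∀ p, {s ∈ S | s + p ∈ E'}.ncard ≤ N₂)
    (v : N)
    (W0 : Submodule (ZMod 2) (Dual (ZMod 2) V))
    (hW0 : finrank (ZMod 2) W0 + d ≤ finrank (ZMod 2) V) (hWv : W0 ≤ P.Pre v) (hv : Pool.Agent.H657R3.ND.Short P d v)
    (hre : finrank (ZMod 2) V ≤ finrank (ZMod 2) (P.Pre v) + d →
      ∀ es, P.Walk v es P.t → finrank (ZMod 2) ↥(P.tests es ⊓ P.Pre v) ≤ k)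
    (X : Set V) (hX : ∀ x ∈ X, ∀ a ∈ W0.dualCoannihilator, x + a ∈ X)
    (hXacc : ∀ y ∈ X, ∀ es, P.Walk v es P.t → (∀ e ∈ es, P.q e y = P.b e) → P.Accepts y)
    (hacc : ∀ z : V, P.Accepts z → z ∈ S)
    (Q : Finset V) (hQX : ∀ p ∈ Q, p ∈ X)
    (hQ : ∀ p ∈ Q, ∃ es, P.Walk v es P.t ∧ ∀ e ∈ es, P.q e p = P.b e) :
    Q.card ≤ (∑ i ∈ Finset.range (k + 1), (finrank (ZMod 2) V).choose i) * (N₁ + N₂) := by
  classical
  haveI : FiniteDimensional (ZMod 2) V := Module.Finite.of_finite
  have hdual : finrank (ZMod 2) (Dual (ZMod 2) V) = finrank (ZMod 2) V :=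
    Subspace.dual_finrank_eq
  by_cases hvt : v = P.t
  · -- the accepting node
    obtain ⟨W, hW1, -, hW3⟩ := exists_between' (finrank (ZMod 2) V - d)
      (finrank (ZMod 2) V - d - finrank (ZMod 2) W0) W0 ⊤
      le_top (by omega) (by rw [finrank_top, hdual]; omega)
    refine piece' S d k N₁ N₂ h1 h2 W (by rw [hW3]; omega) X ?_ Q hQX (fun _ => ⊥) ?_ ?_
    · intro x hx a ha
      exact hX x hx a (Submodule.dualCoannihilator_anti hW1 ha)
    · intro p _
      rw [bot_inf_eq, finrank_bot]; omega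
    · intro p _ y hy _
      exact hacc _ (hXacc y hy [] hvt (by simp))
  · have hv' : finrank (ZMod 2) V ≤ finrank (ZMod 2) (P.Pre v) + d := by
      rcases hv with h' | h'
      · exact absurd h' hvt
      · exact h'
    obtain ⟨W, hW1, hW2, hW3⟩ := exists_between' (finrank (ZMod 2) V - d)
      (finrank (ZMod 2) V - d - finrank (ZMod 2) W0) W0
      (P.Pre v) hWv (by omega) (by omega)
    let F : V → Submodule (ZMod 2) (Dual (ZMod 2) V) := fun p =>
      if hp : ∃ es, P.Walk v es P.t ∧ ∀ e ∈ es, P.q e p = P.b e then P.tests hp.choose else ⊥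
    refine piece' S d k N₁ N₂ h1 h2 W (by rw [hW3]; omega) X ?_ Q hQX F ?_ ?_
    · intro x hx a ha
      exact hX x hx a (Submodule.dualCoannihilator_anti hW1 ha)
    · intro p hp
      have hex := hQ p hp
      have hFp : F p = P.tests hex.choose := by simp only [F, dif_pos hex]
      rw [hFp]
      refine le_trans (Submodule.finrank_mono ?_) (hre hv' _ hex.choose_spec.1)
      exact inf_le_inf_left _ hW2
    · intro p hp y hy hφ
      have hex := hQ p hp
      simp only [F, dif_pos hex] at hφ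
      apply hacc
      apply hXacc y hy hex.choose hex.choose_spec.1
      intro e he
      rw [← hex.choose_spec.2 e he]
      exact hφ (P.q e) (Submodule.subset_span ⟨e, he, rfl⟩)

theorem count [Fintype E]
    (P : NLBP V N E) (S : Set V) (d k N₁ N₂ : ℕ) (hd : d ≤ finrank (ZMod 2) V)
    (hre : ∀ v, P.Crossing d v → ∀ es, P.Walk v es P.t →
      finrank (ZMod 2) ↥(P.tests es ⊓ P.Pre v) ≤ k)
    (hacc : ∀ z, P.Accepts z → z ∈ S)
    (h1 : ∀ D : Submodule (ZMod 2) V, finrank (ZMod 2) D = d →
      {s ∈ S | ∃ a ∈ D, a ≠ 0 ∧ s + a ∈ S}.ncard ≤ N₁)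
    (h2 : ∀ E' : Submodule (ZMod 2) V, finrank (ZMod 2) E' + d ≤ finrank (ZMod 2) V →
      ∀ p, {s ∈ S | s + p ∈ E'}.ncard ≤ N₂) :
    {z | P.Accepts z}.ncard ≤ (Fintype.card E + 1) *
      ((∑ i ∈ Finset.range (k + 1), (finrank (ZMod 2) V).choose i) * (N₁ + N₂)) := by
  classical
  haveI : FiniteDimensional (ZMod 2) V := Module.Finite.of_finite
  let A : Finset V := Finset.univ.filter (fun z => P.Accepts z)
  have hB : {z : V | P.Accepts z}.ncard = A.card := by
    rw [Set.ncard_eq_toFinset_card']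
    congr 1
    ext z
    simp [A]
  have hA : ∀ z ∈ A, P.Accepts z := fun z hz => by simpa [A] using hz
  rw [hB]
  set C : ℕ := (∑ i ∈ Finset.range (k + 1), (finrank (ZMod 2) V).choose i) * (N₁ + N₂) with hC
  let cond : Option E → V → Prop := fun c z => match c with
    | none => Pool.Agent.H657R3.ND.Short P d P.s ∧ ∃ es, P.Walk P.s es P.t ∧ ∀ e ∈ es, P.q e z = P.b e
    | some e => (¬ Pool.Agent.H657R3.ND.Short P d (P.src e) ∧ Pool.Agent.H657R3.ND.Short P d (P.dst e)) ∧
        (∃ es, P.Walk P.s es (P.src e) ∧ (∀ e' ∈ es, P.q e' z = P.b e') ∧ P.q e z = P.b e) ∧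
        ∃ es, P.Walk (P.dst e) es P.t ∧ ∀ e' ∈ es, P.q e' z = P.b e'
  have hcover : A ⊆ (Finset.univ : Finset (Option E)).biUnion
      (fun c => Finset.univ.filter (fun z => cond c z)) := by
    intro z hz
    obtain ⟨es, hes, hus⟩ := hA z hz
    obtain ⟨es0, es1, v, h1, h2, h3, h4, h5⟩ := first_short P d es P.s hes
    subst h1
    simp only [Finset.mem_biUnion, Finset.mem_univ, true_and, Finset.mem_filter]
    rcases h5 with h5 | ⟨es0', e, h5, h6⟩
    · subst h5
      have hv : P.s = v := h2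
      subst hv
      exact ⟨none, h4, es1, h3, fun e he => hus e (by simpa using he)⟩
    · subst h5
      obtain ⟨g1, g2⟩ := walk_concat P es0' e _ _ h2
      subst g2
      refine ⟨some e, ⟨h6, h4⟩, ⟨es0', g1, fun e' he' => hus e' (by simp [he']),
        hus e (by simp)⟩, es1, h3, fun e' he' => hus e' (by simp [he'])⟩
  have hempty : ∀ (p : V → Prop) (dp : DecidablePred p), (∀ z, ¬ p z) →
      (@Finset.filter _ p dp Finset.univ).card ≤ C := by
    intro p dp hp
    have : @Finset.filter _ p dp Finset.univ = ∅ := by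
      apply Finset.filter_false_of_mem
      intro z _
      exact hp z
    rw [this]
    simp
  have hpiece : ∀ c : Option E,
      (Finset.univ.filter (fun z => cond c z)).card ≤ C := by
    intro c
    rcases c with _ | e
    · by_cases hs : Pool.Agent.H657R3.ND.Short P d P.s
      · refine cut_piece' P S d k N₁ N₂ hd h1 h2 P.s ⊥ (by rw [finrank_bot]; omega) bot_le hs ?_
          Set.univ (fun _ _ _ _ => Set.mem_univ _) ?_ hacc _ (fun _ _ => Set.mem_univ _) ?_
        · intro hd' es hes
          exact hre P.s ⟨hd', Or.inl rfl⟩ es hes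
        · intro y _ es hes hu
          exact ⟨es, hes, hu⟩
        · intro p hp
          simp only [Finset.mem_filter, Finset.mem_univ, true_and, cond] at hp
          exact hp.2
      · exact hempty _ _ (fun z hz => hs hz.1)
    · by_cases hs : (¬ Pool.Agent.H657R3.ND.Short P d (P.src e) ∧ Pool.Agent.H657R3.ND.Short P d (P.dst e)) ∧
          ∃ es, P.Walk P.s es (P.src e)
      · obtain ⟨⟨hs1, hs2⟩, esr, hesr⟩ := hs
        have hlt : finrank (ZMod 2) (P.Pre (P.src e)) + d < finrank (ZMod 2) V := by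
          unfold Pool.Agent.H657R3.ND.Short at hs1
          push Not at hs1
          exact hs1.2
        refine cut_piece' P S d k N₁ N₂ hd h1 h2 (P.dst e)
          (P.Pre (P.src e) ⊔ Submodule.span (ZMod 2) {P.q e}) ?_ ?_ hs2 ?_
          {z | ∃ es, P.Walk P.s es (P.src e) ∧ (∀ e' ∈ es, P.q e' z = P.b e') ∧ P.q e z = P.b e}
          ?_ ?_ hacc _ ?_ ?_
        · have g2 := Submodule.finrank_add_le_finrank_add_finrank (P.Pre (P.src e))
            (Submodule.span (ZMod 2) {P.q e})
          have g3 : finrank (ZMod 2) ↥(Submodule.span (ZMod 2) {P.q e}) ≤ 1 :=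
            (finrank_span_le_card ({P.q e} : Set (Dual (ZMod 2) V))).trans (by simp)
          omega
        · apply sup_le (pre_le P e)
          rw [Submodule.span_singleton_le_iff_mem]
          exact q_mem P e esr hesr
        · intro hd' es hes
          exact hre (P.dst e) ⟨hd', Or.inr ⟨e, esr, hesr, rfl, hlt⟩⟩ es hes
        · rintro x ⟨es, g1, g2, g3⟩ a ha
          rw [Submodule.mem_dualCoannihilator] at ha
          refine ⟨es, g1, ?_, ?_⟩
          · intro e' he'
            have : P.q e' a = 0 := ha _ (Submodule.mem_sup_left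
              (Submodule.subset_span ⟨es, g1, e', he', rfl⟩))
            rw [map_add, this, add_zero]
            exact g2 e' he'
          · have : P.q e a = 0 := ha _ (Submodule.mem_sup_right
              (Submodule.mem_span_singleton_self _))
            rw [map_add, this, add_zero]
            exact g3
        · rintro y ⟨es, g1, g2, g3⟩ es' g4 g5
          refine ⟨es ++ (e :: es'), walk_append P _ _ _ _ _ g1 ⟨rfl, g4⟩, ?_⟩
          intro e' he'
          rw [List.mem_append, List.mem_cons] at he'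
          rcases he' with h' | h' | h'
          · exact g2 e' h'
          · rw [h']; exact g3
          · exact g5 e' h'
        · intro p hp
          simp only [Finset.mem_filter, Finset.mem_univ, true_and, cond] at hp
          exact hp.2.1
        · intro p hp
          simp only [Finset.mem_filter, Finset.mem_univ, true_and, cond] at hp
          exact hp.2.2
      · refine hempty _ _ (fun z hz => hs ?_)
        obtain ⟨h1, ⟨es, h2, _⟩, _⟩ := hz
        exact ⟨h1, es, h2⟩
  have hcard : A.card ≤ ∑ c : Option E,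
      (Finset.univ.filter (fun z => cond c z)).card :=
    (Finset.card_le_card hcover).trans Finset.card_biUnion_le
  refine hcard.trans ((Finset.sum_le_sum (fun c _ => hpiece c)).trans ?_)
  rw [Finset.sum_const, Finset.card_univ, Fintype.card_option, smul_eq_mul]

end final

end Pool.Agent.H657R4
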