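import Pool.Agent.H657R4.Vec
import Pool.Agent.H657R4.Prog

/-!
# The bound, from the statements on the grammar and on the graph of multiplication
-/

set_option autoImplicit false

namespace Pool.Agent.H657R4

open Finset Module Polynomial Pool.Agent.H657R3 Pool.Agent.H540R2

section
variable {K : Type} [Field K] [Fintype K] [Algebra (ZMod 2) K]
  (e : (ZMod 2 × ZMod 2) ≃ₗ[ZMod 2] K)

/-- the statement of `pairs` -/
def PairsStm (K : Type) [Field K] [Fintype K] [Algebra (ZMod 2) K] : Prop :=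
  ∀ (V : Type) [AddCommGroup V] [Module (ZMod 2) V] [Fintype V]
  (fX fY fZ : V →ₗ[ZMod 2] K[X]) (U : Submodule (ZMod 2) V) (S : Set V) (m : ℕ),
  Mul fX fY fZ U S m → ∀ (D : Submodule (ZMod 2) V),
    {s ∈ S | ∃ a ∈ D, a ≠ 0 ∧ s + a ∈ S}.ncard ≤ Nat.card D * Fintype.card K ^ m

/-- the statement of `slice` -/
def SliceStm (K : Type) [Field K] [Fintype K] [Algebra (ZMod 2) K] : Prop :=
  ∀ (V : Type) [AddCommGroup V] [Module (ZMod 2) V] [Fintype V]
  (fX fY fZ : V →ₗ[ZMod 2] K[X]) (U : Submodule (ZMod 2) V) (S : Set V) (m : ℕ),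
  Mul fX fY fZ U S m → ∀ (E : Submodule (ZMod 2) V) (p : V) (τ : ℕ), 2 * τ ≤ m →
    Fintype.card K ^ τ * {s ∈ S | s + p ∈ E}.ncard ≤
      (2 * Fintype.card K + 1) * Fintype.card K ^ (2 * m) ∨
    Fintype.card K ^ (2 * m) * {s ∈ S | s + p ∈ E}.ncard ≤
      Fintype.card K ^ (6 * τ) * Nat.card E

lemma natcard_sub {V : Type} [AddCommGroup V] [Module (ZMod 2) V] [Fintype V]
    (D : Submodule (ZMod 2) V) : Nat.card D = 2 ^ finrank (ZMod 2) D := by
  classical
  haveI : FiniteDimensional (ZMod 2) V := Module.Finite.of_finite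
  rw [Nat.card_eq_fintype_card, Module.card_eq_pow_finrank (K := ZMod 2) (V := D), ZMod.card]

theorem main_bound (hp : PairsStm K) (hs : SliceStm K) (hK : Fintype.card K = 4) (m τ k : ℕ)
    (hτ : 16 * τ < m) {N E : Type} [Fintype E] (P : NLBP (Vm m) N E)
    (hre : ∀ v, P.Crossing (2 * m - 2 * τ) v → ∀ es, P.Walk v es P.t →
      finrank (ZMod 2) ↥(P.tests es ⊓ P.Pre v) ≤ k)
    (hacc : ∀ z, P.Accepts z → z ∈ Sm e m) :
    {z | P.Accepts z}.ncard * 4 ^ τ ≤ 10 * (Fintype.card E + 1) *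
      (∑ i ∈ range (k + 1), (9 * m + 1).choose i) * 16 ^ m := by
  classical
  have hV : finrank (ZMod 2) (Vm m) = 9 * m + 1 := by
    rw [Module.finrank_fintype_fun_eq_card, Fintype.card_fin]
  have hmul := mul_Sm e m
  have e4 : ∀ k : ℕ, (4 : ℕ) ^ k = 2 ^ (2 * k) := fun k => by
    rw [pow_mul]; norm_num
  have e16 : ∀ k : ℕ, (16 : ℕ) ^ k = 2 ^ (4 * k) := fun k => by
    rw [pow_mul]; norm_num
  have key := count P (Sm e m) (2 * m - 2 * τ) k (2 ^ (4 * m - 2 * τ)) (9 * 2 ^ (4 * m - 2 * τ))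
    (by rw [hV]; omega) hre hacc
    (by
      intro D hD
      refine (hp (Vm m) _ _ _ _ _ m hmul D).trans ?_
      rw [natcard_sub, hD, hK, e4, ← pow_add]
      exact Nat.pow_le_pow_right (by norm_num) (by omega))
    (by
      intro E' hE' p
      rcases hs (Vm m) _ _ _ _ _ m hmul E' p τ (by omega) with h | h
      · rw [hK] at h
        norm_num at h
        rw [e4, e4] at h
        have e1 : 2 ^ (2 * (2 * m)) = 2 ^ (2 * τ) * 2 ^ (4 * m - 2 * τ) := by
          rw [← pow_add]
          congr 1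
          omega
        rw [e1] at h
        have h2 : 2 ^ (2 * τ) * {s ∈ Sm e m | s + p ∈ E'}.ncard ≤
            2 ^ (2 * τ) * (9 * 2 ^ (4 * m - 2 * τ)) := by
          refine h.trans (le_of_eq ?_)
          ring
        exact Nat.le_of_mul_le_mul_left h2 (by positivity)
      · rw [hK, natcard_sub] at h
        rw [hV] at hE'
        rw [e4, e4, ← pow_add] at h
        have h3 : 2 ^ (2 * (2 * m)) * {s ∈ Sm e m | s + p ∈ E'}.ncard ≤
            2 ^ (2 * (2 * m)) * 2 ^ (4 * m - 2 * τ) := by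
          refine h.trans ?_
          rw [← pow_add]
          exact Nat.pow_le_pow_right (by norm_num) (by omega)
        have h4 := Nat.le_of_mul_le_mul_left h3 (by positivity)
        omega)
  rw [hV] at key
  have e3 : (16 : ℕ) ^ m = 2 ^ (4 * m - 2 * τ) * 4 ^ τ := by
    rw [e16, e4, ← pow_add]
    congr 1
    omega
  calc {z | P.Accepts z}.ncard * 4 ^ τ
      ≤ ((Fintype.card E + 1) * ((∑ i ∈ range (k + 1), (9 * m + 1).choose i) *
        (2 ^ (4 * m - 2 * τ) + 9 * 2 ^ (4 * m - 2 * τ)))) *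
        4 ^ τ := Nat.mul_le_mul_right _ key
    _ = 10 * (Fintype.card E + 1) *
      (∑ i ∈ range (k + 1), (9 * m + 1).choose i) * 16 ^ m := by rw [e3]; ring

end

/-- the statement of `gen_iff` -/
def GenStm : Prop := ∀ (K : Type) [Field K] (kv : Bool → Bool → K) (W : ℕ → Bool) (m : ℕ),
    Gen (Stp kv) (Fn kv) .S (sub W 0 (9 * m + 1)) ↔ ¬ Good kv W m

/-- the statement of `exists_linear` -/
def LinStm : Prop := ∀ (St : Type) [Finite St] (q0 : St)
    (stp : St → List Bool → St → List Bool → Prop) (fn : St → List Bool → Prop) (c : ℕ),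
    (∀ q u q' v, stp q u q' v → u.length ≤ c ∧ v.length ≤ c) →
    (∀ q u, fn q u → u.length ≤ c) →
    ∃ G : ContextFreeGrammar Bool, IsLinear G ∧ ∀ w, w ∈ G.language ↔ Gen stp fn q0 w

lemma finite_St (K : Type) [Finite K] : Finite (St K) := by
  let f : St K → (Fin 9 × Option K) := fun q => match q with
    | .S => (0, none)
    | .A => (1, none)
    | .T => (2, none)
    | .L => (3, none)
    | .F => (4, none)
    | .H => (5, none)
    | .C s => (6, some s)
    | .Q s => (7, some s)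
    | .M s => (8, some s)
  refine Finite.of_injective f ?_
  intro q q' h
  cases q <;> cases q' <;> simp_all [f]

theorem exists_field : ∃ (K : Type) (_ : Field K) (_ : Fintype K) (_ : Algebra (ZMod 2) K),
    Fintype.card K = 4 ∧ Nonempty ((ZMod 2 × ZMod 2) ≃ₗ[ZMod 2] K) := by
  classical
  haveI : Fact (Nat.Prime 2) := ⟨Nat.prime_two⟩
  haveI : Finite (GaloisField 2 2) := Module.finite_of_finite (ZMod 2)
  letI : Fintype (GaloisField 2 2) := Fintype.ofFinite _
  refine ⟨GaloisField 2 2, inferInstance, inferInstance, inferInstance, ?_, ?_⟩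
  · rw [← Nat.card_eq_fintype_card, GaloisField.card 2 2 (by norm_num)]
    norm_num
  · refine ⟨LinearEquiv.ofFinrankEq _ _ ?_⟩
    rw [Module.finrank_prod, Module.finrank_self, GaloisField.finrank 2 (by norm_num)]

theorem main (hl : LinStm) (hg : GenStm)
    (hp : ∀ (K : Type) [Field K] [Fintype K] [Algebra (ZMod 2) K], PairsStm K)
    (hs : ∀ (K : Type) [Field K] [Fintype K] [Algebra (ZMod 2) K], SliceStm K) :
    ∃ G : ContextFreeGrammar Bool, IsLinear G ∧ ∀ m : ℕ,
      {z : Fin (9 * m + 1) → ZMod 2 | word z ∉ G.language}.ncard = 16 ^ m ∧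
      ∀ (τ k : ℕ), 16 * τ < m → ∀ (N E : Type) [Fintype E]
        (P : NLBP (Fin (9 * m + 1) → ZMod 2) N E),
        (∀ v, P.Crossing (2 * m - 2 * τ) v → ∀ es, P.Walk v es P.t →
          finrank (ZMod 2) ↥(P.tests es ⊓ P.Pre v) ≤ k) →
        (∀ z, P.Accepts z → word z ∉ G.language) →
        {z | P.Accepts z}.ncard * 4 ^ τ ≤ 10 * (Fintype.card E + 1) *
          (∑ i ∈ range (k + 1), (9 * m + 1).choose i) * 16 ^ m := by
  classical
  obtain ⟨K, _, _, _, hK, ⟨e⟩⟩ := exists_field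
  haveI := finite_St K
  obtain ⟨G, hG, hGl⟩ := hl (St K) St.S (Stp (kvf e)) (Fn (kvf e)) 6
    (by
      intro q u q' v h
      cases h <;> simp)
    (by
      intro q u h
      cases h <;> simp)
  have hset : ∀ m (z : Vm m), word z ∉ G.language ↔ z ∈ Sm e m := by
    intro m z
    rw [hGl, word_eq, hg K (kvf e) (iw m z) m, not_not, good_iff]
  refine ⟨G, hG, fun m => ⟨?_, ?_⟩⟩
  · have : {z : Fin (9 * m + 1) → ZMod 2 | word z ∉ G.language} = Sm e m := by
      ext z
      exact hset m z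
    rw [this, card_Sm e hK]
  · intro τ k hτ N E _ P hre hacc
    exact main_bound e (hp K) (hs K) hK m τ k hτ P hre (fun z hz => (hset m z).1 (hacc z hz))

end Pool.Agent.H657R4
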