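import Pool.Agent.H657R4.Defs

set_option autoImplicit false

namespace Pool.Agent.H657R4.Stubs

open Finset Module Polynomial Pool.Agent.H657R3 Pool.Agent.H540R2 Pool.Agent.H657R4

/-- TASK LIN -/
theorem exists_linear {St : Type} [Finite St] (q0 : St)
    (stp : St → List Bool → St → List Bool → Prop) (fn : St → List Bool → Prop) (c : ℕ)
    (h1 : ∀ q u q' v, stp q u q' v → u.length ≤ c ∧ v.length ≤ c)
    (h2 : ∀ q u, fn q u → u.length ≤ c) :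
    ∃ G : ContextFreeGrammar Bool, IsLinear G ∧ ∀ w, w ∈ G.language ↔ Gen stp fn q0 w := by
  sorry

/-- TASK GR -/
theorem gen_iff {K : Type} [Field K] (kv : Bool → Bool → K) (W : ℕ → Bool) (m : ℕ) :
    Gen (Stp kv) (Fn kv) .S (sub W 0 (9 * m + 1)) ↔ ¬ Good kv W m := by
  sorry

/-- TASK ALG1 -/
theorem bad_pairs {K : Type} [Field K] [Fintype K] (m t : ℕ) (ht : t ≤ m) :
    ∃ Bad : Finset (K[X] × K[X]), Bad.card ≤ Fintype.card K ^ (2 * m - t + 2) ∧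
      ∀ w₁ w₂ : K[X], w₁ ≠ 0 → w₂ ≠ 0 → w₁.degree < m → w₂.degree < m → (w₁, w₂) ∉ Bad →
        {a : K[X] × K[X] | a.1.degree < m ∧ a.2.degree < m ∧ a.1 * w₁ = a.2 * w₂}.Finite ∧
        {a : K[X] × K[X] | a.1.degree < m ∧ a.2.degree < m ∧ a.1 * w₁ = a.2 * w₂}.ncard ≤
          Fintype.card K ^ t := by
  sorry

section
variable {K : Type} [Field K] [Fintype K] [Algebra (ZMod 2) K]
  {V : Type} [AddCommGroup V] [Module (ZMod 2) V] [Fintype V]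
  (fX fY fZ : V →ₗ[ZMod 2] K[X]) (U : Submodule (ZMod 2) V) (S : Set V) (m : ℕ)

/-- hypotheses on the set `S` (the graph of polynomial multiplication) -/
structure Mul : Prop where
  inj : ∀ u ∈ U, fX u = 0 → fY u = 0 → fZ u = 0 → u = 0
  dU : ∀ u ∈ U, (fX u).degree < m ∧ (fY u).degree < m
  mul : ∀ s ∈ S, fZ s = fX s * fY s
  sub : ∀ s ∈ S, ∀ s' ∈ S, s + s' ∈ U
  dS : ∀ s ∈ S, (fX s).degree < m ∧ (fY s).degree < m

variable {fX fY fZ U S m}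

/-- TASK ALG2 -/
theorem pairs (h : Mul fX fY fZ U S m) (D : Submodule (ZMod 2) V) :
    {s ∈ S | ∃ a ∈ D, a ≠ 0 ∧ s + a ∈ S}.ncard ≤ Nat.card D * Fintype.card K ^ m := by
  sorry

/-- TASK ALG3 (may use ALG1) -/
theorem slice (h : Mul fX fY fZ U S m) (E : Submodule (ZMod 2) V) (p : V) (τ : ℕ)
    (hτ : 2 * τ ≤ m) :
    Fintype.card K ^ τ * {s ∈ S | s + p ∈ E}.ncard ≤
      (2 * Fintype.card K + 1) * Fintype.card K ^ (2 * m) ∨
    Fintype.card K ^ (2 * m) * {s ∈ S | s + p ∈ E}.ncard ≤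
      Fintype.card K ^ (6 * τ) * Nat.card E := by
  sorry

end

/-- TASK PROG (helper657) -/
theorem count {V N E : Type} [AddCommGroup V] [Module (ZMod 2) V] [Fintype V] [Fintype E]
    (P : NLBP V N E) (S : Set V) (d N₁ N₂ : ℕ) (hd : d ≤ finrank (ZMod 2) V)
    (hre : ∀ v es, P.Walk v es P.t → P.tests es ⊓ P.Pre v = ⊥)
    (hacc : ∀ z, P.Accepts z → z ∈ S)
    (h1 : ∀ D : Submodule (ZMod 2) V, finrank (ZMod 2) D = d →
      {s ∈ S | ∃ a ∈ D, a ≠ 0 ∧ s + a ∈ S}.ncard ≤ N₁)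
    (h2 : ∀ E' : Submodule (ZMod 2) V, finrank (ZMod 2) E' + d = finrank (ZMod 2) V →
      ∀ p, {s ∈ S | s + p ∈ E'}.ncard ≤ N₂) :
    {z | P.Accepts z}.ncard ≤ (Fintype.card E + 1) * (N₁ + N₂) := by
  sorry

end Pool.Agent.H657R4.Stubs
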