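import Pool.Agent.H657R4.TaskLIN

/-!
# Linear grammars and the relation `Gen`
-/

set_option autoImplicit false

namespace Pool.Agent.H657R4

open Pool.Agent.H540R2 Pool.Agent.H657R4.TaskLIN

theorem lin_iff (G : ContextFreeGrammar Bool) (hG : IsLinear G) (w : List Bool) :
    w ∈ G.language ↔ Gen (fun q u q' v => ruleS q u q' v ∈ G.rules)
      (fun q u => ruleF q u ∈ G.rules) G.initial w := by
  obtain ⟨St, q0, R⟩ := G
  have hR : ∀ r, r ∈ R ↔ r ∈ Rules (fun q u q' v => ruleS q u q' v ∈ R)
      (fun q u => ruleF q u ∈ R) := by
    intro r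
    constructor
    · intro hr
      rcases hG r hr with ⟨u, v, B, h⟩ | ⟨u, h⟩
      · refine Or.inl ⟨r.input, u, B, v, ?_, ?_⟩
        · show ruleS r.input u B v ∈ R
          have : ruleS r.input u B v = r := by
            cases r; simp only at h; subst h; rfl
          rw [this]; exact hr
        · cases r; simp only at h; subst h; rfl
      · refine Or.inr ⟨r.input, u, ?_, ?_⟩
        · show ruleF r.input u ∈ R
          have : ruleF r.input u = r := by
            cases r; simp only at h; subst h; rfl
          rw [this]; exact hr
        · cases r; simp only at h; subst h; rfl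
    · rintro (⟨q, u, q', v, h, rfl⟩ | ⟨q, u, h, rfl⟩)
      · exact h
      · exact h
  rw [ContextFreeGrammar.mem_language_iff]
  constructor
  · intro h
    obtain ⟨w', hw', hg⟩ := (gen_of_derives q0 hR h).1 [] [] q0 rfl
    rw [hw']
    simpa using hg
  · exact fun h => derives_of_gen q0 hR h

end Pool.Agent.H657R4
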